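import Pool.Agent.V7H32.CP.Spec

/-!
# Atypical subvarieties and points
-/

set_option autoImplicit false

namespace Pool.Agent.V7H32.CP

open MvPolynomial IntermediateField

section atyp

variable {ι : Type} [Fintype ι]

/-- Proper specializations have a smaller transcendence degree. -/
theorem td_lt {K L : Type} [Field K] [Field L] [Algebra ℂ K] [Algebra ℂ L] {v : ι → Kˣ}
    {x : ι → Lˣ} (h : Sp ℂ (cx v) (cx x)) (h' : ¬ Sp ℂ (cx x) (cx v)) :
    td ℂ (cx x) < td ℂ (cx v) := by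
  have hle : kr ℂ v ≤ kr ℂ x := sp_iff.1 h
  have hnle : ¬ kr ℂ x ≤ kr ℂ v := fun h1 => h' (sp_iff.2 h1)
  obtain ⟨f, hfx, hfv⟩ := Set.not_subset.1 hnle
  have hp := kr_prime v
  let A := MvPolynomial ι ℂ ⧸ kr ℂ v
  let r : A := Ideal.Quotient.mk _ f
  have hr : r ∈ nonZeroDivisors A := by
    rw [mem_nonZeroDivisors_iff_ne_zero]
    intro h0
    exact hfv (Ideal.Quotient.eq_zero_iff_mem.1 h0)
  have h1 := ringKrullDim_quotient_succ_le_of_nonZeroDivisor hr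
  let φ : A →+* MvPolynomial ι ℂ ⧸ kr ℂ x := Ideal.Quotient.factor hle
  let ψ : A ⧸ Ideal.span {r} →+* MvPolynomial ι ℂ ⧸ kr ℂ x := Ideal.Quotient.lift _ φ (by
    intro a ha
    obtain ⟨b, rfl⟩ := Ideal.mem_span_singleton'.1 ha
    rw [map_mul]
    have h2 : φ r = 0 := by
      show Ideal.Quotient.mk _ f = 0
      exact Ideal.Quotient.eq_zero_iff_mem.2 hfx
    rw [h2, mul_zero])
  have hψ : Function.Surjective ψ := by
    intro y
    obtain ⟨g, rfl⟩ := Ideal.Quotient.mk_surjective y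
    exact ⟨Ideal.Quotient.mk _ (Ideal.Quotient.mk _ g), rfl⟩
  have h2 : ringKrullDim (MvPolynomial ι ℂ ⧸ kr ℂ x) ≤ ringKrullDim (A ⧸ Ideal.span {r}) :=
    ringKrullDim_le_of_surjective ψ hψ
  have h3 : ringKrullDim (MvPolynomial ι ℂ ⧸ kr ℂ x) + 1 ≤ ringKrullDim A :=
    (add_le_add_left h2 1).trans h1
  have h4 : ringKrullDim A = ((td ℂ (cx v) : ℕ) : WithBot ℕ∞) := krull_kr v
  rw [krull_kr, h4] at h3
  have h5 : ((td ℂ (cx x) + 1 : ℕ) : WithBot ℕ∞) ≤ ((td ℂ (cx v) : ℕ) : WithBot ℕ∞) := by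
    push_cast
    exact h3
  have h6 : td ℂ (cx x) + 1 ≤ td ℂ (cx v) := by exact_mod_cast h5
  omega

/-- The dimension inequality. -/
theorem dim_ineq {a b c m n : ℕ} (h : b + m = n) :
    ((a : ℕ) : WithBot ℕ∞) + ((b : ℕ) : WithBot ℕ∞) < ((c : ℕ) : WithBot ℕ∞) + (n : WithBot ℕ∞) ↔
      a < c + m := by
  have h1 : ((a : ℕ) : WithBot ℕ∞) + ((b : ℕ) : WithBot ℕ∞) = ((a + b : ℕ) : WithBot ℕ∞) := by
    push_cast; rfl
  have h2 : ((c : ℕ) : WithBot ℕ∞) + (n : WithBot ℕ∞) = ((c + n : ℕ) : WithBot ℕ∞) := by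
    push_cast; rfl
  rw [h1, h2]
  have h3 : ((a + b : ℕ) : WithBot ℕ∞) < ((c + n : ℕ) : WithBot ℕ∞) ↔ a + b < c + n := by
    exact_mod_cast Iff.rfl
  rw [h3]
  omega

theorem finrank_le_rk {K : Type} [Field K] [Algebra ℂ K] {x : ι → Kˣ} {M : Submodule ℤ (ι → ℤ)}
    {η : ι → ℂ} (hη : ∃ m : ℕ, 0 < m ∧ ∀ i, η i ^ m = 1) (h : loc x ⊆ coset M η) :
    Module.finrank ℤ M ≤ rk x := by
  refine Submodule.finrank_mono fun a ha => ?_
  obtain ⟨m, hm, hη1⟩ := hη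
  refine ⟨m, hm, ?_⟩
  rw [← mon_nsmul]
  have h1 : bin ℂ (m • a) ∈ idl (loc x) := by
    rw [mem_idl]
    intro y hy
    have hy0 := hy.1
    have h2 := (h hy).2 a ha
    rw [← cx_toU y hy0, ← aeval_eq_eval]
    rw [aeval_bin, mon_nsmul]
    apply Units.ext
    rw [Units.val_pow_eq_pow_val, mon_toU, h2, ← Finset.prod_pow, Units.val_one]
    refine Finset.prod_eq_one fun i _ => ?_
    rw [← zpow_natCast, ← zpow_mul, mul_comm, zpow_mul, zpow_natCast, hη1, one_zpow]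
  rw [idl_loc] at h1
  exact (aeval_bin x _).1 h1

/-- From atypical subvarieties to points. -/
theorem pt_of_atypical {Kv : Type} [Field Kv] [Algebra ℂ Kv] {v : ι → Kvˣ} {X : Set (ι → ℂ)}
    (h : Atypical (loc v) X) : ∃ (K : Type) (_ : Field K) (_ : Algebra ℂ K) (x : ι → Kˣ),
      X = loc x ∧ Sp ℂ (cx v) (cx x) ∧ td ℂ (cx v) < td ℂ (cx x) + rk x := by
  obtain ⟨T, ⟨M, η, hM, hη, rfl⟩, ⟨hX1, hX2, -⟩, hd⟩ := h
  obtain ⟨K, i1, i2, x, rfl⟩ := exists_loc hX1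
  have hη0 : ∀ i, η i ≠ 0 := by
    obtain ⟨m, hm, hη1⟩ := hη
    intro i h0
    have h1 := hη1 i
    rw [h0, zero_pow hm.ne'] at h1
    exact zero_ne_one h1
  obtain ⟨KT, j1, j2, t, ht1, ht2⟩ := special_pt M hM (toU η hη0)
  rw [cx_toU] at ht1
  refine ⟨K, i1, i2, x, rfl, loc_subset.1 fun y hy => (hX2 hy).1, ?_⟩
  rw [ht1, dim_loc, dim_loc, dim_loc, dim_ineq ht2] at hd
  have h1 := finrank_le_rk (x := x) (M := M) hη fun y hy => (hX2 hy).2
  omega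

/-- The smallest special variety that contains a given point. -/
theorem exists_special {K : Type} [Field K] [Algebra ℂ K] (x : ι → Kˣ) :
    ∃ T : Set (ι → ℂ), IsSpecial T ∧ loc x ⊆ T ∧ ∃ b : ℕ, dim T = ((b : ℕ) : WithBot ℕ∞) ∧
      b + rk x = Fintype.card ι ∧ IsClosedIn T := by
  obtain ⟨g, hg, hg1⟩ := unif x
  obtain ⟨η, hη, hη1⟩ := tors x (Rel x) (fun a m hm ha => Rel_sat hm ha) hg hg1
  obtain ⟨KT, j1, j2, t, ht1, ht2⟩ := special_pt (Rel x) (fun a m hm ha => Rel_sat hm ha) η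
  refine ⟨coset (Rel x) (cx η), ⟨Rel x, cx η, fun a m hm ha => Rel_sat hm ha, ⟨g, hg, fun i => ?_⟩,
    rfl⟩, ?_, td ℂ (cx t), ?_, ht2, ?_⟩
  · rw [cx_apply, ← Units.val_pow_eq_pow_val, hη, Units.val_one]
  · intro y hy
    have hy0 := hy.1
    refine ⟨hy0, fun a ha => ?_⟩
    have h1 : binc (((mon η a : ℂˣ) : ℂ)) a ∈ kr ℂ x := by
      rw [mem_kr, aeval_binc, hη1 a ha]
      rfl
    have h2 := hy.2 _ h1
    rw [eval_binc y hy0] at h2
    rw [h2, mon, Units.coe_prod]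
    refine Finset.prod_congr rfl fun i _ => ?_
    rw [Units.val_zpow_eq_zpow_val]
    rfl
  · rw [ht1, dim_loc]
  · rw [ht1]
    exact (isVar_loc t).1

omit [Fintype ι] in
theorem IsClosedIn.inter {V W : Set (ι → ℂ)} (hV : IsClosedIn V) (hW : IsClosedIn W) :
    IsClosedIn (V ∩ W) := by
  obtain ⟨S, rfl⟩ := hV
  obtain ⟨S', rfl⟩ := hW
  refine ⟨S ∪ S', ?_⟩
  ext x
  constructor
  · rintro ⟨⟨h1, h2⟩, -, h3⟩
    exact ⟨h1, fun p hp => hp.elim (h2 p) (h3 p)⟩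
  · rintro ⟨h1, h2⟩
    exact ⟨⟨h1, fun p hp => h2 p (Or.inl hp)⟩, h1, fun p hp => h2 p (Or.inr hp)⟩

/-- Components. -/
theorem exists_component {K : Type} [Field K] [Algebra ℂ K] {x : ι → Kˣ} {Y : Set (ι → ℂ)}
    (hY : IsClosedIn Y) (hxY : loc x ⊆ Y) : ∃ X, IsComponent X Y ∧ loc x ⊆ X := by
  have h1 : idl Y ≤ kr ℂ x := by
    rw [← idl_loc]
    exact idl_anti hxY
  have hp := kr_prime x
  obtain ⟨p, hp1, hp2⟩ := Ideal.exists_minimalPrimes_le h1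
  have hpp : p.IsPrime := hp1.1.1
  have hpX : ∀ i, X i ∉ p := fun i hi => X_notMem_kr x i (hp2 hi)
  have hid : idl (ZZ p) = p := idl_ZZ hpp hpX
  have hv : IsVar (ZZ p) := ⟨isClosedIn_ZZ p, by rw [hid]; exact hpp⟩
  refine ⟨ZZ p, ⟨hv, ?_, ?_⟩, ?_⟩
  · apply subset_of_idl hY hv.1
    rw [hid]
    exact hp1.1.2
  · intro Z hZ h2 h3
    have h4 : idl Z ≤ p := by
      rw [← hid]
      exact idl_anti h2
    have h5 : p ≤ idl Z := hp1.2 ⟨hZ.2, idl_anti h3⟩ h4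
    rw [← ZZ_idl hZ.1, le_antisymm h4 h5]
  · apply subset_of_idl hv.1 (isVar_loc x).1
    rw [hid, idl_loc]
    exact hp2

/-- From points to atypical subvarieties. -/
theorem atypical_of_pt {Kv K : Type} [Field Kv] [Algebra ℂ Kv] [Field K] [Algebra ℂ K]
    {v : ι → Kvˣ} {x : ι → Kˣ} (h : Sp ℂ (cx v) (cx x))
    (hd : td ℂ (cx v) < td ℂ (cx x) + rk x) : ∃ X, Atypical (loc v) X ∧ loc x ⊆ X := by
  obtain ⟨T, hT1, hT2, b, hb1, hb2, hT3⟩ := exists_special x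
  obtain ⟨X, hX1, hX2⟩ := exists_component ((isVar_loc v).1.inter hT3)
    (Set.subset_inter (loc_subset.2 h) hT2)
  refine ⟨X, ⟨T, hT1, hX1, ?_⟩, hX2⟩
  obtain ⟨K', i1, i2, x', rfl⟩ := exists_loc hX1.1
  have h2 : td ℂ (cx x) ≤ td ℂ (cx x') := by
    by_cases h3 : Sp ℂ (cx x) (cx x')
    · exact (td_eq_of_sp h3 (loc_subset.1 hX2)).le
    · exact (td_lt (loc_subset.1 hX2) h3).le
  rw [dim_loc, dim_loc, hb1, dim_ineq hb2]
  omega

theorem Atypical.subset {V X : Set (ι → ℂ)} (h : Atypical V X) : X ⊆ V := by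
  obtain ⟨T, -, ⟨-, h1, -⟩, -⟩ := h
  exact fun y hy => (h1 hy).1

/-- Each atypical subvariety lies in a maximal one. -/
theorem exists_maximal {V X : Set (ι → ℂ)} (hX : Atypical V X) :
    ∃ Y, Maximal (Atypical V) Y ∧ X ⊆ Y := by
  have key : ∀ (d : ℕ) (X : Set (ι → ℂ)), Atypical V X →
      (∀ (K : Type) [Field K] [Algebra ℂ K] (x : ι → Kˣ), X = loc x →
        Fintype.card ι ≤ d + td ℂ (cx x)) → ∃ Y, Maximal (Atypical V) Y ∧ X ⊆ Y := by
    intro d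
    induction d with
    | zero =>
      intro X hX hd
      refine ⟨X, ⟨hX, fun Y hY hXY => ?_⟩, subset_rfl⟩
      obtain ⟨T, -, ⟨hv, -, -⟩, -⟩ := id hX
      obtain ⟨K, i1, i2, x, rfl⟩ := exists_loc hv
      obtain ⟨T', -, ⟨hv', -, -⟩, -⟩ := id hY
      obtain ⟨K', j1, j2, y, rfl⟩ := exists_loc hv'
      by_contra h1
      have h2 := td_lt (loc_subset.1 hXY) (fun h => h1 (loc_subset.2 h))
      have h3 := hd K x rfl
      have h4 := td_le_card (k := ℂ) (cx y)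
      omega
    | succ d ih =>
      intro X hX hd
      by_cases hmax : Maximal (Atypical V) X
      · exact ⟨X, hmax, subset_rfl⟩
      · have h0 : ∃ Y, Atypical V Y ∧ X ⊆ Y ∧ ¬ Y ⊆ X := by
          by_contra hcon
          push Not at hcon
          exact hmax ⟨hX, fun Y hY hXY => hcon Y hY hXY⟩
        obtain ⟨Y, hY, hXY, hYX⟩ := h0
        obtain ⟨Z, hZ1, hZ2⟩ := ih Y hY (by
          intro K' _ _ y hy
          obtain ⟨T, -, ⟨hv, -, -⟩, -⟩ := id hX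
          obtain ⟨K, i1, i2, x, rfl⟩ := exists_loc hv
          subst hy
          have h2 := td_lt (loc_subset.1 hXY) (fun h => hYX (loc_subset.2 h))
          have h3 := hd K x rfl
          omega)
        exact ⟨Z, hZ1, hXY.trans hZ2⟩
  exact key (Fintype.card ι) X hX fun K _ _ x _ => Nat.le_add_right _ _

end atyp

end Pool.Agent.V7H32.CP
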