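import Mathlib

/-!
# Lattices
-/

set_option autoImplicit false

namespace Pool.Agent.V7H32.CP

section lat

variable {M N : Type} [AddCommGroup M] [AddCommGroup N]

theorem rank_nullity [Module.Finite ℤ M] (f : M →ₗ[ℤ] N) (hf : Function.Surjective f) :
    Module.finrank ℤ N + Module.finrank ℤ (LinearMap.ker f) = Module.finrank ℤ M := by
  rw [← Submodule.finrank_quotient_add_finrank (LinearMap.ker f),
    (f.quotKerEquivOfSurjective hf).finrank_eq]

/-- The rank of the preimage of a submodule. -/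
theorem finrank_comap [Module.Finite ℤ M] [Module.Finite ℤ N] [Module.Free ℤ N]
    (f : M →ₗ[ℤ] N) (hf : Function.Surjective f)
    (R : Submodule ℤ N) : Module.finrank ℤ R + Module.finrank ℤ (LinearMap.ker f) ≤
      Module.finrank ℤ (R.comap f) := by
  let g : R.comap f →ₗ[ℤ] R := f.restrict fun x hx => hx
  have hg : Function.Surjective g := by
    rintro ⟨y, hy⟩
    obtain ⟨x, rfl⟩ := hf y
    exact ⟨⟨x, hy⟩, rfl⟩
  rw [← rank_nullity g hg]
  refine Nat.add_le_add_left ?_ _
  have hk : ∀ x ∈ LinearMap.ker f, x ∈ R.comap f := fun x hx => by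
    rw [Submodule.mem_comap, LinearMap.mem_ker.1 hx]
    exact zero_mem R
  let i : LinearMap.ker f →ₗ[ℤ] LinearMap.ker g :=
    { toFun := fun x => ⟨⟨x.1, hk x.1 x.2⟩, by
        rw [LinearMap.mem_ker]
        exact Subtype.ext (LinearMap.mem_ker.1 x.2)⟩
      map_add' := fun _ _ => rfl
      map_smul' := fun _ _ => rfl }
  refine LinearMap.finrank_le_finrank_of_injective (f := i) ?_
  intro a b hab
  apply Subtype.ext
  exact congrArg (fun z : LinearMap.ker g => ((z : R.comap f) : M)) hab

/-- Generators of a submodule `P` modulo a saturated submodule `R`. -/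
theorem exists_gen [Module.Finite ℤ M] (R P : Submodule ℤ M) (hRP : R ≤ P)
    (hsat : ∀ (n : ℤ) (a : M), n ≠ 0 → n • a ∈ R → a ∈ R) :
    ∃ s : Finset M, (∀ c ∈ s, c ∈ P) ∧ s.card + Module.finrank ℤ R ≤ Module.finrank ℤ P ∧
      ∀ c ∈ P, c ∈ R ⊔ Submodule.span ℤ (s : Set M) := by
  classical
  let Q := P ⧸ R.submoduleOf P
  have htf : Module.IsTorsionFree ℤ Q := by
    refine ⟨fun n hn => ?_⟩
    have hn0 : n ≠ 0 := hn.ne_zero
    intro a b hab
    simp only at hab
    obtain ⟨a, rfl⟩ := Submodule.Quotient.mk_surjective _ a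
    obtain ⟨b, rfl⟩ := Submodule.Quotient.mk_surjective _ b
    rw [← Submodule.Quotient.mk_smul, ← Submodule.Quotient.mk_smul, Submodule.Quotient.eq] at hab
    rw [Submodule.Quotient.eq]
    rw [← smul_sub] at hab
    exact hsat n _ hn0 hab
  have hfree : Module.Free ℤ Q := inferInstance
  let b := Module.finBasis ℤ Q
  have hlift : ∀ i, ∃ c : P, Submodule.Quotient.mk c = b i := fun i =>
    Submodule.Quotient.mk_surjective _ (b i)
  choose c hc using hlift
  have hr := Submodule.finrank_quotient_add_finrank (R.submoduleOf P)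
  rw [(Submodule.submoduleOfEquivOfLe hRP).finrank_eq] at hr
  refine ⟨Finset.univ.image fun i => (c i : M), ?_, ?_, ?_⟩
  · intro z hz
    obtain ⟨i, -, rfl⟩ := Finset.mem_image.1 hz
    exact (c i).2
  · rw [← hr]
    refine Nat.add_le_add_right (Finset.card_image_le.trans ?_) _
    simp [Q]
  · intro z hz
    have h1 : (⟨z, hz⟩ : P) - ∑ i, (b.repr (Submodule.Quotient.mk ⟨z, hz⟩) i) • c i ∈
        R.submoduleOf P := by
      rw [← Submodule.Quotient.eq]
      rw [← Submodule.mkQ_apply, ← Submodule.mkQ_apply, map_sum]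
      simp only [map_smul, Submodule.mkQ_apply, hc]
      exact (b.sum_repr _).symm
    have h2 : z = (z - ∑ i, (b.repr (Submodule.Quotient.mk ⟨z, hz⟩) i) • (c i : M)) +
        ∑ i, (b.repr (Submodule.Quotient.mk ⟨z, hz⟩) i) • (c i : M) := by abel
    rw [h2]
    refine Submodule.add_mem_sup ?_ ?_
    · have h3 : ((⟨z, hz⟩ - ∑ i, (b.repr (Submodule.Quotient.mk ⟨z, hz⟩) i) • c i : P) : M) ∈ R := h1
      simpa using h3
    · refine Submodule.sum_mem _ fun i _ => Submodule.smul_mem _ _ (Submodule.subset_span ?_)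
      rw [Finset.mem_coe]
      exact Finset.mem_image_of_mem _ (Finset.mem_univ i)

end lat

end Pool.Agent.V7H32.CP
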