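import Pool.Agent.V7H32.CP.Lin
import Pool.Agent.V7H32.CP.Lat

/-!
# Systems of equations with three terms
-/

set_option autoImplicit false

namespace Pool.Agent.V7H32.CP

open MvPolynomial IntermediateField

/-- The point lies on the product of the lines `u + v = 1`. -/
def OnLine {ρ : Type} {K : Type} [Field K] (y : ρ × Fin 2 → Kˣ) : Prop :=
  ∀ r, (y (r, 0) : K) + y (r, 1) = 1

/-- Over `ℚ`: finitely many maximal atypical subvarieties of the product of the lines. -/
def MF (ρ : Type) [Fintype ρ] : Prop :=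
  ∃ S : Set (Ideal (MvPolynomial (ρ × Fin 2) ℚ)), S.Finite ∧
    (∀ p ∈ S, ∃ (K : Type) (_ : Field K) (_ : CharZero K) (y : ρ × Fin 2 → Kˣ), OnLine y ∧
      Fintype.card ρ < td ℚ (cx y) + rk y ∧
      RingHom.ker (aeval (cx y) : MvPolynomial (ρ × Fin 2) ℚ →ₐ[ℚ] K) = p) ∧
    ∀ (K : Type) [Field K] [CharZero K] (x : ρ × Fin 2 → Kˣ), OnLine x →
      Fintype.card ρ < td ℚ (cx x) + rk x →
      ∃ p ∈ S, p ≤ RingHom.ker (aeval (cx x) : MvPolynomial (ρ × Fin 2) ℚ →ₐ[ℚ] K)

/-- The solutions of a system of equations with three terms. -/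
def Sol3 {ι ρ : Type} [Fintype ι] (e : ρ → Fin 3 → ι → ℤ) {K : Type} [Field K] (x : ι → Kˣ) :
    Prop :=
  ∀ r, ((mon x (e r 0) : Kˣ) : K) + mon x (e r 1) = mon x (e r 2)

section base

variable {ι ρ : Type} [Fintype ι] [Fintype ρ]

/-- The exponents of the quotients of the terms. -/
def quo (e : ρ → Fin 3 → ι → ℤ) (j : ρ × Fin 2) : ι → ℤ :=
  if j.2 = 0 then e j.1 0 - e j.1 2 else e j.1 1 - e j.1 2

/-- The homomorphism of the character groups. -/
noncomputable def phi (e : ρ → Fin 3 → ι → ℤ) : (ρ × Fin 2 → ℤ) →ₗ[ℤ] (ι → ℤ) :=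
  Fintype.linearCombination ℤ (quo e)

theorem phi_apply (e : ρ → Fin 3 → ι → ℤ) (b : ρ × Fin 2 → ℤ) :
    phi e b = ∑ j, b j • quo e j := by
  rw [phi, Fintype.linearCombination_apply]

theorem phi_single [DecidableEq (ρ × Fin 2)] (e : ρ → Fin 3 → ι → ℤ) (j : ρ × Fin 2) :
    phi e (Pi.single j 1) = quo e j := by
  rw [phi_apply, Finset.sum_eq_single j]
  · simp
  · intro i _ hi
    rw [Pi.single_eq_of_ne hi, zero_smul]
  · simp

variable {K : Type} [Field K]

theorem mon_phi (e : ρ → Fin 3 → ι → ℤ) (x : ι → Kˣ) (b : ρ × Fin 2 → ℤ) :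
    mon (fun j => mon x (quo e j)) b = mon x (phi e b) := by
  rw [phi_apply, mon_sum]
  simp only [mon_smul]
  rfl

theorem onLine_of_sol {e : ρ → Fin 3 → ι → ℤ} {x : ι → Kˣ} (h : Sol3 e x) :
    OnLine fun j : ρ × Fin 2 => mon x (quo e j) := by
  intro r
  have h1 : quo e (r, 0) = e r 0 - e r 2 := by simp [quo]
  have h2 : quo e (r, 1) = e r 1 - e r 2 := by simp [quo]
  simp only [h1, h2, mon_sub, Units.val_div_eq_div_val]
  rw [← add_div, h r, div_self (Units.ne_zero _)]

theorem sol_of_onLine {e : ρ → Fin 3 → ι → ℤ} {x : ι → Kˣ}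
    (h : OnLine fun j : ρ × Fin 2 => mon x (quo e j)) : Sol3 e x := by
  intro r
  have h1 : quo e (r, 0) = e r 0 - e r 2 := by simp [quo]
  have h2 : quo e (r, 1) = e r 1 - e r 2 := by simp [quo]
  have h3 := h r
  simp only [h1, h2, mon_sub, Units.val_div_eq_div_val] at h3
  rw [← add_div, div_eq_one_iff_eq (Units.ne_zero _)] at h3
  exact h3

theorem sp_onLine {y : ρ × Fin 2 → Kˣ} {L : Type} [Field L] [Algebra ℚ K] [Algebra ℚ L]
    {x : ρ × Fin 2 → Lˣ} (h : Sp ℚ (cx y) (cx x)) (hy : OnLine y) : OnLine x := by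
  intro r
  have h1 := h (X (r, 0) + X (r, 1) - 1) (by
    simp only [map_sub, map_add, aeval_X, map_one, cx_apply]
    rw [hy r, sub_self])
  simp only [map_sub, map_add, aeval_X, map_one, cx_apply] at h1
  exact sub_eq_zero.1 h1

/-- **The case of three terms.** -/
theorem base (hMF : MF ρ) (e : ρ → Fin 3 → ι → ℤ) (hsurj : Function.Surjective (phi e))
    (hbd : ∀ (K : Type) [Field K] [CharZero K] (x : ι → Kˣ), Sol3 e x →
      td ℚ (cx x) + Fintype.card ρ ≤ Fintype.card ι) :
    ∃ A : Set (ι → ℤ), A.Finite ∧ 0 ∉ A ∧ ∀ (K : Type) [Field K] [CharZero K] (x : ι → Kˣ),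
      Sol3 e x → Fintype.card ι < td ℚ (cx x) + rk x + Fintype.card ρ → ∃ a ∈ A, mon x a = 1 := by
  classical
  obtain ⟨S, hS, hS1, hS2⟩ := hMF
  have hker : Fintype.card ι + Module.finrank ℤ (LinearMap.ker (phi e)) =
      2 * Fintype.card ρ := by
    have h1 := rank_nullity (phi e) hsurj
    simp only [Module.finrank_fintype_fun_eq_card, Fintype.card_prod, Fintype.card_fin] at h1
    omega
  -- the relations
  let good : Ideal (MvPolynomial (ρ × Fin 2) ℚ) → (ρ × Fin 2 → ℤ) → Prop := fun p b =>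
    phi e b ≠ 0 ∧ bin ℚ b ∈ p
  let f : Ideal (MvPolynomial (ρ × Fin 2) ℚ) → (ι → ℤ) := fun p =>
    if h : ∃ b, good p b then phi e h.choose else 0
  refine ⟨(f '' S) \ {0}, (hS.image f).diff, fun h => h.2 rfl, ?_⟩
  intro K _ _ x hx hat
  let X' : ρ × Fin 2 → Kˣ := fun j => mon x (quo e j)
  have hmon : ∀ b, mon X' b = mon x (phi e b) := mon_phi e x
  have hline : OnLine X' := onLine_of_sol hx
  have htd : td ℚ (cx x) ≤ td ℚ (cx X') := by
    refine td_mono fun i => ?_
    obtain ⟨b, hb⟩ := hsurj (Pi.single i 1)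
    have h1 : x i = mon X' b := by rw [hmon, hb, mon_single]
    rw [cx_apply, h1]
    exact mon_mem X' b
  have hrk : rk x + Module.finrank ℤ (LinearMap.ker (phi e)) ≤ rk X' := by
    have h1 : Rel X' = (Rel x).comap (phi e) := by
      ext b
      rw [Submodule.mem_comap, mem_Rel, mem_Rel, hmon]
    rw [rk, rk, h1]
    exact finrank_comap (phi e) hsurj (Rel x)
  obtain ⟨p, hpS, hpX⟩ := hS2 K X' hline (by omega)
  refine ⟨f p, ?_⟩
  obtain ⟨Ky, i1, i2, y, hy1, hy2, hy3⟩ := hS1 p hpS
  have hsp : Sp ℚ (cx y) (cx X') := fun g hg => hpX (by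
    rw [← hy3]
    exact hg)
  by_cases hcase : ∃ b, good p b
  · have hf : f p = phi e hcase.choose := by simp only [f]; rw [dif_pos hcase]
    obtain ⟨hb1, hb2⟩ := hcase.choose_spec
    refine ⟨⟨⟨p, hpS, rfl⟩, ?_⟩, ?_⟩
    · rw [Set.mem_singleton_iff, hf]
      exact hb1
    · rw [hf, ← hmon]
      have h1 := hpX hb2
      exact (aeval_bin X' _).1 h1
  · exfalso
    have hRk : Rel y ≤ LinearMap.ker (phi e) := by
      rintro b ⟨N, hN, hb⟩
      by_contra h0
      rw [LinearMap.mem_ker] at h0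
      apply hcase
      refine ⟨N • b, ?_, ?_⟩
      · rw [map_nsmul]
        exact smul_ne_zero hN.ne' h0
      · rw [← hy3, RingHom.mem_ker]
        rw [← mon_nsmul] at hb
        exact (aeval_bin y _).2 hb
    obtain ⟨s, hs1, hs2, hs3⟩ := exists_gen (Rel y) (LinearMap.ker (phi e)) hRk
      (fun n a hn ha => Rel_sat hn ha)
    obtain ⟨F, j1, j2, y', hyy', hy'x, hy'0, htdy⟩ := cut_td hsp (s.image (bin ℚ)) (by
      intro g hg
      obtain ⟨c, hc, rfl⟩ := Finset.mem_image.1 hg
      rw [aeval_bin, hmon, LinearMap.mem_ker.1 (hs1 c hc), mon_zero])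
    have hF0 : CharZero F := algebraRat.charZero F
    obtain rfl : j2 = DivisionRing.toRatAlgebra := Subsingleton.elim _ _
    have hy'ne : ∀ j, y' j ≠ 0 := by
      intro j hj
      have h1 := hy'x (X j) (by rw [aeval_X, hj])
      rw [aeval_X] at h1
      exact (X' j).ne_zero h1
    let Y : ρ × Fin 2 → Fˣ := fun j => Units.mk0 (y' j) (hy'ne j)
    have hYc : cx Y = y' := rfl
    rw [← hYc] at hyy' hy'x hy'0 htdy
    have hYk : ∀ c ∈ LinearMap.ker (phi e), mon Y c = 1 := by
      intro c hc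
      have h1 := hs3 c hc
      have h2 : ∀ c ∈ Rel y, mon Y c = 1 := by
        intro c hc
        refine hyy'.mon (hsp.one hc ?_)
        rw [hmon, LinearMap.mem_ker.1 (hRk hc), mon_zero]
      have h3 : ∀ c ∈ Submodule.span ℤ (s : Set (ρ × Fin 2 → ℤ)), mon Y c = 1 := by
        intro c hc
        induction hc using Submodule.span_induction with
        | mem c hc => exact (aeval_bin Y c).1 (hy'0 _ (Finset.mem_image_of_mem _ hc))
        | zero => exact mon_zero Y
        | add a b _ _ ha hb => rw [mon_add, ha, hb, one_mul]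
        | smul n a _ ha => rw [mon_smul, ha, one_zpow]
      obtain ⟨a, ha, b, hb, rfl⟩ := Submodule.mem_sup.1 h1
      rw [mon_add, h2 a ha, h3 b hb, one_mul]
    choose σ hσ using fun i => hsurj (Pi.single i 1)
    let x1 : ι → Fˣ := fun i => mon Y (σ i)
    have hx1 : ∀ b, mon x1 (phi e b) = mon Y b := by
      intro b
      have h1 : mon x1 (phi e b) = mon Y (∑ i, (phi e b) i • σ i) := by
        rw [mon_sum]
        simp only [mon_smul]
        rfl
      have h2 : b - ∑ i, (phi e b) i • σ i ∈ LinearMap.ker (phi e) := by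
        rw [LinearMap.mem_ker, map_sub, map_sum]
        simp only [map_smul, hσ]
        rw [sub_eq_zero]
        funext i
        rw [Finset.sum_apply, Finset.sum_eq_single i]
        · simp
        · intro j _ hj
          simp [Pi.single_eq_of_ne (Ne.symm hj)]
        · simp
      have h3 := hYk _ h2
      rw [mon_sub, div_eq_one] at h3
      rw [h1, ← h3]
    have hxY : (fun j => mon x1 (quo e j)) = Y := by
      funext j
      rw [← phi_single e j, hx1, mon_single]
    have hsol1 : Sol3 e x1 := by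
      apply sol_of_onLine
      rw [hxY]
      exact sp_onLine hyy' hy1
    have hbd1 := hbd F x1 hsol1
    have htdY : td ℚ (cx Y) ≤ td ℚ (cx x1) := by
      refine td_mono fun j => ?_
      have h1 : Y j = mon x1 (quo e j) := (congrFun hxY j).symm
      rw [cx_apply, h1]
      exact mon_mem x1 _
    have hcard : (s.image (bin ℚ)).card ≤ s.card := Finset.card_image_le
    have hrky : Module.finrank ℤ (Rel y) = rk y := rfl
    omega

end base

end Pool.Agent.V7H32.CP
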