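import Pool.Agent.V7H32.CP.Fwd

/-!
# From Zilber's conjecture to finitely many maximal atypical subvarieties
-/

set_option autoImplicit false

namespace Pool.Agent.V7H32.CP

open MvPolynomial IntermediateField

/-- Zilber's conjecture, for points. -/
def ZC (n : ℕ) : Prop := ∀ (Kv : Type) [Field Kv] [Algebra ℂ Kv] (v : Fin n → Kvˣ),
  ∃ A : Set (Fin n → ℤ), A.Finite ∧ 0 ∉ A ∧ ∀ (K : Type) [Field K] [Algebra ℂ K]
    (x : Fin n → Kˣ), Sp ℂ (cx v) (cx x) → td ℂ (cx v) < td ℂ (cx x) + rk x →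
    ∃ a ∈ A, mon x a = 1

/-- Zilber's conjecture, as in the frozen statement. -/
def Zilber : Prop :=
  ∀ (n : ℕ) (S : Set (MvPolynomial (Fin n) ℂ)) (V : Set (Fin n → ℂ)),
      V = {x : Fin n → ℂ | (∀ i, x i ≠ 0) ∧ ∀ p ∈ S, MvPolynomial.eval x p = 0} →
      (⨅ x ∈ V, RingHom.ker (MvPolynomial.eval x : MvPolynomial (Fin n) ℂ →+* ℂ)).IsPrime →
      ∃ (k : ℕ) (L : Fin k → Submodule ℤ (Fin n → ℤ)) (ζ : Fin k → Fin n → ℂ),
        (∀ j, L j ≠ ⊥ ∧
          (∀ a : Fin n → ℤ, ∀ m : ℤ, m ≠ 0 → m • a ∈ L j → a ∈ L j) ∧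
          ∃ m : ℕ, 0 < m ∧ ∀ i, ζ j i ^ m = 1) ∧
        ∀ (M : Submodule ℤ (Fin n → ℤ)) (η : Fin n → ℂ) (T : Set (Fin n → ℂ)),
          (∀ a : Fin n → ℤ, ∀ m : ℤ, m ≠ 0 → m • a ∈ M → a ∈ M) →
          (∃ m : ℕ, 0 < m ∧ ∀ i, η i ^ m = 1) →
          T = {y : Fin n → ℂ | (∀ i, y i ≠ 0) ∧
                ∀ a ∈ M, ∏ i, y i ^ a i = ∏ i, η i ^ a i} →
          ∀ X : Set (Fin n → ℂ), X ⊆ V → X ⊆ T →
            (⨅ x ∈ X, RingHom.ker (MvPolynomial.eval x : MvPolynomial (Fin n) ℂ →+* ℂ)).IsPrime →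
            ringKrullDim (MvPolynomial (Fin n) ℂ ⧸
                (⨅ x ∈ V, RingHom.ker (MvPolynomial.eval x : MvPolynomial (Fin n) ℂ →+* ℂ)))
              + ringKrullDim (MvPolynomial (Fin n) ℂ ⧸
                (⨅ x ∈ T, RingHom.ker (MvPolynomial.eval x : MvPolynomial (Fin n) ℂ →+* ℂ)))
              < ringKrullDim (MvPolynomial (Fin n) ℂ ⧸
                (⨅ x ∈ X, RingHom.ker (MvPolynomial.eval x : MvPolynomial (Fin n) ℂ →+* ℂ)))
                + (n : WithBot ℕ∞) →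
            ∃ j, X ⊆ {y : Fin n → ℂ | (∀ i, y i ≠ 0) ∧
                ∀ a ∈ L j, ∏ i, y i ^ a i = ∏ i, ζ j i ^ a i}

theorem zc_of_zilber (h : Zilber) (n : ℕ) : ZC n := by
  intro Kv _ _ v
  obtain ⟨k, L, ζ, h1, h2⟩ := h n (kr ℂ v) (loc v) rfl (by
    have := (isVar_loc v).2
    exact this)
  choose h3 h4 m hm hζ using h1
  choose a ha ha0 using fun j => Submodule.exists_mem_ne_zero_of_ne_bot (h3 j)
  refine ⟨Set.range fun j => m j • a j, Set.finite_range _, ?_, ?_⟩
  · rintro ⟨j, hj⟩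
    exact smul_ne_zero (hm j).ne' (ha0 j) hj
  · intro K _ _ x hx hd
    obtain ⟨T, ⟨M, η, hM, hη, hT⟩, hT2, b, hb1, hb2, hT3⟩ := exists_special x
    obtain ⟨j, hj⟩ := h2 M η T hM hη hT (loc x) (loc_subset.2 hx) hT2 (by
      have := (isVar_loc x).2
      exact this) (by
      have e1 : (⨅ x ∈ loc v, RingHom.ker (MvPolynomial.eval x :
        MvPolynomial (Fin n) ℂ →+* ℂ)) = kr ℂ v := idl_loc v
      have e2 : ringKrullDim (MvPolynomial (Fin n) ℂ ⧸
        (⨅ x ∈ T, RingHom.ker (MvPolynomial.eval x :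
        MvPolynomial (Fin n) ℂ →+* ℂ))) = ((b : ℕ) : WithBot ℕ∞) := hb1
      have e3 : (⨅ y ∈ loc x, RingHom.ker (MvPolynomial.eval y :
        MvPolynomial (Fin n) ℂ →+* ℂ)) = kr ℂ x := idl_loc x
      rw [e1, e2, e3, krull_kr, krull_kr]
      rw [Fintype.card_fin] at hb2
      exact (dim_ineq hb2).2 hd)
    refine ⟨_, ⟨j, rfl⟩, ?_⟩
    have h5 : bin ℂ (m j • a j) ∈ idl (loc x) := by
      rw [mem_idl]
      intro y hy
      have hy0 := hy.1
      have h6 := (hj hy).2 (a j) (ha j)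
      rw [← cx_toU y hy0, ← aeval_eq_eval]
      rw [aeval_bin, mon_nsmul]
      apply Units.ext
      rw [Units.val_pow_eq_pow_val, mon_toU, h6, ← Finset.prod_pow, Units.val_one]
      refine Finset.prod_eq_one fun i _ => ?_
      rw [← zpow_natCast, ← zpow_mul, mul_comm, zpow_mul, zpow_natCast, hζ, one_zpow]
    rw [idl_loc] at h5
    exact (aeval_bin x _).1 h5

section rel

variable {ι : Type} [Fintype ι]

/-- The relative form. -/
theorem rel_form (h : ∀ n, ZC n) {Kv : Type} [Field Kv] [Algebra ℂ Kv] (v : ι → Kvˣ) :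
    ∃ A : Set (ι → ℤ), A.Finite ∧ (∀ a ∈ A, a ∉ Rel v) ∧ ∀ (K : Type) [Field K] [Algebra ℂ K]
      (x : ι → Kˣ), Sp ℂ (cx v) (cx x) → td ℂ (cx v) + rk v < td ℂ (cx x) + rk x →
      ∃ a ∈ A, mon x a = 1 := by
  classical
  obtain ⟨m, θ, σ, hθσ, hθ, hm⟩ := split (Rel v) (fun a m hm ha => Rel_sat hm ha)
  have hmon : ∀ {K : Type} [Field K] (x : ι → Kˣ) (c : Fin m → ℤ),
      mon (fun j => mon x (σ (Pi.single j 1))) c = mon x (σ c) := by
    intro K _ x c
    rw [lin_eq_sum σ c, mon_sum]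
    simp only [mon_smul]
    rfl
  obtain ⟨A, hA, hA0, hA1⟩ := h m Kv fun j => mon v (σ (Pi.single j 1))
  refine ⟨σ '' A, hA.image _, ?_, ?_⟩
  · rintro _ ⟨c, hc, rfl⟩ hcv
    rw [← hθ, hθσ] at hcv
    exact hA0 (hcv ▸ hc)
  · intro K _ _ x hx hd
    have h1 : Sp ℂ (cx fun j => mon v (σ (Pi.single j 1))) (cx fun j => mon x (σ (Pi.single j 1))) :=
      hx.monos _
    have h2 : td ℂ (cx fun j => mon v (σ (Pi.single j 1))) ≤ td ℂ (cx v) :=
      td_mono fun j => mon_mem v _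
    have h3 : td ℂ (cx x) ≤ td ℂ (cx fun j => mon x (σ (Pi.single j 1))) := by
      refine td_mono fun i => ?_
      have h4 : Pi.single i 1 - σ (θ (Pi.single i 1)) ∈ Rel x := by
        apply hx.rel
        rw [← hθ, map_sub, hθσ, sub_self]
      obtain ⟨N, hN, h5⟩ := h4
      obtain ⟨ω, -, hω⟩ := root_mem hN h5
      rw [mon_sub, mon_single] at hω
      have h6 : x i = Units.map (algebraMap ℂ K : ℂ →* K) ω *
          mon (fun j => mon x (σ (Pi.single j 1))) (θ (Pi.single i 1)) := by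
        rw [hω, hmon, div_mul_cancel]
      rw [cx_apply, h6, Units.val_mul]
      exact mul_mem ((adjoin ℂ _).algebraMap_mem _) (mon_mem _ _)
    have h4 : rk x ≤ rk (fun j => mon x (σ (Pi.single j 1))) + rk v := by
      let f : Rel x →ₗ[ℤ] Rel (fun j => mon x (σ (Pi.single j 1))) := θ.restrict (by
        intro a ha
        have h5 : a - σ (θ a) ∈ Rel x := by
          apply hx.rel
          rw [← hθ, map_sub, hθσ, sub_self]
        have h6 : σ (θ a) ∈ Rel x := by
          have := Submodule.sub_mem _ ha h5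
          rwa [sub_sub_cancel] at this
        obtain ⟨N, hN, h7⟩ := h6
        exact ⟨N, hN, by rw [hmon]; exact h7⟩)
      have h5 := rank_nullity f.rangeRestrict f.surjective_rangeRestrict
      have h6 : Module.finrank ℤ (LinearMap.range f) ≤
          Module.finrank ℤ (Rel (fun j => mon x (σ (Pi.single j 1)))) :=
        Submodule.finrank_le _
      have h7 : Module.finrank ℤ (LinearMap.ker f.rangeRestrict) ≤ Module.finrank ℤ (Rel v) := by
        let i : LinearMap.ker f.rangeRestrict →ₗ[ℤ] Rel v :=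
          { toFun := fun z => ⟨((z : Rel x) : ι → ℤ), by
              have hz : f.rangeRestrict z = 0 := z.2
              have hz1 := congrArg (fun w : LinearMap.range f =>
                ((w : Rel (fun j => mon x (σ (Pi.single j 1)))) : Fin m → ℤ)) hz
              rw [← hθ]
              exact hz1⟩
            map_add' := fun _ _ => rfl
            map_smul' := fun _ _ => rfl }
        refine LinearMap.finrank_le_finrank_of_injective (f := i) ?_
        intro a b hab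
        apply Subtype.ext
        apply Subtype.ext
        exact congrArg (fun z : Rel v => (z : ι → ℤ)) hab
      have h8 : Module.finrank ℤ (Rel x) = rk x := rfl
      have h9 : Module.finrank ℤ (Rel v) = rk v := rfl
      have h10 : Module.finrank ℤ (Rel (fun j => mon x (σ (Pi.single j 1)))) =
        rk (fun j => mon x (σ (Pi.single j 1))) := rfl
      omega
    obtain ⟨c, hc, hc1⟩ := hA1 K _ h1 (by omega)
    exact ⟨_, ⟨c, hc, rfl⟩, by rw [← hmon]; exact hc1⟩

/-- More relations. -/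
theorem rk_lt {Kv K : Type} [Field Kv] [Algebra ℂ Kv] [Field K] [Algebra ℂ K] {v : ι → Kvˣ}
    {x : ι → Kˣ} (h : Sp ℂ (cx v) (cx x)) {a : ι → ℤ} (ha : a ∉ Rel v) (hax : a ∈ Rel x) :
    rk v < rk x := by
  let Q := Rel x ⧸ (Rel v).submoduleOf (Rel x)
  have htf : Module.IsTorsionFree ℤ Q := by
    refine ⟨fun n hn => ?_⟩
    have hn0 : n ≠ 0 := hn.ne_zero
    intro a b hab
    simp only at hab
    obtain ⟨a, rfl⟩ := Submodule.Quotient.mk_surjective _ a
    obtain ⟨b, rfl⟩ := Submodule.Quotient.mk_surjective _ b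
    rw [← Submodule.Quotient.mk_smul, ← Submodule.Quotient.mk_smul, Submodule.Quotient.eq] at hab
    rw [Submodule.Quotient.eq]
    rw [← smul_sub] at hab
    exact Rel_sat hn0 hab
  have hnt : Nontrivial Q := by
    refine ⟨⟨Submodule.Quotient.mk ⟨a, hax⟩, 0, ?_⟩⟩
    intro h0
    rw [Submodule.Quotient.mk_eq_zero] at h0
    exact ha h0
  have hpos : 0 < Module.finrank ℤ Q := Module.finrank_pos
  have hr := Submodule.finrank_quotient_add_finrank ((Rel v).submoduleOf (Rel x))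
  rw [(Submodule.submoduleOfEquivOfLe h.rel).finrank_eq] at hr
  have h8 : Module.finrank ℤ (Rel x) = rk x := rfl
  have h9 : Module.finrank ℤ (Rel v) = rk v := rfl
  have h10 : Module.finrank ℤ (Rel x ⧸ (Rel v).submoduleOf (Rel x)) = Module.finrank ℤ Q := rfl
  omega

/-- **Finitely many minimal atypical ideals.** -/
theorem fin_min (h : ∀ n, ZC n) (d : ℕ) : ∀ (Kv : Type) [Field Kv] [Algebra ℂ Kv] (v : ι → Kvˣ),
    td ℂ (cx v) < d → ∃ S : Set (Ideal (MvPolynomial ι ℂ)), S.Finite ∧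
      (∀ p ∈ S, ∃ (K : Type) (_ : Field K) (_ : Algebra ℂ K) (y : ι → Kˣ), kr ℂ y = p ∧
        Sp ℂ (cx v) (cx y) ∧ td ℂ (cx v) + rk v < td ℂ (cx y) + rk y) ∧
      ∀ (K : Type) [Field K] [Algebra ℂ K] (x : ι → Kˣ), Sp ℂ (cx v) (cx x) →
        td ℂ (cx v) + rk v < td ℂ (cx x) + rk x → ∃ p ∈ S, p ≤ kr ℂ x := by
  classical
  induction d with
  | zero => intro Kv _ _ v hv; omega
  | succ d ih =>
    intro Kv _ _ v hv
    obtain ⟨A, hA, hA0, hA1⟩ := rel_form h v
    let PP : Set (Ideal (MvPolynomial ι ℂ)) := ⋃ a ∈ A,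
      {p | p ∈ (kr ℂ v ⊔ Ideal.span {bin ℂ a}).minimalPrimes ∧ ∀ i, X i ∉ p}
    have hPP : PP.Finite := hA.biUnion fun a _ =>
      ((kr ℂ v ⊔ Ideal.span {bin ℂ a}).finite_minimalPrimes_of_isNoetherianRing _).subset
        fun p hp => hp.1
    have hPP1 : ∀ p, p ∈ PP ↔ ∃ a ∈ A,
        p ∈ (kr ℂ v ⊔ Ideal.span {bin ℂ a}).minimalPrimes ∧ ∀ i, X i ∉ p := by
      intro p
      simp only [PP, Set.mem_iUnion, exists_prop]
      rfl
    have key : ∀ p ∈ PP, ∃ S : Set (Ideal (MvPolynomial ι ℂ)), S.Finite ∧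
      (∀ q ∈ S, ∃ (K : Type) (_ : Field K) (_ : Algebra ℂ K) (y : ι → Kˣ), kr ℂ y = q ∧
        Sp ℂ (cx v) (cx y) ∧ td ℂ (cx v) + rk v < td ℂ (cx y) + rk y) ∧
      ∀ (K : Type) [Field K] [Algebra ℂ K] (x : ι → Kˣ), p ≤ kr ℂ x →
        td ℂ (cx v) + rk v < td ℂ (cx x) + rk x → ∃ q ∈ S, q ≤ kr ℂ x := by
      intro p hp
      obtain ⟨a, haA, hpm, hpX⟩ := (hPP1 p).1 hp
      have hpp : p.IsPrime := hpm.1.1
      obtain ⟨Ky, i1, i2, y, hy⟩ := exists_pt hpp hpX
      have hvy : Sp ℂ (cx v) (cx y) := by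
        rw [sp_iff, hy]
        exact le_sup_left.trans hpm.1.2
      have hby : bin ℂ a ∈ kr ℂ y := by
        rw [hy]
        exact hpm.1.2 (Ideal.mem_sup_right (Ideal.mem_span_singleton_self _))
      have hay : mon y a = 1 := (aeval_bin y a).1 hby
      have hay' : a ∈ Rel y := ⟨1, one_pos, by rw [pow_one]; exact hay⟩
      have hrk : rk v < rk y := rk_lt hvy (hA0 a haA) hay'
      have hnsp : ¬ Sp ℂ (cx y) (cx v) := fun h1 => hA0 a haA (h1.rel hay')
      have htd : td ℂ (cx y) < td ℂ (cx v) := td_lt hvy hnsp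
      have htd1 : td ℂ (cx v) ≤ td ℂ (cx y) + 1 := by
        obtain ⟨F, j1, j2, y', hy1, hy2, hy3, hy4⟩ := cut_td hvy {bin ℂ a} (by
          intro f hf
          rw [Finset.mem_singleton] at hf
          rw [hf]
          exact hby)
        have h1 : Sp ℂ (cx y) y' := by
          have h2 : kr ℂ v ⊔ Ideal.span {bin ℂ a} ≤
              RingHom.ker (aeval y' : MvPolynomial ι ℂ →ₐ[ℂ] F) := by
            refine sup_le (fun f hf => hy1 f hf) ?_
            rw [Ideal.span_singleton_le_iff_mem]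
            exact hy3 _ (Finset.mem_singleton_self _)
          have h3 : RingHom.ker (aeval y' : MvPolynomial ι ℂ →ₐ[ℂ] F) ≤ p := by
            rw [← hy]
            exact fun f hf => hy2 f hf
          have h4 := hpm.2 ⟨RingHom.ker_isPrime _, h2⟩ h3
          rw [← hy] at h4
          exact fun f hf => h4 hf
        rw [td_eq_of_sp h1 hy2]
        rwa [Finset.card_singleton] at hy4
      by_cases hcase : td ℂ (cx v) + rk v < td ℂ (cx y) + rk y
      · refine ⟨{p}, Set.finite_singleton _, ?_, ?_⟩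
        · intro q hq
          rw [Set.mem_singleton_iff] at hq
          exact ⟨Ky, i1, i2, y, by rw [hq, hy], hvy, hcase⟩
        · intro K _ _ x hpx _
          exact ⟨p, rfl, hpx⟩
      · obtain ⟨S, hS, hS1, hS2⟩ := ih Ky y (by omega)
        refine ⟨S, hS, ?_, ?_⟩
        · intro q hq
          obtain ⟨K, j1, j2, z, hz1, hz2, hz3⟩ := hS1 q hq
          exact ⟨K, j1, j2, z, hz1, fun f hf => hz2 f (hvy f hf), by omega⟩
        · intro K _ _ x hpx hxd
          exact hS2 K x (by rw [sp_iff, hy]; exact hpx) (by omega)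
    choose! T hT hT1 hT2 using key
    refine ⟨⋃ p ∈ PP, T p, hPP.biUnion fun p hp => hT p hp, ?_, ?_⟩
    · intro q hq
      simp only [Set.mem_iUnion, exists_prop] at hq
      obtain ⟨p, hp, hq⟩ := hq
      exact hT1 p hp q hq
    · intro K _ _ x hx hxd
      obtain ⟨a, ha, hax⟩ := hA1 K x hx hxd
      have h1 : kr ℂ v ⊔ Ideal.span {bin ℂ a} ≤ kr ℂ x := by
        refine sup_le (sp_iff.1 hx) ?_
        rw [Ideal.span_singleton_le_iff_mem]
        exact (aeval_bin x a).2 hax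
      have hpx := kr_prime x
      obtain ⟨p, hp1, hp2⟩ := Ideal.exists_minimalPrimes_le h1
      have hp : p ∈ PP := (hPP1 p).2 ⟨a, ha, hp1, fun i hi => X_notMem_kr x i (hp2 hi)⟩
      obtain ⟨q, hq, hqx⟩ := hT2 p hp K x hp2 hxd
      refine ⟨q, ?_, hqx⟩
      simp only [Set.mem_iUnion, exists_prop]
      exact ⟨p, hp, hq⟩

/-- **Finitely many maximal atypical subvarieties.** -/
theorem finite_of_zilber (h : Zilber) {V : Set (ι → ℂ)} (hV : IsVar V) :
    {X | Maximal (Atypical V) X}.Finite := by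
  obtain ⟨Kv, i1, i2, v, rfl⟩ := exists_loc hV
  by_cases hrk : rk v = 0
  · obtain ⟨S, hS, hS1, hS2⟩ := fin_min (fun n => zc_of_zilber h n) (td ℂ (cx v) + 1) Kv v
      (Nat.lt_succ_self _)
    refine (hS.image ZZ).subset fun X hX => ?_
    obtain ⟨K, j1, j2, x, rfl, hx1, hx2⟩ := pt_of_atypical hX.1
    obtain ⟨p, hp, hpx⟩ := hS2 K x hx1 (by omega)
    obtain ⟨K', k1, k2, y, hy1, hy2, hy3⟩ := hS1 p hp
    obtain ⟨X', hX', hyX'⟩ := atypical_of_pt hy2 (by omega)
    have h1 : loc x ⊆ loc y := by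
      apply subset_of_idl (isVar_loc y).1 (isVar_loc x).1
      rw [idl_loc, idl_loc, hy1]
      exact hpx
    have h2 : X' ⊆ loc x := hX.2 hX' (h1.trans hyX')
    refine ⟨p, hp, ?_⟩
    rw [← hy1]
    exact le_antisymm (hyX'.trans h2) h1
  · obtain ⟨X', hX', hvX'⟩ := atypical_of_pt (v := v) (x := v) (fun f hf => hf) (by omega)
    refine (Set.finite_singleton (loc v)).subset fun X hX => ?_
    have h1 : X' ⊆ X := hX.2 hX' (hX.1.subset.trans hvX')
    exact le_antisymm hX.1.subset (hvX'.trans h1)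

end rel

end Pool.Agent.V7H32.CP
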