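import Pool.Agent.V7H32.CP.Sys

/-!
# Encoding of a polynomial equation by equations with three terms
-/

set_option autoImplicit false

namespace Pool.Agent.V7H32.CP

open MvPolynomial IntermediateField

section sums

variable {m : ℕ} {A : Type} [AddCommGroup A]

open Classical in
/-- partial sums -/
noncomputable def ps (f : Fin m → A) (k : Fin (m + 1)) : A := ∑ i, if i.castSucc < k then f i else 0

open Classical in
/-- remaining sums -/
noncomputable def rs (f : Fin m → A) (k : Fin (m + 1)) : A := ∑ i, if k ≤ i.castSucc then f i else 0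

theorem ps_zero (f : Fin m → A) : ps f 0 = 0 := by
  refine Finset.sum_eq_zero fun i _ => if_neg ?_
  simp

theorem ps_last (f : Fin m → A) : ps f (Fin.last m) = ∑ i, f i := by
  refine Finset.sum_congr rfl fun i _ => if_pos ?_
  exact Fin.castSucc_lt_last i

theorem ps_succ (f : Fin m → A) (k : Fin m) : ps f k.succ = ps f k.castSucc + f k := by
  classical
  have h : f k = ∑ i, if i = k then f i else 0 := by simp
  rw [ps, ps]
  conv_rhs => rw [h]
  rw [← Finset.sum_add_distrib]
  refine Finset.sum_congr rfl fun i _ => ?_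
  simp only [Fin.lt_def, Fin.val_castSucc, Fin.val_succ, Fin.ext_iff]
  by_cases h1 : (i : ℕ) < k
  · rw [if_pos (by omega), if_pos h1, if_neg (by omega), add_zero]
  · by_cases h2 : (i : ℕ) = k
    · rw [if_pos (by omega), if_neg h1, if_pos h2, zero_add]
    · rw [if_neg (by omega), if_neg h1, if_neg h2, zero_add]

theorem rs_zero (f : Fin m → A) : rs f 0 = ∑ i, f i := by
  refine Finset.sum_congr rfl fun i _ => if_pos ?_
  exact Fin.zero_le _

theorem rs_last (f : Fin m → A) : rs f (Fin.last m) = 0 := by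
  refine Finset.sum_eq_zero fun i _ => if_neg ?_
  rw [not_le]
  exact Fin.castSucc_lt_last i

theorem rs_castSucc (f : Fin m → A) (k : Fin m) : rs f k.castSucc = f k + rs f k.succ := by
  classical
  have h : f k = ∑ i, if i = k then f i else 0 := by simp
  rw [rs, rs]
  conv_rhs => rw [h]
  rw [← Finset.sum_add_distrib]
  refine Finset.sum_congr rfl fun i _ => ?_
  simp only [Fin.le_def, Fin.val_castSucc, Fin.val_succ, Fin.ext_iff]
  by_cases h1 : (k : ℕ) < i
  · rw [if_pos (by omega), if_neg (by omega), if_pos (by omega), zero_add]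
  · by_cases h2 : (i : ℕ) = k
    · rw [if_pos (by omega), if_pos h2, if_neg (by omega), add_zero]
    · rw [if_neg (by omega), if_neg h2, if_neg (by omega), zero_add]

theorem tele {m : ℕ} (f : Fin (m + 1) → A) (d : Fin m → A)
    (h : ∀ k : Fin m, f k.succ = f k.castSucc + d k) : f (Fin.last m) = f 0 + ∑ k, d k := by
  have h1 : ∀ k, f k = f 0 + ps d k := by
    intro k
    induction k using Fin.induction with
    | zero => rw [ps_zero, add_zero]
    | succ i hi => rw [h, hi, ps_succ, add_assoc]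
  rw [h1, ps_last]

theorem lt_inj {k k' : Fin (m + 1)} (h : ∀ i : Fin m, i.castSucc < k ↔ i.castSucc < k') :
    k = k' := by
  by_contra hne
  have hne' : (k : ℕ) ≠ k' := fun h => hne (Fin.ext h)
  rcases Nat.lt_or_gt_of_ne hne' with h1 | h1
  · have h2 := h ⟨k, by omega⟩
    simp only [Fin.lt_def, Fin.val_castSucc] at h2
    omega
  · have h2 := h ⟨k', by omega⟩
    simp only [Fin.lt_def, Fin.val_castSucc] at h2
    omega

theorem le_inj {k k' : Fin (m + 1)} (h : ∀ i : Fin m, k ≤ i.castSucc ↔ k' ≤ i.castSucc) :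
    k = k' :=
  lt_inj fun i => by rw [← not_le, ← not_le, h i]

end sums

/-- the new coordinates -/
abbrev Co (m : ℕ) : Type := (Fin (m + 1) ⊕ Fin m) ⊕ (Fin m ⊕ (Fin (m + 1) ⊕ Unit))

/-- the new equations -/
abbrev Eqs (m : ℕ) : Type := (Fin m ⊕ Fin m) ⊕ (Fin m ⊕ Fin 2)

section chain

variable {ι ρ : Type} [Fintype ι] [Fintype ρ] {m : ℕ}

abbrev cP (k : Fin (m + 1)) : Co m := Sum.inl (Sum.inl k)
abbrev cR (k : Fin m) : Co m := Sum.inl (Sum.inr k)
abbrev cZ (k : Fin m) : Co m := Sum.inr (Sum.inl k)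
abbrev cQ (k : Fin (m + 1)) : Co m := Sum.inr (Sum.inr (Sum.inl k))
abbrev cW : Co m := Sum.inr (Sum.inr (Sum.inr ()))

/-- the sign -/
def sn (b : Bool) : ℤ := if b then 1 else -1

/-- The extended system which encodes `∑ ε_k x ^ α_k = 0`. -/
noncomputable def eC (e : ρ → Fin 3 → ι → ℤ) (ε : Fin m → Bool) (α : Fin m → ι → ℤ) :
    ρ ⊕ Eqs m → Fin 3 → (ι ⊕ Co m) → ℤ :=
  Sum.elim (fun r s => ex _ (e r s)) (Sum.elim (Sum.elim
    (fun k => if ε k = true then ![sg (Sum.inr (cP k.castSucc)), ex _ (α k), sg (Sum.inr (cR k))]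
      else ![sg (Sum.inr (cR k)), ex _ (α k), sg (Sum.inr (cP k.castSucc))])
    (fun k => ![sg (Sum.inr (cR k)), sg (Sum.inr (cZ k)), sg (Sum.inr (cP k.succ))]))
    (Sum.elim (fun k => ![sg (Sum.inr (cZ k)), sg (Sum.inr (cQ k.succ)),
        sg (Sum.inr (cQ k.castSucc))])
      (fun b => if b = 0 then ![sg (Sum.inr (cP 0)), sg (Sum.inr (cQ 0)), sg (Sum.inr cW)]
        else ![sg (Sum.inr (cP (Fin.last m))), sg (Sum.inr (cQ (Fin.last m))),
          sg (Sum.inr cW)])))

variable {e : ρ → Fin 3 → ι → ℤ} {ε : Fin m → Bool} {α : Fin m → ι → ℤ}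

omit [Fintype ρ] in
theorem sol_eC_iff {K : Type} [Field K] {X : ι ⊕ Co m → Kˣ} :
    Sol3 (eC e ε α) X ↔ Sol3 e (fun i => X (Sum.inl i)) ∧
      (∀ k, (X (Sum.inr (cR k)) : K) = X (Sum.inr (cP k.castSucc)) +
        (sn (ε k) : K) * mon (fun i => X (Sum.inl i)) (α k)) ∧
      (∀ k, (X (Sum.inr (cP k.succ)) : K) = X (Sum.inr (cR k)) + X (Sum.inr (cZ k))) ∧
      (∀ k, (X (Sum.inr (cQ k.castSucc)) : K) = X (Sum.inr (cZ k)) + X (Sum.inr (cQ k.succ))) ∧
      (X (Sum.inr (cP 0)) : K) + X (Sum.inr (cQ 0)) = X (Sum.inr cW) ∧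
      (X (Sum.inr (cP (Fin.last m))) : K) + X (Sum.inr (cQ (Fin.last m))) = X (Sum.inr cW) := by
  constructor
  · intro h
    refine ⟨fun r => ?_, fun k => ?_, fun k => ?_, fun k => ?_, ?_, ?_⟩
    · have h1 := h (Sum.inl r)
      simp only [eC, Sum.elim_inl, mon_ex] at h1
      exact h1
    · have h1 := h (Sum.inr (Sum.inl (Sum.inl k)))
      simp only [eC, Sum.elim_inl, Sum.elim_inr] at h1
      by_cases hk : ε k = true
      · rw [if_pos hk] at h1
        simp only [Matrix.cons_val_zero, Matrix.cons_val_one, Matrix.cons_val_two,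
          Matrix.head_cons, Matrix.tail_cons, mon_sg, mon_ex] at h1
        rw [← h1, sn, if_pos hk, Int.cast_one, one_mul]
      · rw [if_neg hk] at h1
        simp only [Matrix.cons_val_zero, Matrix.cons_val_one, Matrix.cons_val_two,
          Matrix.head_cons, Matrix.tail_cons, mon_sg, mon_ex] at h1
        rw [← h1, sn, if_neg hk]
        push_cast
        ring
    · have h1 := h (Sum.inr (Sum.inl (Sum.inr k)))
      simp only [eC, Sum.elim_inl, Sum.elim_inr, Matrix.cons_val_zero, Matrix.cons_val_one,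
        Matrix.cons_val_two, Matrix.head_cons, Matrix.tail_cons, mon_sg] at h1
      exact h1.symm
    · have h1 := h (Sum.inr (Sum.inr (Sum.inl k)))
      simp only [eC, Sum.elim_inl, Sum.elim_inr, Matrix.cons_val_zero, Matrix.cons_val_one,
        Matrix.cons_val_two, Matrix.head_cons, Matrix.tail_cons, mon_sg] at h1
      exact h1.symm
    · have h1 := h (Sum.inr (Sum.inr (Sum.inr 0)))
      simp only [eC, Sum.elim_inr, if_true, Matrix.cons_val_zero, Matrix.cons_val_one,
        Matrix.cons_val_two, Matrix.head_cons, Matrix.tail_cons, mon_sg] at h1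
      exact h1
    · have h1 := h (Sum.inr (Sum.inr (Sum.inr 1)))
      simp only [eC, Sum.elim_inr, one_ne_zero, if_false, Matrix.cons_val_zero,
        Matrix.cons_val_one, Matrix.cons_val_two, Matrix.head_cons, Matrix.tail_cons,
        mon_sg] at h1
      exact h1
  · rintro ⟨h0, h1, h2, h3, h4, h5⟩
    rintro (r | ((k | k) | (k | b)))
    · simp only [eC, Sum.elim_inl, mon_ex]
      exact h0 r
    · simp only [eC, Sum.elim_inl, Sum.elim_inr]
      by_cases hk : ε k = true
      · rw [if_pos hk]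
        simp only [Matrix.cons_val_zero, Matrix.cons_val_one, Matrix.cons_val_two,
          Matrix.head_cons, Matrix.tail_cons, mon_sg, mon_ex]
        rw [h1, sn, if_pos hk, Int.cast_one, one_mul]
      · rw [if_neg hk]
        simp only [Matrix.cons_val_zero, Matrix.cons_val_one, Matrix.cons_val_two,
          Matrix.head_cons, Matrix.tail_cons, mon_sg, mon_ex]
        rw [h1, sn, if_neg hk]
        push_cast
        ring
    · simp only [eC, Sum.elim_inl, Sum.elim_inr, Matrix.cons_val_zero, Matrix.cons_val_one,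
        Matrix.cons_val_two, Matrix.head_cons, Matrix.tail_cons, mon_sg]
      exact (h2 k).symm
    · simp only [eC, Sum.elim_inl, Sum.elim_inr, Matrix.cons_val_zero, Matrix.cons_val_one,
        Matrix.cons_val_two, Matrix.head_cons, Matrix.tail_cons, mon_sg]
      exact (h3 k).symm
    · simp only [eC, Sum.elim_inr]
      by_cases hb : b = 0
      · rw [if_pos hb]
        simp only [Matrix.cons_val_zero, Matrix.cons_val_one, Matrix.cons_val_two,
          Matrix.head_cons, Matrix.tail_cons, mon_sg]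
        exact h4
      · rw [if_neg hb]
        simp only [Matrix.cons_val_zero, Matrix.cons_val_one, Matrix.cons_val_two,
          Matrix.head_cons, Matrix.tail_cons, mon_sg]
        exact h5

/-- The equation is a consequence. -/
theorem sum_eq_zero_of_sol {K : Type} [Field K] {X : ι ⊕ Co m → Kˣ} (h : Sol3 (eC e ε α) X) :
    ∑ k, (sn (ε k) : K) * mon (fun i => X (Sum.inl i)) (α k) = 0 := by
  obtain ⟨-, h1, h2, h3, h4, h5⟩ := sol_eC_iff.1 h
  have h6 := tele (fun k => (X (Sum.inr (cP k)) : K))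
    (fun k => (sn (ε k) : K) * mon (fun i => X (Sum.inl i)) (α k) + X (Sum.inr (cZ k)))
    (fun k => by simp only [h2 k, h1 k]; ring)
  have h7 := tele (fun k => (X (Sum.inr (cQ k)) : K)) (fun k => -(X (Sum.inr (cZ k)) : K))
    (fun k => by simp only [h3 k]; ring)
  rw [Finset.sum_add_distrib] at h6
  rw [Finset.sum_neg_distrib] at h7
  rw [h6, h7, ← h4] at h5
  linear_combination h5

theorem td_sol_le {K : Type} [Field K] [CharZero K] {X : ι ⊕ Co m → Kˣ}
    (h : Sol3 (eC e ε α) X) : td ℚ (cx X) ≤ td ℚ (cx fun i => X (Sum.inl i)) + (m + 2) := by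
  obtain ⟨-, h1, h2, h3, h4, h5⟩ := sol_eC_iff.1 h
  let v : Fin m ⊕ Fin 2 → K := Sum.elim (fun k => (X (Sum.inr (cZ k)) : K))
    ![(X (Sum.inr (cP 0)) : K), X (Sum.inr (cQ (Fin.last m)))]
  have h6 : td ℚ (Sum.elim (cx fun i => X (Sum.inl i)) v) ≤
      td ℚ (cx fun i => X (Sum.inl i)) + Fintype.card (Fin m ⊕ Fin 2) := td_elim_le _ _
  have h7 : Fintype.card (Fin m ⊕ Fin 2) = m + 2 := by simp
  rw [h7] at h6
  refine le_trans (td_mono ?_) h6
  set F := adjoin ℚ (Set.range (Sum.elim (cx fun i => X (Sum.inl i)) v)) with hF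
  have m0 : ∀ i, (X (Sum.inl i) : K) ∈ F := fun i => subset_adjoin _ _ ⟨Sum.inl i, rfl⟩
  have m0' : ∀ a, ((mon (fun i => X (Sum.inl i)) a : Kˣ) : K) ∈ F := by
    intro a
    have h8 := mon_mem (k := ℚ) (fun i => X (Sum.inl i)) a
    refine adjoin.mono _ _ _ ?_ h8
    rintro _ ⟨i, rfl⟩
    exact ⟨Sum.inl i, rfl⟩
  have m1 : ∀ k, (X (Sum.inr (cZ k)) : K) ∈ F := fun k => subset_adjoin _ _ ⟨Sum.inr (Sum.inl k), rfl⟩
  have m2 : (X (Sum.inr (cP 0)) : K) ∈ F := subset_adjoin _ _ ⟨Sum.inr (Sum.inr 0), rfl⟩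
  have m3 : (X (Sum.inr (cQ (Fin.last m))) : K) ∈ F :=
    subset_adjoin _ _ ⟨Sum.inr (Sum.inr 1), rfl⟩
  have m4 : ∀ k, (X (Sum.inr (cP k.castSucc)) : K) ∈ F → (X (Sum.inr (cR k)) : K) ∈ F := by
    intro k hk
    rw [h1 k]
    exact add_mem hk (mul_mem (intCast_mem _ _) (m0' _))
  have m5 : ∀ k, (X (Sum.inr (cP k)) : K) ∈ F := by
    intro k
    induction k using Fin.induction with
    | zero => exact m2
    | succ i hi =>
      rw [h2 i]
      exact add_mem (m4 i hi) (m1 i)
  have m6 : ∀ k, (X (Sum.inr (cQ k)) : K) ∈ F := by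
    intro k
    induction k using Fin.reverseInduction with
    | last => exact m3
    | cast i hi =>
      rw [h3 i]
      exact add_mem (m1 i) hi
  rintro (i | ((k | k) | (k | (k | b))))
  · exact m0 i
  · exact m5 k
  · exact m4 k (m5 _)
  · exact m1 k
  · exact m6 k
  · show (X (Sum.inr cW) : K) ∈ F
    rw [← h4]
    exact add_mem (m5 0) (m6 0)

/-- the variables that occur in a coordinate -/
def chi : Co m → Fin m ⊕ Fin 2 → Prop :=
  Sum.elim (Sum.elim (fun k => Sum.elim (fun i => i.castSucc < k) fun b => b = 0)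
    (fun k => Sum.elim (fun i => i.castSucc < k.castSucc) fun b => b = 0))
    (Sum.elim (fun k => Sum.elim (fun i => i = k) fun _ => False)
      (Sum.elim (fun k => Sum.elim (fun i => k ≤ i.castSucc) fun b => b = 1)
        (fun _ => Sum.elim (fun _ => True) fun _ => True)))

open Classical in
/-- the variables that occur in a coordinate -/
noncomputable def SS (j : Co m) : Finset (Fin m ⊕ Fin 2) := Finset.univ.filter (chi j)

theorem mem_SS {j : Co m} {v : Fin m ⊕ Fin 2} : v ∈ SS j ↔ chi j v := by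
  simp [SS]

/-- the constants -/
noncomputable def cc {K : Type} [Field K] (T : Fin m → K) : Co m → K :=
  Sum.elim (Sum.elim (fun k => ps T k) (fun k => ps T k.succ)) fun _ => 0

theorem SS_nonempty (j : Co m) : (SS j).Nonempty := by
  rcases j with (k | k) | (k | (k | b))
  · exact ⟨Sum.inr 0, mem_SS.2 rfl⟩
  · exact ⟨Sum.inr 0, mem_SS.2 rfl⟩
  · exact ⟨Sum.inl k, mem_SS.2 rfl⟩
  · exact ⟨Sum.inr 1, mem_SS.2 rfl⟩
  · exact ⟨Sum.inr 1, mem_SS.2 trivial⟩

theorem SS_inj {K : Type} [Field K] {T : Fin m → K} (hT : ∀ k, T k ≠ 0) :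
    Function.Injective fun j : Co m => (SS j, cc T j) := by
  intro j j' h
  simp only [Prod.mk.injEq] at h
  obtain ⟨h1, h2⟩ := h
  have h3 : ∀ v, chi j v ↔ chi j' v := by
    intro v
    rw [← mem_SS, ← mem_SS, h1]
  have hz := fun i => h3 (Sum.inl i)
  have h0 := h3 (Sum.inr 0)
  have h1' := h3 (Sum.inr 1)
  clear h3 h1
  rcases j with (k | k) | (k | (k | b)) <;> rcases j' with (k' | k') | (k' | (k' | b')) <;>
    simp only [chi, Sum.elim_inl, Sum.elim_inr, cc, iff_false, false_iff, iff_true, true_iff,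
      one_ne_zero, zero_ne_one, not_true, not_false_iff] at hz h0 h1' h2
  · rw [lt_inj hz]
  · have h4 := lt_inj hz
    subst h4
    rw [ps_succ] at h2
    exact absurd (left_eq_add.1 h2) (hT k')
  · have h4 := lt_inj hz
    subst h4
    rw [ps_succ] at h2
    exact absurd (left_eq_add.1 h2.symm) (hT k)
  · have h4 := lt_inj hz
    rw [Fin.castSucc_injective _ h4]
  · rw [(hz k).1 rfl]
  · rw [le_inj hz]
  · rfl

theorem sum_SS {L : Type} [AddCommGroup L] (t : Fin m ⊕ Fin 2 → L) :
    (∀ k, ∑ v ∈ SS (cP k), t v = ps (fun i => t (Sum.inl i)) k + t (Sum.inr 0)) ∧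
    (∀ k, ∑ v ∈ SS (cR k), t v = ps (fun i => t (Sum.inl i)) k.castSucc + t (Sum.inr 0)) ∧
    (∀ k, ∑ v ∈ SS (cZ k), t v = t (Sum.inl k)) ∧
    (∀ k, ∑ v ∈ SS (cQ k), t v = rs (fun i => t (Sum.inl i)) k + t (Sum.inr 1)) ∧
    (∑ v ∈ SS (cW : Co m), t v = ∑ i, t (Sum.inl i) + (t (Sum.inr 0) + t (Sum.inr 1))) := by
  classical
  have h : ∀ j : Co m, ∑ v ∈ SS j, t v = (∑ i, if chi j (Sum.inl i) then t (Sum.inl i) else 0) +
      ((if chi j (Sum.inr 0) then t (Sum.inr 0) else 0) +
        (if chi j (Sum.inr 1) then t (Sum.inr 1) else 0)) := by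
    intro j
    rw [SS, Finset.sum_filter, Fintype.sum_sum_type, Fin.sum_univ_two]
  refine ⟨fun k => ?_, fun k => ?_, fun k => ?_, fun k => ?_, ?_⟩
  · rw [h]
    simp only [chi, Sum.elim_inl, Sum.elim_inr, if_true, one_ne_zero, if_false, add_zero, ps]
    congr!
  · rw [h]
    simp only [chi, Sum.elim_inl, Sum.elim_inr, if_true, one_ne_zero, if_false, add_zero, ps]
    congr!
  · have e1 : SS (cZ k) = {Sum.inl k} := by
      ext w
      rw [mem_SS, Finset.mem_singleton]
      rcases w with i | b <;> simp [chi]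
    rw [e1, Finset.sum_singleton]
  · rw [h]
    simp only [chi, Sum.elim_inl, Sum.elim_inr, if_true, zero_ne_one, if_false, zero_add, rs]
    congr!
  · have e1 : SS (cW : Co m) = Finset.univ := by
      ext w
      rw [mem_SS]
      rcases w with i | b <;> simp [chi]
    rw [e1, Fintype.sum_sum_type, Fin.sum_univ_two]

/-- The extended point solves the extended system. -/
theorem sol_ext {K L : Type} [Field K] [Field L] [Algebra K L] {x : ι → Kˣ}
    (hx : Sol3 e x) (h0 : ∑ k, (sn (ε k) : K) * mon x (α k) = 0)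
    (t : Fin m ⊕ Fin 2 → L) (u : Co m → Lˣ)
    (hu : ∀ j, (u j : L) = ∑ v ∈ SS j, t v +
      algebraMap K L (cc (fun k => (sn (ε k) : K) * mon x (α k)) j)) :
    Sol3 (eC e ε α) (Sum.elim (up L x) u) := by
  obtain ⟨s1, s2, s3, s4, s5⟩ := sum_SS t
  set T : Fin m → K := fun k => (sn (ε k) : K) * mon x (α k) with hT
  set tz : Fin m → L := fun i => t (Sum.inl i) with htz
  have hT' : ∀ k, algebraMap K L (T k) = (sn (ε k) : L) * ((mon (up L x) (α k) : Lˣ) : L) := by
    intro k
    rw [hT, mon_up]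
    simp
  have u1 : ∀ k, (u (cP k) : L) = ps tz k + t (Sum.inr 0) + algebraMap K L (ps T k) := by
    intro k; rw [hu, s1]; rfl
  have u2 : ∀ k, (u (cR k) : L) = ps tz k.castSucc + t (Sum.inr 0) +
      algebraMap K L (ps T k.succ) := by
    intro k; rw [hu, s2]; rfl
  have u3 : ∀ k, (u (cZ k) : L) = tz k := by
    intro k; rw [hu, s3]; simp [cc, tz]
  have u4 : ∀ k, (u (cQ k) : L) = rs tz k + t (Sum.inr 1) := by
    intro k; rw [hu, s4]; simp [cc]
  have u5 : (u cW : L) = ∑ i, tz i + (t (Sum.inr 0) + t (Sum.inr 1)) := by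
    rw [hu, s5]; simp [cc, tz]
  rw [sol_eC_iff]
  simp only [Sum.elim_inl, Sum.elim_inr]
  refine ⟨fun r => ?_, fun k => ?_, fun k => ?_, fun k => ?_, ?_, ?_⟩
  · have h1 : (fun i => up L x i) = up L x := rfl
    rw [h1, mon_up, mon_up, mon_up]
    simp only [Units.coe_map]
    have := congrArg (algebraMap K L) (hx r)
    rw [map_add] at this
    exact this
  · rw [u1, u2, ps_succ T, map_add, hT']
    have h1 : (fun i => up L x i) = up L x := rfl
    rw [h1]
    ring
  · rw [u1, u2, u3, ps_succ tz]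
    ring
  · rw [u4, u3, u4, rs_castSucc]
    ring
  · rw [u1, u4, u5, ps_zero, ps_zero, rs_zero, map_zero]
    ring
  · rw [u1, u4, u5, ps_last, ps_last, rs_last, h0, map_zero]
    ring

end chain

/-- A polynomial with integer coefficients is a sum of signed monomials. -/
theorem terms {ι : Type} [Fintype ι] (g : MvPolynomial ι ℤ) : ∃ (m : ℕ) (ε : Fin m → Bool)
    (α : Fin m → ι → ℤ), ∀ (K : Type) [Field K] (x : ι → Kˣ),
      aeval (cx x) g = ∑ k, (sn (ε k) : K) * mon x (α k) := by
  classical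
  have key : ∃ l : List (Bool × (ι → ℤ)), ∀ (K : Type) [Field K] (x : ι → Kˣ),
      aeval (cx x) g = (l.map fun t => (sn t.1 : K) * mon x t.2).sum := by
    induction g using MvPolynomial.induction_on with
    | C a =>
      induction a using Int.induction_on with
      | zero => exact ⟨[], fun K _ x => by simp⟩
      | succ n ih =>
        obtain ⟨l, hl⟩ := ih
        refine ⟨(true, 0) :: l, fun K _ x => ?_⟩
        rw [List.map_cons, List.sum_cons, ← hl K x]
        simp [sn, add_comm]
      | pred n ih =>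
        obtain ⟨l, hl⟩ := ih
        refine ⟨(false, 0) :: l, fun K _ x => ?_⟩
        rw [List.map_cons, List.sum_cons, ← hl K x]
        simp [sn]
        ring
    | add p q hp hq =>
      obtain ⟨l, hl⟩ := hp
      obtain ⟨l', hl'⟩ := hq
      refine ⟨l ++ l', fun K _ x => ?_⟩
      rw [map_add, hl K x, hl' K x, List.map_append, List.sum_append]
    | mul_X p i hp =>
      obtain ⟨l, hl⟩ := hp
      refine ⟨l.map fun t => (t.1, t.2 + Pi.single i 1), fun K _ x => ?_⟩
      rw [map_mul, hl K x, aeval_X, List.map_map, ← List.sum_map_mul_right]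
      congr 1
      refine List.map_congr_left fun t _ => ?_
      simp only [Function.comp_apply, mon_add, mon_single, Units.val_mul, cx_apply]
      ring
  obtain ⟨l, hl⟩ := key
  refine ⟨l.length, fun k => l[k.1].1, fun k => l[k.1].2, fun K _ x => ?_⟩
  rw [hl K x]
  exact (Fin.sum_univ_fun_getElem l fun t => (sn t.1 : K) * mon x t.2).symm

/-- **Systems of equations.** -/
theorem zp_sys (hMF : ∀ (ρ : Type) [Fintype ρ], MF ρ) (n : ℕ) : ∀ (ι ρ : Type) [Fintype ι]
    [Fintype ρ] (e : ρ → Fin 3 → ι → ℤ) (G : List (MvPolynomial ι ℤ)), G.length = n → Bd e G →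
    ZP (fun K _ (x : ι → Kˣ) => Sol e G x) (Fintype.card ι - Fintype.card ρ - G.length) := by
  induction n with
  | zero =>
    intro ι ρ _ _ e G hG hbd
    have hG' : G = [] := List.length_eq_zero_iff.1 hG
    subst hG'
    obtain ⟨A, hA, hA0, hA1⟩ := base5 hMF e (fun K _ _ x hx => by
      have := hbd K x ⟨hx, by simp⟩
      simpa using this)
    exact ⟨A, hA, hA0, fun K _ _ x hx hδ => hA1 K x hx.1 (by simpa using hδ)⟩
  | succ n ih =>
    intro ι ρ _ _ e G hG hbd
    obtain ⟨g, G', rfl⟩ : ∃ g G', G = g :: G' := by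
      cases G with
      | nil => simp at hG
      | cons g G' => exact ⟨g, G', rfl⟩
    obtain ⟨m, ε, α, hg⟩ := terms g
    have hG'n : G'.length = n := by simpa using hG
    have hcι : Fintype.card (ι ⊕ Co m) = Fintype.card ι + (4 * m + 3) := by
      simp only [Fintype.card_sum, Fintype.card_fin, Fintype.card_unit]
      ring
    have hcρ : Fintype.card (ρ ⊕ Eqs m) = Fintype.card ρ + (3 * m + 2) := by
      simp only [Fintype.card_sum, Fintype.card_fin]
      ring
    have hren : ∀ (K : Type) [Field K] (X : ι ⊕ Co m → Kˣ) (g : MvPolynomial ι ℤ),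
        aeval (cx X) (rename Sum.inl g) = aeval (cx fun i => X (Sum.inl i)) g := by
      intro K _ X g
      rw [aeval_rename]
      rfl
    have hbd' : Bd (eC e ε α) (G'.map (rename Sum.inl)) := by
      intro K _ _ X hX
      have h1 := hbd K (fun i => X (Sum.inl i)) ⟨(sol_eC_iff.1 hX.1).1, by
        intro g' hg'
        rcases List.mem_cons.1 hg' with rfl | hg'
        · rw [hg, sum_eq_zero_of_sol hX.1]
        · rw [← hren]
          exact hX.2 _ (List.mem_map_of_mem hg')⟩
      have h2 := td_sol_le hX.1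
      rw [hcι, hcρ, List.length_map]
      rw [List.length_cons] at h1
      omega
    have h1 := ih (ι ⊕ Co m) (ρ ⊕ Eqs m) (eC e ε α) (G'.map (rename Sum.inl))
      (by rw [List.length_map, hG'n]) hbd'
    -- the numbers
    refine ZP_ext (J := Co m) (V := Fin m ⊕ Fin 2) _
      (fun K _ (X : ι ⊕ Co m → Kˣ) => Sol (eC e ε α) (G'.map (rename Sum.inl)) X)
      SS SS_nonempty _ ?_ ?_
    · intro K _ _ x hx
      have hT : ∀ k, (sn (ε k) : K) * mon x (α k) ≠ 0 := by
        intro k
        refine mul_ne_zero ?_ (Units.ne_zero _)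
        unfold sn
        split_ifs <;> simp
      have h0 : ∑ k, (sn (ε k) : K) * mon x (α k) = 0 := by
        rw [← hg]
        exact hx.2 g List.mem_cons_self
      refine ⟨cc fun k => (sn (ε k) : K) * mon x (α k), SS_inj hT, ?_, ?_⟩
      · intro v
        rcases v with k | b
        · refine ⟨cZ k, ?_, rfl⟩
          ext w
          rw [mem_SS, Finset.mem_singleton]
          rcases w with i | b <;> simp [chi]
        · fin_cases b
          · refine ⟨cP 0, ?_, ps_zero _⟩
            ext w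
            rw [mem_SS, Finset.mem_singleton]
            rcases w with i | b <;> simp [chi]
          · refine ⟨cQ (Fin.last m), ?_, rfl⟩
            ext w
            rw [mem_SS, Finset.mem_singleton]
            rcases w with i | b <;> simp [chi, Fin.castSucc_lt_last]
      · intro L _ _ t u hu
        refine ⟨sol_ext hx.1 h0 t u hu, ?_⟩
        intro g' hg'
        obtain ⟨g'', hg'', rfl⟩ := List.mem_map.1 hg'
        rw [hren]
        have h2 : (cx fun i => Sum.elim (up L x) u (Sum.inl i)) =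
            fun i => algebraMap K L (cx x i) := rfl
        rw [h2]
        have h3 := congrArg (algebraMap K L) (hx.2 g'' (List.mem_cons_of_mem _ hg''))
        rw [map_zero] at h3
        rw [← h3]
        exact MvPolynomial.aeval_algebraMap_apply L (cx x) g''
    · obtain ⟨A, hA, hA0, hA1⟩ := h1
      refine ⟨A, hA, hA0, fun K _ _ x hx hδ => hA1 K x hx ?_⟩
      have h7 : Fintype.card (Fin m ⊕ Fin 2) = m + 2 := by simp
      rw [hcι, hcρ, List.length_map]
      rw [List.length_cons, h7] at hδ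
      omega

end Pool.Agent.V7H32.CP
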