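import Pool.Agent.V7H32.CP.Mono

/-!
# The union of the atypical subvarieties

It is closed if and only if there are finitely many maximal atypical subvarieties.
-/

set_option autoImplicit false

namespace Pool.Agent.V7H32.CP

open MvPolynomial IntermediateField

theorem sp_alg {k J S M N : Type} [Field k] [Field S] [Field M] [Field N] [Algebra k S]
    [Algebra k M] [Algebra k N] (g : S →ₐ[k] M) (g' : S →ₐ[k] N) (s : J → S) :
    Sp k (fun i => g (s i)) (fun i => g' (s i)) := by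
  intro f hf
  have h1 : aeval (fun i => g (s i)) f = g (aeval s f) := by
    have h2 : (aeval (fun i => g (s i)) : MvPolynomial J k →ₐ[k] M) = g.comp (aeval s) := by
      ext i
      simp
    rw [h2]
    rfl
  have h1' : aeval (fun i => g' (s i)) f = g' (aeval s f) := by
    have h2 : (aeval (fun i => g' (s i)) : MvPolynomial J k →ₐ[k] N) = g'.comp (aeval s) := by
      ext i
      simp
    rw [h2]
    rfl
  rw [h1] at hf
  rw [h1', (map_eq_zero g).1 hf, map_zero]

theorem repr_alg {k B K L : Type} [Field k] [Field K] [Field L] [Algebra k K] [Algebra k L]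
    {x : B → K} (hx : AlgebraicIndependent k x) {t : B → L} (ht : AlgebraicIndependent k t) :
    ∃ j : adjoin k (Set.range x) →ₐ[k] L, ∀ b, j ⟨x b, subset_adjoin _ _ ⟨b, rfl⟩⟩ = t b := by
  refine ⟨(adjoin k (Set.range t)).val.comp
    (hx.aevalEquivField.symm.trans ht.aevalEquivField).toAlgHom, fun b => ?_⟩
  have h1 : hx.aevalEquivField (algebraMap (MvPolynomial B k) (FractionRing (MvPolynomial B k))
      (X b)) = ⟨x b, subset_adjoin _ _ ⟨b, rfl⟩⟩ := by
    apply Subtype.ext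
    rw [hx.aevalEquivField_algebraMap_apply_coe, aeval_X]
  rw [← h1]
  show ((ht.aevalEquivField (hx.aevalEquivField.symm (hx.aevalEquivField _)) :
    adjoin k (Set.range t)) : L) = t b
  rw [AlgEquiv.symm_apply_apply, ht.aevalEquivField_algebraMap_apply_coe, aeval_X]

/-- Points over a countable field are complex points. -/
theorem embed_pt {k : Type} [Field k] [Algebra k ℂ] (hk : Cardinal.mk k ≤ Cardinal.aleph0)
    {J : Type} [Fintype J] {K : Type} [Field K] [Algebra k K] (x : J → Kˣ) :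
    ∃ y : J → ℂˣ, Sp k (cx x) (cx y) ∧ Sp k (cx y) (cx x) := by
  classical
  obtain ⟨B, hB1, hB3, hB2⟩ := exists_basis k (cx x)
  have hBfin : Finite B := by infer_instance
  obtain ⟨β, b, hb⟩ := exists_isTranscendenceBasis' k ℂ
  have hC : Cardinal.aleph0 < Cardinal.mk ℂ := by
    rw [Cardinal.mk_complex]
    exact Cardinal.aleph0_lt_continuum
  have hβ : Cardinal.mk ℂ = Cardinal.mk β :=
    IsAlgClosed.cardinal_eq_cardinal_transcendence_basis_of_aleph0_lt' b hb hk hC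
  have hβinf : Infinite β := by
    rw [Cardinal.infinite_iff, ← hβ]
    exact hC.le
  obtain ⟨φ⟩ : Nonempty (B ↪ β) := ⟨(Finite.equivFin B).toEmbedding.trans
    ((Fin.valEmbedding).trans (Infinite.natEmbedding β))⟩
  have ht : AlgebraicIndependent k fun i => b (φ i) := hb.1.comp φ φ.injective
  let F := adjoin k (Set.range fun i : B => cx x i)
  obtain ⟨j, hj⟩ : ∃ j : F →ₐ[k] ℂ, ∀ i : B, j ⟨cx x i, subset_adjoin _ _ ⟨i, rfl⟩⟩ = b (φ i) :=
    repr_alg hB1 ht
  let _ : Algebra F ℂ := j.toRingHom.toAlgebra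
  have tow : IsScalarTower k F ℂ := IsScalarTower.of_algebraMap_eq fun c => (j.commutes c).symm
  let S := adjoin F (Set.range (cx x))
  have hS : Algebra.IsAlgebraic F S := by
    apply IntermediateField.isAlgebraic_adjoin
    rintro _ ⟨i, rfl⟩
    exact (hB3 i).isIntegral
  let Λ : S →ₐ[F] ℂ := IsAlgClosed.lift
  let xS : J → S := fun i => ⟨cx x i, subset_adjoin _ _ ⟨i, rfl⟩⟩
  have hxS0 : ∀ i, xS i ≠ 0 := by
    intro i h0
    have h1 := congrArg (fun z : S => (z : K)) h0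
    exact (x i).ne_zero h1
  have hx0 : ∀ i, Λ (xS i) ≠ 0 := fun i h0 => hxS0 i ((map_eq_zero Λ).1 h0)
  have tow2 : IsScalarTower k S K := IsScalarTower.of_algebraMap_eq fun c => rfl
  have h1 : cx x = fun i => (IsScalarTower.toAlgHom k S K) (xS i) := rfl
  refine ⟨fun i => Units.mk0 (Λ (xS i)) (hx0 i), ?_, ?_⟩
  · rw [h1]
    exact sp_alg (IsScalarTower.toAlgHom k S K) (Λ.restrictScalars k) xS
  · rw [h1]
    exact sp_alg (Λ.restrictScalars k) (IsScalarTower.toAlgHom k S K) xS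

section closed

variable {ι : Type} [Fintype ι]

/-- Points which avoid countably many hypersurfaces. -/
theorem exists_generic {K : Type} [Field K] [Algebra ℂ K] (x : ι → Kˣ)
    (F : Set (MvPolynomial ι ℂ)) (hF : F.Countable) (hF' : ∀ f ∈ F, f ∉ kr ℂ x) :
    ∃ y ∈ loc x, ∀ f ∈ F, eval y f ≠ 0 := by
  classical
  obtain ⟨G, hG⟩ : (kr ℂ x).FG := IsNoetherian.noetherian _
  let C0 : Set ℂ := ⋃ f ∈ F ∪ (G : Set (MvPolynomial ι ℂ)), (f.coeffs : Set ℂ)
  have hC0 : C0.Countable := (hF.union G.finite_toSet.countable).biUnion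
    fun f _ => f.coeffs.finite_toSet.countable
  let k := Subfield.closure C0
  have hk : Cardinal.mk k ≤ Cardinal.aleph0 := by
    refine (Subfield.cardinalMk_closure_le_max C0).trans (max_le ?_ le_rfl)
    exact Cardinal.le_aleph0_iff_set_countable.2 hC0
  have hco : ∀ f ∈ F ∪ (G : Set (MvPolynomial ι ℂ)), ∃ g : MvPolynomial ι k,
      map (algebraMap k ℂ) g = f := by
    intro f hf
    have h1 : (f.coeffs : Set ℂ) ⊆ Set.range (algebraMap k ℂ) := by
      intro c hc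
      exact ⟨⟨c, Subfield.subset_closure (Set.mem_biUnion hf hc)⟩, rfl⟩
    exact mem_range_map_iff_coeffs_subset.2 h1
  obtain ⟨y, hy1, hy2⟩ := embed_pt hk x
  have hev : ∀ {M : Type} [Field M] [Algebra ℂ M] (z : ι → M) (g : MvPolynomial ι k),
      aeval z (map (algebraMap k ℂ) g) = aeval z g := by
    intro M _ _ z g
    rw [aeval_def, eval₂_map, aeval_def]
    rfl
  refine ⟨cx y, ⟨fun i => (y i).ne_zero, ?_⟩, ?_⟩
  · intro f hf
    rw [← hG] at hf
    have h1 : Ideal.span (G : Set (MvPolynomial ι ℂ)) ≤ RingHom.ker (eval (cx y)) := by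
      rw [Ideal.span_le]
      intro f hf
      obtain ⟨g, rfl⟩ := hco f (Or.inr hf)
      show eval (cx y) _ = 0
      have h2 : map (algebraMap k ℂ) g ∈ kr ℂ x := by
        rw [← hG]
        exact Ideal.subset_span hf
      rw [mem_kr, hev] at h2
      rw [← aeval_eq_eval, hev]
      exact hy1 g h2
    exact h1 hf
  · intro f hf h0
    obtain ⟨g, rfl⟩ := hco f (Or.inl hf)
    rw [← aeval_eq_eval, hev] at h0
    apply hF' _ hf
    rw [mem_kr, hev]
    exact hy2 g h0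

theorem component_finite {W : Set (ι → ℂ)} (hW : IsClosedIn W) :
    {Y | IsComponent Y W}.Finite := by
  refine (((idl W).finite_minimalPrimes_of_isNoetherianRing _).image ZZ).subset fun Y hY => ?_
  obtain ⟨hY1, hY2, hY3⟩ := hY
  refine ⟨idl Y, ⟨⟨hY1.2, idl_anti hY2⟩, ?_⟩, ZZ_idl hY1.1⟩
  rintro q ⟨hq1, hq2⟩ hqY
  have h0 : ∀ x ∈ Y, ∀ i, x i ≠ 0 := by
    intro x hx
    obtain ⟨S, hS⟩ := hY1.1
    rw [hS] at hx
    exact hx.1
  have hqX : ∀ i, X i ∉ q := fun i hi => X_notMem h0 hY1.2 i (hqY hi)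
  have h1 : idl (ZZ q) = q := idl_ZZ hq1 hqX
  have h2 := hY3 (ZZ q) ⟨isClosedIn_ZZ q, by rw [h1]; exact hq1⟩
    (subset_of_idl (isClosedIn_ZZ q) hY1.1 (by rw [h1]; exact hqY))
    (subset_of_idl hW (isClosedIn_ZZ q) (by rw [h1]; exact hq2))
  rw [← h2, h1]

theorem special_closed {T : Set (ι → ℂ)} (hT : IsSpecial T) : IsClosedIn T := by
  obtain ⟨M, η, hM, ⟨m, hm, hη⟩, rfl⟩ := hT
  have hη0 : ∀ i, η i ≠ 0 := by
    intro i h0
    have h1 := hη i
    rw [h0, zero_pow hm.ne'] at h1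
    exact zero_ne_one h1
  obtain ⟨KT, j1, j2, t, ht1, ht2⟩ := special_pt M hM (toU η hη0)
  rw [cx_toU] at ht1
  rw [ht1]
  exact (isVar_loc t).1

theorem special_countable : {T : Set (ι → ℂ) | IsSpecial T}.Countable := by
  have h1 : Countable (Submodule ℤ (ι → ℤ)) := by
    have : Function.Surjective fun s : Finset (ι → ℤ) =>
        Submodule.span ℤ (s : Set (ι → ℤ)) := fun M => by
      obtain ⟨G, hG⟩ : M.FG := IsNoetherian.noetherian M
      exact ⟨G, hG⟩
    exact this.countable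
  have h2 : {η : ι → ℂ | ∃ m : ℕ, 0 < m ∧ ∀ i, η i ^ m = 1}.Countable := by
    have h3 : {η : ι → ℂ | ∃ m : ℕ, 0 < m ∧ ∀ i, η i ^ m = 1} ⊆
        ⋃ m : ℕ, Set.pi Set.univ fun _ : ι => {z : ℂ | 0 < m ∧ z ^ m = 1} := by
      rintro η ⟨m, hm, h⟩
      exact Set.mem_iUnion.2 ⟨m, fun i _ => ⟨hm, h i⟩⟩
    refine (Set.countable_iUnion fun m => Set.Finite.countable (Set.Finite.pi fun _ => ?_)).mono h3
    rcases Nat.eq_zero_or_pos m with rfl | hm
    · exact Set.finite_empty.subset fun z hz => (lt_irrefl _ hz.1).elim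
    · exact (roots_finite hm).subset fun z hz => hz.2
  refine ((Set.countable_univ (α := Submodule ℤ (ι → ℤ))).prod h2 |>.image
    fun p => coset p.1 p.2).mono ?_
  rintro T ⟨M, η, -, hη, rfl⟩
  exact ⟨(M, η), ⟨Set.mem_univ _, hη⟩, rfl⟩

theorem atypical_countable {V : Set (ι → ℂ)} (hV : IsClosedIn V) :
    {Y | Atypical V Y}.Countable := by
  refine (special_countable.biUnion fun T hT =>
    (component_finite (hV.inter (special_closed hT))).countable).mono ?_
  rintro Y ⟨T, hT, hY, -⟩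
  exact Set.mem_biUnion hT hY

theorem finite_of_closed {V : Set (ι → ℂ)} (hV : IsClosedIn V)
    (h : IsClosedIn (⋃₀ {Y | Atypical V Y})) : {X | Maximal (Atypical V) X}.Finite := by
  classical
  set W := ⋃₀ {Y | Atypical V Y} with hW
  refine (((idl W).finite_minimalPrimes_of_isNoetherianRing _).image ZZ).subset fun X hX => ?_
  obtain ⟨T, -, ⟨hXv, -, -⟩, -⟩ := id hX.1
  have hXW : X ⊆ W := Set.subset_sUnion_of_mem hX.1
  have hXp := hXv.2
  obtain ⟨p, hp1, hp2⟩ := Ideal.exists_minimalPrimes_le (idl_anti hXW)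
  have hpp : p.IsPrime := hp1.1.1
  have h0 : ∀ x ∈ X, ∀ i, x i ≠ 0 := by
    intro x hx
    obtain ⟨S, hS⟩ := hXv.1
    rw [hS] at hx
    exact hx.1
  have hpX : ∀ i, MvPolynomial.X i ∉ p := fun i hi => X_notMem h0 hXp i (hp2 hi)
  obtain ⟨K, i1, i2, z, hz⟩ := exists_pt hpp hpX
  have hzW : loc z ⊆ W := by
    apply subset_of_idl h (isVar_loc z).1
    rw [idl_loc, hz]
    exact hp1.1.2
  have hXz : X ⊆ loc z := by
    apply subset_of_idl (isVar_loc z).1 hXv.1
    rw [idl_loc, hz]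
    exact hp2
  have key : ∃ Y, Atypical V Y ∧ loc z ⊆ Y := by
    by_contra hcon
    push Not at hcon
    have h1 : ∀ Y : Set (ι → ℂ), Atypical V Y → ∃ f ∈ idl Y, f ∉ kr ℂ z := by
      intro Y hY
      obtain ⟨T', -, ⟨hYv, -, -⟩, -⟩ := id hY
      have h2 : ¬ idl Y ≤ kr ℂ z := by
        intro h3
        apply hcon Y hY
        apply subset_of_idl hYv.1 (isVar_loc z).1
        rw [idl_loc]
        exact h3
      exact Set.not_subset.1 h2
    choose! f hf1 hf2 using h1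
    obtain ⟨y, hy, hy1⟩ := exists_generic z (f '' {Y | Atypical V Y})
      ((atypical_countable hV).image f) (by
        rintro _ ⟨Y, hY, rfl⟩
        exact hf2 Y hY)
    obtain ⟨Y, hY, hyY⟩ := hzW hy
    exact hy1 _ ⟨Y, hY, rfl⟩ (mem_idl.1 (hf1 Y hY) y hyY)
  obtain ⟨Y, hY, hzY⟩ := key
  have h1 : Y ⊆ X := hX.2 hY (hXz.trans hzY)
  have h2 : X = loc z := le_antisymm hXz (hzY.trans h1)
  refine ⟨p, hp1, ?_⟩
  rw [h2, loc, hz]

omit [Fintype ι] in
theorem IsClosedIn.union {V W : Set (ι → ℂ)} (hV : IsClosedIn V) (hW : IsClosedIn W) :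
    IsClosedIn (V ∪ W) := by
  obtain ⟨S, rfl⟩ := hV
  obtain ⟨S', rfl⟩ := hW
  refine ⟨{f | ∃ p ∈ S, ∃ q ∈ S', f = p * q}, ?_⟩
  ext x
  constructor
  · rintro (⟨h1, h2⟩ | ⟨h1, h2⟩)
    · refine ⟨h1, ?_⟩
      rintro _ ⟨p, hp, q, hq, rfl⟩
      rw [map_mul, h2 p hp, zero_mul]
    · refine ⟨h1, ?_⟩
      rintro _ ⟨p, hp, q, hq, rfl⟩
      rw [map_mul, h2 q hq, mul_zero]
  · rintro ⟨h1, h2⟩
    by_cases h3 : ∀ p ∈ S, eval x p = 0
    · exact Or.inl ⟨h1, h3⟩
    · push Not at h3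
      obtain ⟨p, hp, hp0⟩ := h3
      refine Or.inr ⟨h1, fun q hq => ?_⟩
      have h4 := h2 (p * q) ⟨p, hp, q, hq, rfl⟩
      rw [map_mul] at h4
      exact (mul_eq_zero.1 h4).resolve_left hp0

omit [Fintype ι] in
theorem isClosedIn_sUnion {S : Set (Set (ι → ℂ))} (hS : S.Finite)
    (h : ∀ V ∈ S, IsClosedIn V) : IsClosedIn (⋃₀ S) := by
  induction S, hS using Set.Finite.induction_on with
  | empty =>
    refine ⟨{1}, ?_⟩
    ext x
    simp
  | insert _ _ ih =>
    rw [Set.sUnion_insert]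
    exact (h _ (Set.mem_insert _ _)).union (ih fun V hV => h V (Set.mem_insert_of_mem _ hV))

theorem closed_of_finite {V : Set (ι → ℂ)} (h : {X | Maximal (Atypical V) X}.Finite) :
    IsClosedIn (⋃₀ {Y | Atypical V Y}) := by
  have h1 : ⋃₀ {Y | Atypical V Y} = ⋃₀ {X | Maximal (Atypical V) X} := by
    apply le_antisymm
    · rintro y ⟨Y, hY, hy⟩
      obtain ⟨X, hX1, hX2⟩ := exists_maximal hY
      exact ⟨X, hX1, hX2 hy⟩
    · rintro y ⟨Y, hY, hy⟩
      exact ⟨Y, hY.1, hy⟩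
  rw [h1]
  refine isClosedIn_sUnion h fun X hX => ?_
  obtain ⟨T, -, ⟨hXv, -, -⟩, -⟩ := id hX.1
  exact hXv.1

end closed

/-- **The main theorem.** -/
theorem main : List.TFAE [Zilber,
    ∀ (ι : Type) [Fintype ι] (V : Set (ι → ℂ)), IsVar V → {X | Maximal (Atypical V) X}.Finite,
    ∀ (ι : Type) [Fintype ι] (V : Set (ι → ℂ)), IsVar V → IsClosedIn (⋃₀ {X | Atypical V X}),
    ∀ r : ℕ, {X | Maximal (Atypical (line r)) X}.Finite,
    ∀ r : ℕ, IsClosedIn (⋃₀ {X | Atypical (line r) X}),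
    ∀ N : ℕ, ∃ r ≥ N, {X | Maximal (Atypical (line r)) X}.Finite,
    ∀ N : ℕ, ∃ r ≥ N, IsClosedIn (⋃₀ {X | Atypical (line r) X})] := by
  have hline : ∀ r, IsVar (line r) := by
    intro r
    obtain ⟨K, i1, i2, u, hu, -⟩ := line_pt r
    rw [hu]
    exact isVar_loc u
  tfae_have 1 → 2 := fun h ι _ V hV => finite_of_zilber h hV
  tfae_have 2 → 3 := fun h ι _ V hV => closed_of_finite (h ι V hV)
  tfae_have 3 → 5 := fun h r => h _ (line r) (hline r)
  tfae_have 5 → 7 := fun h N => ⟨N, le_rfl, h N⟩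
  tfae_have 7 → 6 := fun h N => by
    obtain ⟨r, hr, h1⟩ := h N
    exact ⟨r, hr, finite_of_closed (hline r).1 h1⟩
  tfae_have 6 → 1 := fun h => zilber_of_MF (MF_all fun N => by
    obtain ⟨r, hr, h1⟩ := h N
    exact ⟨r, hr, MF_of_geo r h1⟩)
  tfae_have 2 → 4 := fun h r => h _ (line r) (hline r)
  tfae_have 4 → 6 := fun h N => ⟨N, le_rfl, h N⟩
  tfae_finish

end Pool.Agent.V7H32.CP
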