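import Mathlib

/-!
# Subvarieties of the complex torus and their atypical subvarieties

The definitions of the problem, for the torus `(ℂ^×)^ι` with a finite index set `ι`.
-/

set_option autoImplicit false

namespace Pool.Agent.V7H32.CP

open MvPolynomial

variable {ι : Type} [Fintype ι]

/-- `V` is a Zariski closed subset of the torus `(ℂ^×)^ι`. -/
def IsClosedIn (V : Set (ι → ℂ)) : Prop :=
  ∃ S : Set (MvPolynomial ι ℂ), V = {x | (∀ i, x i ≠ 0) ∧ ∀ p ∈ S, eval x p = 0}

/-- The ideal of the polynomials that vanish on `V`. -/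
noncomputable def idl (V : Set (ι → ℂ)) : Ideal (MvPolynomial ι ℂ) :=
  ⨅ x ∈ V, RingHom.ker (eval x : MvPolynomial ι ℂ →+* ℂ)

/-- `V` is an irreducible closed subvariety of the torus. -/
def IsVar (V : Set (ι → ℂ)) : Prop := IsClosedIn V ∧ (idl V).IsPrime

/-- The dimension of `V`. -/
noncomputable def dim (V : Set (ι → ℂ)) : WithBot ℕ∞ := ringKrullDim (MvPolynomial ι ℂ ⧸ idl V)

/-- The set of the points `y` of the torus with `y ^ a = η ^ a` for all `a ∈ M`. -/
def coset (M : Submodule ℤ (ι → ℤ)) (η : ι → ℂ) : Set (ι → ℂ) :=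
  {y | (∀ i, y i ≠ 0) ∧ ∀ a ∈ M, ∏ i, y i ^ a i = ∏ i, η i ^ a i}

/-- `T` is a special variety: the coset of an algebraic torus (`M` is saturated) by a torsion
point. -/
def IsSpecial (T : Set (ι → ℂ)) : Prop :=
  ∃ (M : Submodule ℤ (ι → ℤ)) (η : ι → ℂ), (∀ a : ι → ℤ, ∀ m : ℤ, m ≠ 0 → m • a ∈ M → a ∈ M) ∧
    (∃ m : ℕ, 0 < m ∧ ∀ i, η i ^ m = 1) ∧ T = coset M η

/-- `X` is an irreducible component of `Y`. -/
def IsComponent (X Y : Set (ι → ℂ)) : Prop :=
  IsVar X ∧ X ⊆ Y ∧ ∀ Z, IsVar Z → X ⊆ Z → Z ⊆ Y → Z = X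

/-- `X` is an atypical subvariety of `V`: a component of `V ∩ T` with
`dim X > dim V + dim T - n` for a special variety `T`. -/
def Atypical (V X : Set (ι → ℂ)) : Prop :=
  ∃ T, IsSpecial T ∧ IsComponent X (V ∩ T) ∧ dim V + dim T < dim X + (Fintype.card ι : WithBot ℕ∞)

/-- The variety of the points `(u, v)` of the torus of dimension `2 r` with `u_i + v_i = 1` for all
`i`: the `r`-th power of the line `u + v = 1` in the torus of dimension two. -/
def line (r : ℕ) : Set (Fin r × Fin 2 → ℂ) :=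
  {x | (∀ j, x j ≠ 0) ∧ ∀ i, x (i, 0) + x (i, 1) = 1}

end Pool.Agent.V7H32.CP
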