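import Pool.Agent.V7H32.CP.Noether

/-!
# All points over an arbitrary field of characteristic zero

The coefficients are hidden behind generic constants.
-/

set_option autoImplicit false

namespace Pool.Agent.V7H32.CP

open MvPolynomial IntermediateField

theorem td_algebraMap {σ : Type} [Fintype σ] {k K L : Type} [Field k] [Field K] [Field L]
    [Algebra k K] [Algebra k L] [Algebra K L] [IsScalarTower k K L] (x : σ → K) :
    td k (fun i => algebraMap K L (x i)) = td k x := by
  have h : ∀ f : MvPolynomial σ k, aeval (fun i => algebraMap K L (x i)) f =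
      algebraMap K L (aeval x f) := fun f => MvPolynomial.aeval_algebraMap_apply L x f
  refine td_eq_of_sp ?_ ?_
  · intro f hf
    rw [h] at hf
    exact (map_eq_zero _).1 hf
  · intro f hf
    rw [h, hf, map_zero]

theorem sp_of_eval₂ {σ K L : Type} [Field K] [Field L] {y : σ → K} {x : σ → L}
    (h : ∀ f : MvPolynomial σ ℤ, eval₂ (Int.castRingHom K) y f = 0 →
      eval₂ (Int.castRingHom L) x f = 0) : Sp ℤ y x := fun f hf => h f hf

section hide

variable {k' : Type} [Field k'] {ι : Type} [Fintype ι] (s : Finset k')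

open Classical in
/-- the new coordinates: two free ones for each constant, and their sum with the constant -/
noncomputable def sset (q : s × Fin 3) : Finset (s × Fin 2) :=
  ![{(q.1, 0)}, {(q.1, 1)}, {(q.1, 0), (q.1, 1)}] q.2

variable {s}

theorem sset_nonempty (q : s × Fin 3) : (sset s q).Nonempty := by
  obtain ⟨i, j⟩ := q
  fin_cases j <;> simp [sset]

/-- the constants -/
noncomputable def scon (K : Type) [Field K] [Algebra k' K] (q : s × Fin 3) : K :=
  ![0, 0, algebraMap k' K q.1] q.2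

theorem sset_inj {K : Type} [Field K] [Algebra k' K] :
    Function.Injective fun q : s × Fin 3 => (sset s q, scon K q) := by
  rintro ⟨i, j⟩ ⟨i', j'⟩ h
  simp only [Prod.mk.injEq] at h
  obtain ⟨h1, -⟩ := h
  have e0 := Finset.ext_iff.1 h1 (i, 0)
  have e1 := Finset.ext_iff.1 h1 (i, 1)
  clear h1
  by_cases hii : i = i'
  · subst hii
    fin_cases j <;> fin_cases j' <;> first | rfl | (exfalso; simp [sset] at e0; done) |
      (exfalso; simp [sset] at e1; done)
  · exfalso
    fin_cases j <;> fin_cases j' <;> first | (simp [hii, sset] at e0; done) |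
      (simp [hii, sset] at e1; done)

variable {K : Type} [Field K] [Algebra k' K]

/-- the bigger field -/
abbrev BF (s : Finset k') (K : Type) [Field K] : Type := FractionRing (MvPolynomial (s × Fin 2) K)

/-- the variables -/
noncomputable def tt (s : Finset k') (K : Type) [Field K] (v : s × Fin 2) : BF s K :=
  algebraMap (MvPolynomial (s × Fin 2) K) (BF s K) (X v)

theorem tt_indep : AlgebraicIndependent K (tt s K) :=
  (MvPolynomial.algebraicIndependent_X (s × Fin 2) K).map'
    (f := IsScalarTower.toAlgHom K (MvPolynomial (s × Fin 2) K) (BF s K))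
    (IsFractionRing.injective (MvPolynomial (s × Fin 2) K) (BF s K))

/-- the new coordinates of a point -/
noncomputable def uu (s : Finset k') (K : Type) [Field K] [Algebra k' K] (q : s × Fin 3) :
    (BF s K)ˣ :=
  Units.mk0 _ (form_ne_zero (tt_indep (s := s) (K := K)) (sset_nonempty q) (scon K q))

theorem uu_coe (q : s × Fin 3) : ((uu s K q : (BF s K)ˣ) : BF s K) =
    ∑ v ∈ sset s q, tt s K v + algebraMap K (BF s K) (scon K q) := rfl

theorem uu0 (i : s) : ((uu s K (i, 0) : (BF s K)ˣ) : BF s K) = tt s K (i, 0) := by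
  rw [uu_coe]; simp [sset, scon]

theorem uu1 (i : s) : ((uu s K (i, 1) : (BF s K)ˣ) : BF s K) = tt s K (i, 1) := by
  rw [uu_coe]; simp [sset, scon]

theorem uu2 (i : s) : ((uu s K (i, 2) : (BF s K)ˣ) : BF s K) = tt s K (i, 0) + tt s K (i, 1) +
    algebraMap K (BF s K) (algebraMap k' K i) := by
  rw [uu_coe]; simp [sset, scon]

/-- the extended point -/
noncomputable def hid (s : Finset k') (x : ι → Kˣ) : ι ⊕ (s × Fin 3) → (BF s K)ˣ :=
  Sum.elim (up (BF s K) x) (uu s K)

/-- The generic form of the evaluation at an extended point. -/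
noncomputable def Phi (ι : Type) (s : Finset k') :
    MvPolynomial (ι ⊕ (s × Fin 3)) ℤ →+* MvPolynomial (s × Fin 2) (MvPolynomial ι k') :=
  eval₂Hom (Int.castRingHom _) (Sum.elim (fun i => C (X i)) fun q =>
    ![X (q.1, 0), X (q.1, 1), X (q.1, 0) + X (q.1, 1) + C (C (q.1 : k'))] q.2)

theorem aeval_hid (x : ι → Kˣ) (f : MvPolynomial (ι ⊕ (s × Fin 3)) ℤ) :
    eval₂ (Int.castRingHom (BF s K)) (cx (hid s x)) f =
      algebraMap (MvPolynomial (s × Fin 2) K) (BF s K) (map (aeval (cx x) : MvPolynomial ι k' →ₐ[k'] K).toRingHom (Phi ι s f)) := by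
  have h : eval₂Hom (Int.castRingHom (BF s K)) (cx (hid s x)) =
      (algebraMap (MvPolynomial (s × Fin 2) K) (BF s K)).comp
      ((map (aeval (cx x) : MvPolynomial ι k' →ₐ[k'] K).toRingHom).comp (Phi ι s)) := by
    apply MvPolynomial.ringHom_ext
    · intro r
      simp
    · intro i
      rcases i with i | ⟨i, j⟩
      · rw [coe_eval₂Hom, eval₂_X]
        simp only [RingHom.comp_apply, Phi, coe_eval₂Hom, eval₂_X, Sum.elim_inl, map_C]
        show algebraMap K (BF s K) (x i : K) = algebraMap _ (BF s K) (C (aeval (cx x) (X i)))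
        rw [aeval_X]
        rfl
      · rw [coe_eval₂Hom, eval₂_X]
        simp only [RingHom.comp_apply, Phi, coe_eval₂Hom, eval₂_X, Sum.elim_inr]
        show ((uu s K (i, j) : (BF s K)ˣ) : BF s K) = _
        fin_cases j
        · show ((uu s K (i, 0) : (BF s K)ˣ) : BF s K) = _
          rw [uu0]
          simp [tt]
        · show ((uu s K (i, 1) : (BF s K)ˣ) : BF s K) = _
          rw [uu1]
          simp [tt]
        · show ((uu s K (i, 2) : (BF s K)ˣ) : BF s K) = _
          rw [uu2]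
          simp [tt]
          rfl
  exact congrArg (fun g : MvPolynomial (ι ⊕ (s × Fin 3)) ℤ →+* BF s K => g f) h

theorem sp_hid {L : Type} [Field L] [Algebra k' L] {v : ι → Kˣ} {x : ι → Lˣ}
    (h : Sp k' (cx v) (cx x)) (f : MvPolynomial (ι ⊕ (s × Fin 3)) ℤ)
    (hf : eval₂ (Int.castRingHom _) (cx (hid s v)) f = 0) :
    eval₂ (Int.castRingHom _) (cx (hid s x)) f = 0 := by
  rw [aeval_hid] at hf ⊢
  have h1 : map (aeval (cx v) : MvPolynomial ι k' →ₐ[k'] K).toRingHom (Phi ι s f) = 0 :=
    (map_eq_zero_iff _ (IsFractionRing.injective _ _)).1 hf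
  have h2 : map (aeval (cx x) : MvPolynomial ι k' →ₐ[k'] L).toRingHom (Phi ι s f) = 0 := by
    ext d
    have h3 := congrArg (coeff d) h1
    rw [coeff_map, coeff_zero] at h3 ⊢
    exact h _ h3
  rw [h2, map_zero]

theorem hid_le [CharZero k'] [CharZero K] {L : Type} [Field L] [CharZero L] [Algebra K L]
    (x : ι → Kˣ) (t : s × Fin 2 → L) (u : s × Fin 3 → Lˣ)
    (h0 : ∀ i, (u (i, 0) : L) = t (i, 0)) (h1 : ∀ i, (u (i, 1) : L) = t (i, 1))
    (h2 : ∀ i, (u (i, 2) : L) = t (i, 0) + t (i, 1) + algebraMap K L (algebraMap k' K i)) :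
    td ℚ (cx (Sum.elim (up L x) u)) ≤
      td ℚ (Sum.elim (fun j : s => algebraMap k' K j) (cx x)) + Fintype.card (s × Fin 2) := by
  have tow3 : IsScalarTower ℚ K L := IsScalarTower.of_algebraMap_eq' (Subsingleton.elim _ _)
  rw [← td_algebraMap (L := L) (Sum.elim (fun j : s => algebraMap k' K j) (cx x))]
  refine le_trans (td_mono ?_) (td_elim_le _ t)
  set F := adjoin ℚ (Set.range (Sum.elim (fun i => algebraMap K L
    (Sum.elim (fun j : s => algebraMap k' K j) (cx x) i)) t)) with hF
  have m0 : ∀ i, algebraMap K L (x i) ∈ F :=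
    fun i => subset_adjoin _ _ ⟨Sum.inl (Sum.inr i), rfl⟩
  have m1 : ∀ j : s, algebraMap K L (algebraMap k' K j) ∈ F :=
    fun j => subset_adjoin _ _ ⟨Sum.inl (Sum.inl j), rfl⟩
  have m2 : ∀ j, t j ∈ F := fun j => subset_adjoin _ _ ⟨Sum.inr j, rfl⟩
  rintro (i | ⟨i, j⟩)
  · exact m0 i
  · show (u (i, j) : L) ∈ F
    fin_cases j
    · show (u (i, 0) : L) ∈ F
      rw [h0]
      exact m2 _
    · show (u (i, 1) : L) ∈ F
      rw [h1]
      exact m2 _
    · show (u (i, 2) : L) ∈ F
      rw [h2]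
      exact add_mem (add_mem (m2 _) (m2 _)) (m1 _)

theorem le_hid [CharZero k'] [CharZero K] {L : Type} [Field L] [CharZero L] [Algebra K L]
    (x : ι → Kˣ) {t : s × Fin 2 → L} (ht : AlgebraicIndependent K t) (u : s × Fin 3 → Lˣ)
    (h0 : ∀ i, (u (i, 0) : L) = t (i, 0)) (h1 : ∀ i, (u (i, 1) : L) = t (i, 1))
    (h2 : ∀ i, (u (i, 2) : L) = t (i, 0) + t (i, 1) + algebraMap K L (algebraMap k' K i)) :
    td ℚ (fun j : s => (j : k')) + td k' (cx x) + Fintype.card (s × Fin 2) ≤
      td ℚ (cx (Sum.elim (up L x) u)) := by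
  have tow2 : IsScalarTower ℚ k' K := IsScalarTower.of_algebraMap_eq' (Subsingleton.elim _ _)
  have tow3 : IsScalarTower ℚ K L := IsScalarTower.of_algebraMap_eq' (Subsingleton.elim _ _)
  refine le_trans (Nat.add_le_add_right (le_td_elim (k := ℚ) (cx x) fun j : s => (j : k')) _) ?_
  have m1 : ∀ j, t j ∈ adjoin ℚ (Set.range (cx (Sum.elim (up L x) u))) := by
    rintro ⟨i, j⟩
    fin_cases j
    · show t (i, 0) ∈ _
      rw [← h0]
      exact subset_adjoin _ _ ⟨Sum.inr (i, 0), rfl⟩
    · show t (i, 1) ∈ _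
      rw [← h1]
      exact subset_adjoin _ _ ⟨Sum.inr (i, 1), rfl⟩
  refine td_add_le ?_ ht m1
  rintro (i | i)
  · show algebraMap K L (algebraMap k' K i) ∈ _
    have h3 : algebraMap K L (algebraMap k' K i) =
        (u (i, 2) : L) - (t (i, 0) + t (i, 1)) := by
      rw [h2]
      ring
    rw [h3]
    exact sub_mem (subset_adjoin _ _ ⟨Sum.inr (i, 2), rfl⟩) (add_mem (m1 _) (m1 _))
  · exact subset_adjoin _ _ ⟨Sum.inl i, rfl⟩

end hide

/-- **All points over a field of characteristic zero.** -/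
theorem zp_field (hMF : ∀ (ρ : Type) [Fintype ρ], MF ρ) {k' : Type} [Field k'] [CharZero k']
    {ι : Type} [Fintype ι] {Kv : Type} [Field Kv] [Algebra k' Kv] (v : ι → Kvˣ) :
    ∃ A : Set (ι → ℤ), A.Finite ∧ 0 ∉ A ∧ ∀ (K : Type) [Field K] [Algebra k' K] (x : ι → Kˣ),
      Sp k' (cx v) (cx x) → td k' (cx v) < td k' (cx x) + rk x → ∃ a ∈ A, mon x a = 1 := by
  classical
  have hKv : CharZero Kv := charZero_of_injective_algebraMap (algebraMap k' Kv).injective
  have tow1 : IsScalarTower ℚ k' Kv := IsScalarTower.of_algebraMap_eq' (Subsingleton.elim _ _)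
  obtain ⟨s, hs⟩ := exists_const_nat (k := ℚ) (k' := k') (cx v)
  have hBv : CharZero (BF s Kv) := charZero_of_injective_algebraMap (algebraMap Kv _).injective
  obtain ⟨A, hA, hA0, hA1⟩ := zp_pt hMF (hid s v)
  refine ⟨((fun a : ι ⊕ (s × Fin 3) → ℤ => fun i => a (Sum.inl i)) '' A) \ {0},
    (hA.image _).sdiff, fun h0 => h0.2 rfl, ?_⟩
  intro K _ _ x hx hδ
  have hK : CharZero K := charZero_of_injective_algebraMap (algebraMap k' K).injective
  have hBx : CharZero (BF s K) := charZero_of_injective_algebraMap (algebraMap K _).injective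
  have h1 := hid_le (k' := k') v (tt s Kv) (uu s Kv) uu0 uu1 uu2
  have h2 := le_hid (k' := k') x (tt_indep (s := s) (K := K)) (uu s K) uu0 uu1 uu2
  have h3 : rk x ≤ rk (hid s x) := rk_le_elim x (uu s K)
  have h4 : td ℚ (cx (hid s v)) < td ℚ (cx (hid s x)) + rk (hid s x) := by
    unfold hid at h3 ⊢
    omega
  obtain ⟨a, ha, ha1⟩ := hA1 (BF s K) (hid s x) (sp_of_eval₂ (sp_hid hx)) h4
  obtain ⟨h5, h6⟩ := rel_elim (tt_indep (s := s) (K := K)) sset_nonempty sset_inj uu_coe ha1
  refine ⟨fun i => a (Sum.inl i), ⟨⟨a, ha, rfl⟩, ?_⟩, h6⟩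
  intro h0
  rw [Set.mem_singleton_iff] at h0
  have h7 : a = 0 := by
    funext i
    rcases i with i | j
    · exact congrFun h0 i
    · exact congrFun h5 j
  exact hA0 (h7 ▸ ha)

end Pool.Agent.V7H32.CP
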