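import Pool.Agent.V7H32.CP.Line

/-!
# From the powers of the line to all subvarieties
-/

set_option autoImplicit false

namespace Pool.Agent.V7H32.CP

open MvPolynomial IntermediateField

theorem rat_kr {J K : Type} [Field K] [Algebra ℂ K] [CharZero K] (x : J → Kˣ) :
    RingHom.ker (aeval (cx x) : MvPolynomial J ℚ →ₐ[ℚ] K) =
      Ideal.comap (map (algebraMap ℚ ℂ)) (kr ℂ x) := by
  ext f
  rw [Ideal.mem_comap, mem_kr, RingHom.mem_ker]
  have h : aeval (cx x) (map (algebraMap ℚ ℂ) f) = aeval (cx x) f := by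
    rw [aeval_def, eval₂_map, aeval_def]
    congr 1
    exact Subsingleton.elim _ _
  rw [h]

/-- Over the complex numbers the transcendence degree is smaller. -/
theorem td_complex_le {J K : Type} [Fintype J] [Field K] [Algebra ℂ K] [CharZero K] (x : J → Kˣ) :
    td ℂ (cx x) ≤ td ℚ (cx x) := by
  have tow : IsScalarTower ℚ ℂ K := IsScalarTower.of_algebraMap_eq' (Subsingleton.elim _ _)
  have h := le_td_elim (k := ℚ) (k' := ℂ) (cx x) (fun i : Empty => i.elim)
  have h2 : td ℚ (Sum.elim (fun j : Empty => algebraMap ℂ K (j.elim)) (cx x)) ≤ td ℚ (cx x) := by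
    refine td_mono ?_
    rintro (i | i)
    · exact i.elim
    · exact subset_adjoin _ _ ⟨i, rfl⟩
  omega

theorem onLine_of_sp {r : ℕ} {K : Type} [Field K] [Algebra ℂ K] {x : Fin r × Fin 2 → Kˣ}
    (h : loc x ⊆ line r) : OnLine x := by
  intro i
  have h1 : X (i, 0) + X (i, 1) - 1 ∈ idl (loc x) := by
    rw [mem_idl]
    intro y hy
    rw [map_sub, map_add, eval_X, eval_X, map_one, (h hy).2 i, sub_self]
  rw [idl_loc, mem_kr, map_sub, map_add, aeval_X, aeval_X, map_one, sub_eq_zero] at h1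
  exact h1

theorem loc_subset_line {r : ℕ} {K : Type} [Field K] [Algebra ℂ K] {x : Fin r × Fin 2 → Kˣ}
    (h : OnLine x) : loc x ⊆ line r := by
  rintro y ⟨hy, hy1⟩
  refine ⟨hy, fun i => ?_⟩
  have h2 := hy1 (X (i, 0) + X (i, 1) - 1) (by
    rw [mem_kr, map_sub, map_add, aeval_X, aeval_X, map_one, cx_apply, cx_apply, h i, sub_self])
  rw [map_sub, map_add, eval_X, eval_X, map_one] at h2
  exact sub_eq_zero.1 h2

/-- The geometric hypothesis over the complex numbers gives the one over the rational numbers. -/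
theorem MF_of_geo (r : ℕ) (h : {X | Maximal (Atypical (line r)) X}.Finite) : MF (Fin r) := by
  obtain ⟨Ku, i1, i2, u, hu1, hu2⟩ := line_pt r
  refine ⟨(fun X => Ideal.comap (map (algebraMap ℚ ℂ)) (idl X)) ''
    {X | Maximal (Atypical (line r)) X}, h.image _, ?_, ?_⟩
  · rintro _ ⟨X, hX, rfl⟩
    have h1 : Atypical (loc u) X := by rw [← hu1]; exact hX.1
    obtain ⟨K, j1, j2, x, rfl, hx1, hx2⟩ := pt_of_atypical h1
    have h0 : CharZero K := charZero_of_injective_algebraMap (algebraMap ℂ K).injective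
    refine ⟨K, j1, h0, x, ?_, ?_, ?_⟩
    · apply onLine_of_sp
      rw [hu1]
      exact loc_subset.2 hx1
    · rw [Fintype.card_fin]
      have h2 := td_complex_le x
      omega
    · show _ = Ideal.comap (map (algebraMap ℚ ℂ)) (idl (loc x))
      rw [rat_kr, idl_loc]
  · intro K _ _ x hx hd
    rw [Fintype.card_fin] at hd
    obtain ⟨L, j1, j2, j3, x', hx1, hx2, hx3⟩ := exists_lift x
    have h1 : OnLine x' := sp_onLine hx1 hx
    have h2 : Sp ℂ (cx u) (cx x') := by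
      apply loc_subset.1
      rw [← hu1]
      exact loc_subset_line h1
    have h3 := hx1.rk
    obtain ⟨X, hX1, hX2⟩ := atypical_of_pt h2 (by omega)
    rw [← hu1] at hX1
    obtain ⟨Y, hY1, hY2⟩ := exists_maximal hX1
    refine ⟨_, ⟨Y, hY1, rfl⟩, ?_⟩
    have h4 : idl Y ≤ kr ℂ x' := by
      rw [← idl_loc]
      exact idl_anti (hX2.trans hY2)
    refine (Ideal.comap_mono h4).trans ?_
    rw [← rat_kr]
    intro f hf
    exact hx2 f hf

/-- The saturation of the group generated by `a`. -/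
def satu {n : ℕ} (a : Fin n → ℤ) : Submodule ℤ (Fin n → ℤ) where
  carrier := {b | ∃ m : ℤ, m ≠ 0 ∧ m • b ∈ Submodule.span ℤ {a}}
  add_mem' := by
    rintro b c ⟨m, hm, hb⟩ ⟨l, hl, hc⟩
    refine ⟨m * l, mul_ne_zero hm hl, ?_⟩
    have h1 : (m * l) • (b + c) = l • (m • b) + m • (l • c) := by
      rw [smul_add, smul_smul, smul_smul, mul_comm l m]
    rw [h1]
    exact Submodule.add_mem _ (Submodule.smul_mem _ _ hb) (Submodule.smul_mem _ _ hc)
  zero_mem' := ⟨1, one_ne_zero, by simp⟩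
  smul_mem' := by
    rintro c b ⟨m, hm, hb⟩
    refine ⟨m, hm, ?_⟩
    rw [smul_comm]
    exact Submodule.smul_mem _ _ hb

theorem satu_sat {n : ℕ} (a : Fin n → ℤ) (b : Fin n → ℤ) (m : ℤ) (hm : m ≠ 0)
    (h : m • b ∈ satu a) : b ∈ satu a := by
  obtain ⟨l, hl, h1⟩ := h
  exact ⟨l * m, mul_ne_zero hl hm, by rw [mul_smul]; exact h1⟩

theorem satu_exp {n : ℕ} (a : Fin n → ℤ) : ∃ g : ℕ, 0 < g ∧ ∀ b ∈ satu a,
    (g : ℤ) • b ∈ Submodule.span ℤ {a} := by
  classical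
  let b := Module.finBasis ℤ (satu a)
  choose N hN hN1 using fun i => (b i).2
  refine ⟨∏ i, (N i).natAbs, Finset.prod_pos fun i _ => Int.natAbs_pos.2 (hN i), fun c hc => ?_⟩
  have h1 : c = ∑ i, (b.repr ⟨c, hc⟩ i) • ((b i : satu a) : Fin n → ℤ) := by
    have h2 := congrArg (fun z : satu a => (z : Fin n → ℤ)) (b.sum_repr ⟨c, hc⟩).symm
    refine h2.trans ?_
    rw [← Submodule.subtype_apply, map_sum]
    simp only [map_smul, Submodule.subtype_apply]
  rw [h1, Finset.smul_sum]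
  refine Submodule.sum_mem _ fun i _ => ?_
  rw [smul_comm]
  refine Submodule.smul_mem _ _ ?_
  have h3 : N i ∣ ((∏ i, (N i).natAbs : ℕ) : ℤ) := by
    rw [← Int.natAbs_dvd]
    exact_mod_cast Finset.dvd_prod_of_mem _ (Finset.mem_univ i)
  obtain ⟨c, hc⟩ := h3
  rw [hc, mul_comm, mul_smul]
  exact Submodule.smul_mem _ _ (hN1 i)

theorem roots_finite {g : ℕ} (hg : 0 < g) : {z : ℂ | z ^ g = 1}.Finite := by
  have h := (Polynomial.nthRootsFinset g (1 : ℂ)).finite_toSet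
  refine h.subset fun z hz => ?_
  rw [Finset.mem_coe, Polynomial.mem_nthRootsFinset hg]
  exact hz

/-- **Zilber's conjecture from the statement over the rational numbers for the powers of the
line.** -/
theorem zilber_of_MF (hMF : ∀ (ρ : Type) [Fintype ρ], MF ρ) :
    ∀ (n : ℕ) (S : Set (MvPolynomial (Fin n) ℂ)) (V : Set (Fin n → ℂ)),
      V = {x : Fin n → ℂ | (∀ i, x i ≠ 0) ∧ ∀ p ∈ S, MvPolynomial.eval x p = 0} →
      (⨅ x ∈ V, RingHom.ker (MvPolynomial.eval x : MvPolynomial (Fin n) ℂ →+* ℂ)).IsPrime →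
      ∃ (k : ℕ) (L : Fin k → Submodule ℤ (Fin n → ℤ)) (ζ : Fin k → Fin n → ℂ),
        (∀ j, L j ≠ ⊥ ∧
          (∀ a : Fin n → ℤ, ∀ m : ℤ, m ≠ 0 → m • a ∈ L j → a ∈ L j) ∧
          ∃ m : ℕ, 0 < m ∧ ∀ i, ζ j i ^ m = 1) ∧
        ∀ (M : Submodule ℤ (Fin n → ℤ)) (η : Fin n → ℂ) (T : Set (Fin n → ℂ)),
          (∀ a : Fin n → ℤ, ∀ m : ℤ, m ≠ 0 → m • a ∈ M → a ∈ M) →
          (∃ m : ℕ, 0 < m ∧ ∀ i, η i ^ m = 1) →
          T = {y : Fin n → ℂ | (∀ i, y i ≠ 0) ∧
                ∀ a ∈ M, ∏ i, y i ^ a i = ∏ i, η i ^ a i} →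
          ∀ X : Set (Fin n → ℂ), X ⊆ V → X ⊆ T →
            (⨅ x ∈ X, RingHom.ker (MvPolynomial.eval x : MvPolynomial (Fin n) ℂ →+* ℂ)).IsPrime →
            ringKrullDim (MvPolynomial (Fin n) ℂ ⧸
                (⨅ x ∈ V, RingHom.ker (MvPolynomial.eval x : MvPolynomial (Fin n) ℂ →+* ℂ)))
              + ringKrullDim (MvPolynomial (Fin n) ℂ ⧸
                (⨅ x ∈ T, RingHom.ker (MvPolynomial.eval x : MvPolynomial (Fin n) ℂ →+* ℂ)))
              < ringKrullDim (MvPolynomial (Fin n) ℂ ⧸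
                (⨅ x ∈ X, RingHom.ker (MvPolynomial.eval x : MvPolynomial (Fin n) ℂ →+* ℂ)))
                + (n : WithBot ℕ∞) →
            ∃ j, X ⊆ {y : Fin n → ℂ | (∀ i, y i ≠ 0) ∧
                ∀ a ∈ L j, ∏ i, y i ^ a i = ∏ i, ζ j i ^ a i} := by
  intro n S V hV hVp
  have hVv : IsVar V := ⟨⟨S, hV⟩, hVp⟩
  obtain ⟨Kv, i1, i2, v, rfl⟩ := exists_loc hVv
  obtain ⟨A, hA, hA0, hA1⟩ := zp_field hMF (k' := ℂ) v
  choose g hg hg1 using fun a : Fin n → ℤ => satu_exp a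
  let F : Set (Submodule ℤ (Fin n → ℤ) × (Fin n → ℂ)) :=
    ⋃ a ∈ A, ({satu a} : Set (Submodule ℤ (Fin n → ℤ))) ×ˢ
      (Set.pi Set.univ fun _ : Fin n => {z : ℂ | z ^ g a = 1})
  have hF : F.Finite := hA.biUnion fun a _ =>
    (Set.finite_singleton _).prod (Set.Finite.pi fun _ => roots_finite (hg a))
  have hF1 : ∀ p : Submodule ℤ (Fin n → ℤ) × (Fin n → ℂ), p ∈ F ↔
      ∃ a ∈ A, p.1 = satu a ∧ ∀ i, p.2 i ^ g a = 1 := by
    intro p
    simp only [F, Set.mem_iUnion, Set.mem_prod, Set.mem_singleton_iff, Set.mem_pi, Set.mem_univ,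
      Set.mem_setOf_eq, true_imp_iff, exists_prop]
  let e := hF.toFinset.equivFin
  refine ⟨hF.toFinset.card, fun j => (e.symm j).1.1, fun j => (e.symm j).1.2, ?_, ?_⟩
  · intro j
    obtain ⟨a, ha, h1, h2⟩ := (hF1 (e.symm j).1).1 (hF.mem_toFinset.1 (e.symm j).2)
    simp only [h1]
    refine ⟨?_, satu_sat a, g a, hg a, h2⟩
    intro hbot
    have h3 : a ∈ satu a := ⟨1, one_ne_zero, by rw [one_smul]; exact Submodule.mem_span_singleton_self a⟩
    rw [hbot, Submodule.mem_bot] at h3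
    exact hA0 (h3 ▸ ha)
  · intro M η T hM hη hT X hXV hXT hXp hd
    have hη0 : ∀ i, η i ≠ 0 := by
      obtain ⟨m, hm, hη1⟩ := hη
      intro i h0
      have h1 := hη1 i
      rw [h0, zero_pow hm.ne'] at h1
      exact zero_ne_one h1
    obtain ⟨KT, j1, j2, t, ht1, ht2⟩ := special_pt M hM (toU η hη0)
    rw [cx_toU] at ht1
    have hT' : T = loc t := by rw [hT, ← ht1]; rfl
    have hX0 : ∀ x ∈ X, ∀ i, x i ≠ 0 := fun x hx => (hXV hx).1
    obtain ⟨K, k1, k2, x, hx⟩ := exists_pt hXp (X_notMem hX0 hXp)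
    have hXx : X ⊆ loc x := by
      intro y hy
      refine ⟨hX0 y hy, fun f hf => ?_⟩
      rw [hx] at hf
      exact mem_idl.1 hf y hy
    have hxT : loc x ⊆ T := by
      rw [hT']
      apply subset_of_idl (isVar_loc t).1 (isVar_loc x).1
      rw [idl_loc x, hx]
      exact idl_anti (by rw [← hT']; exact hXT)
    have hvx : Sp ℂ (cx v) (cx x) := by
      rw [sp_iff, hx, ← idl_loc]
      exact idl_anti hXV
    have hd' : td ℂ (cx v) < td ℂ (cx x) + Module.finrank ℤ M := by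
      have e1 : (⨅ x ∈ loc v, RingHom.ker (MvPolynomial.eval x :
        MvPolynomial (Fin n) ℂ →+* ℂ)) = kr ℂ v := idl_loc v
      have e2 : (⨅ x ∈ T, RingHom.ker (MvPolynomial.eval x :
        MvPolynomial (Fin n) ℂ →+* ℂ)) = kr ℂ t := by rw [hT']; exact idl_loc t
      have e3 : (⨅ x ∈ X, RingHom.ker (MvPolynomial.eval x :
        MvPolynomial (Fin n) ℂ →+* ℂ)) = kr ℂ x := hx.symm
      rw [e1, e2, e3, krull_kr, krull_kr, krull_kr] at hd
      rw [Fintype.card_fin] at ht2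
      exact (dim_ineq ht2).1 hd
    have hrk : Module.finrank ℤ M ≤ rk x := finrank_le_rk hη (by rw [hT] at hxT; exact hxT)
    obtain ⟨a, ha, ha1⟩ := hA1 K x hvx (by omega)
    obtain ⟨ω, hω1, hω2⟩ := tors x (satu a) (satu_sat a) (hg a) (by
      intro b hb
      obtain ⟨c, hc⟩ := Submodule.mem_span_singleton.1 (hg1 a b hb)
      rw [← mon_nsmul, ← natCast_zsmul, ← hc, mon_smul, ha1, one_zpow])
    have hmem : ((satu a, cx ω) : Submodule ℤ (Fin n → ℤ) × (Fin n → ℂ)) ∈ F := by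
      rw [hF1]
      refine ⟨a, ha, rfl, fun i => ?_⟩
      show (ω i : ℂ) ^ g a = 1
      rw [← Units.val_pow_eq_pow_val, hω1, Units.val_one]
    refine ⟨e ⟨_, hF.mem_toFinset.2 hmem⟩, ?_⟩
    simp only [Equiv.symm_apply_apply]
    intro y hy
    have hy0 := hX0 y hy
    refine ⟨hy0, fun b hb => ?_⟩
    have h1 : binc (((mon ω b : ℂˣ) : ℂ)) b ∈ kr ℂ x := by
      rw [mem_kr, aeval_binc, hω2 b hb]
      rfl
    have h2 := (hXx hy).2 _ h1
    rw [eval_binc y hy0] at h2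
    rw [h2, mon, Units.coe_prod]
    refine Finset.prod_congr rfl fun i _ => ?_
    rw [Units.val_zpow_eq_zpow_val]
    rfl

end Pool.Agent.V7H32.CP
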