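import Pool.Agent.V7H32.CP.Fld
import Pool.Agent.V7H32.CP.Defs

/-!
# Subvarieties of the torus and their generic points
-/

set_option autoImplicit false

namespace Pool.Agent.V7H32.CP

open MvPolynomial IntermediateField

section geo

variable {ι : Type} [Fintype ι]

omit [Fintype ι] in
theorem mem_idl {V : Set (ι → ℂ)} {f : MvPolynomial ι ℂ} : f ∈ idl V ↔ ∀ x ∈ V, eval x f = 0 := by
  simp [idl, Submodule.mem_iInf, RingHom.mem_ker]

/-- The points of the torus at which the elements of `P` vanish. -/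
def ZZ (P : Ideal (MvPolynomial ι ℂ)) : Set (ι → ℂ) := {x | (∀ i, x i ≠ 0) ∧ ∀ f ∈ P, eval x f = 0}

omit [Fintype ι] in
theorem isClosedIn_ZZ (P : Ideal (MvPolynomial ι ℂ)) : IsClosedIn (ZZ P) := ⟨P, rfl⟩

theorem idl_ZZ {P : Ideal (MvPolynomial ι ℂ)} (hP : P.IsPrime) (hX : ∀ i, X i ∉ P) :
    idl (ZZ P) = P := by
  apply le_antisymm
  · intro f hf
    rw [mem_idl] at hf
    have h1 : f * ∏ i, X i ∈ vanishingIdeal ℂ (zeroLocus ℂ P) := by
      rw [mem_vanishingIdeal_iff]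
      intro x hx
      rw [map_mul, map_prod]
      simp only [aeval_X]
      by_cases h0 : ∃ i, x i = 0
      · obtain ⟨i, hi⟩ := h0
        rw [Finset.prod_eq_zero (Finset.mem_univ i) hi, mul_zero]
      · push Not at h0
        have h2 := hf x ⟨h0, fun g hg => by
          have := hx g hg
          rwa [aeval_eq_eval] at this⟩
        rw [aeval_eq_eval, h2, zero_mul]
    rw [IsPrime.vanishingIdeal_zeroLocus] at h1
    rcases hP.mem_or_mem h1 with h2 | h2
    · exact h2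
    · obtain ⟨i, -, hi⟩ := (Ideal.IsPrime.prod_mem_iff (hp := hP)).1 h2
      exact absurd hi (hX i)
  · intro f hf
    rw [mem_idl]
    exact fun x hx => hx.2 f hf

omit [Fintype ι] in
theorem ZZ_idl {V : Set (ι → ℂ)} (hV : IsClosedIn V) : ZZ (idl V) = V := by
  obtain ⟨S, hS⟩ := hV
  ext x
  constructor
  · rintro ⟨h1, h2⟩
    rw [hS]
    refine ⟨h1, fun p hp => h2 p ?_⟩
    rw [mem_idl]
    intro y hy
    rw [hS] at hy
    exact hy.2 p hp
  · intro hx
    refine ⟨?_, fun f hf => mem_idl.1 hf x hx⟩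
    rw [hS] at hx
    exact hx.1

omit [Fintype ι] in
theorem idl_anti {V W : Set (ι → ℂ)} (h : V ⊆ W) : idl W ≤ idl V := by
  intro f hf
  rw [mem_idl] at hf ⊢
  exact fun x hx => hf x (h hx)

omit [Fintype ι] in
theorem subset_of_idl {V W : Set (ι → ℂ)} (hW : IsClosedIn W) (hV : IsClosedIn V)
    (h : idl W ≤ idl V) : V ⊆ W := by
  rw [← ZZ_idl hW]
  intro x hx
  have h1 : x ∈ ZZ (idl V) := by rw [ZZ_idl hV]; exact hx
  exact ⟨h1.1, fun f hf => h1.2 f (h hf)⟩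

omit [Fintype ι] in
theorem X_notMem {V : Set (ι → ℂ)} (hV : ∀ x ∈ V, ∀ i, x i ≠ 0) (hp : (idl V).IsPrime) (i : ι) :
    X i ∉ idl V := by
  intro h
  have hne : V.Nonempty := by
    rw [Set.nonempty_iff_ne_empty]
    rintro rfl
    apply hp.ne_top
    rw [Ideal.eq_top_iff_one, mem_idl]
    intro x hx
    exact absurd hx (Set.notMem_empty x)
  obtain ⟨x, hx⟩ := hne
  have h1 := mem_idl.1 h x hx
  rw [eval_X] at h1
  exact hV x hx i h1

/-- The kernel of the evaluation at a point. -/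
noncomputable def kr {ι : Type} (k : Type) {K : Type} [Field k] [Field K] [Algebra k K]
    (x : ι → Kˣ) : Ideal (MvPolynomial ι k) :=
  RingHom.ker (aeval (cx x) : MvPolynomial ι k →ₐ[k] K)

variable {K L : Type} [Field K] [Field L] [Algebra ℂ K] [Algebra ℂ L]

omit [Fintype ι] in
theorem mem_kr {x : ι → Kˣ} {f : MvPolynomial ι ℂ} : f ∈ kr ℂ x ↔ aeval (cx x) f = 0 := Iff.rfl

omit [Fintype ι] in
theorem kr_prime (x : ι → Kˣ) : (kr ℂ x).IsPrime := RingHom.ker_isPrime _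

omit [Fintype ι] in
theorem X_notMem_kr (x : ι → Kˣ) (i : ι) : X i ∉ kr ℂ x := by
  rw [mem_kr, aeval_X]
  exact (x i).ne_zero

omit [Fintype ι] in
theorem sp_iff {x : ι → Kˣ} {y : ι → Lˣ} : Sp ℂ (cx x) (cx y) ↔ kr ℂ x ≤ kr ℂ y := Iff.rfl

/-- A prime ideal that does not contain the variables has a generic point. -/
theorem exists_pt {P : Ideal (MvPolynomial ι ℂ)} (hP : P.IsPrime) (hX : ∀ i, X i ∉ P) :
    ∃ (K : Type) (_ : Field K) (_ : Algebra ℂ K) (x : ι → Kˣ), kr ℂ x = P := by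
  let A := MvPolynomial ι ℂ ⧸ P
  let F := FractionRing A
  let y' : ι → F := fun i => algebraMap A F (Ideal.Quotient.mk P (X i))
  have hy' : ∀ f : MvPolynomial ι ℂ, aeval y' f = algebraMap A F (Ideal.Quotient.mk P f) := by
    intro f
    have h2 : (aeval y' : MvPolynomial ι ℂ →ₐ[ℂ] F) =
        (IsScalarTower.toAlgHom ℂ A F).comp (Ideal.Quotient.mkₐ ℂ P) := by
      ext i
      simp [y', A, F]
    rw [h2]
    rfl
  have hy0 : ∀ f : MvPolynomial ι ℂ, aeval y' f = 0 ↔ f ∈ P := by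
    intro f
    rw [hy', map_eq_zero_iff _ (IsFractionRing.injective A F), Ideal.Quotient.eq_zero_iff_mem]
  have hne : ∀ i, y' i ≠ 0 := by
    intro i hi
    refine hX i ((hy0 (X i)).1 ?_)
    rw [aeval_X, hi]
  refine ⟨F, inferInstance, inferInstance, fun i => Units.mk0 (y' i) (hne i), ?_⟩
  ext f
  rw [mem_kr]
  exact hy0 f

/-- The Krull dimension is the transcendence degree. -/
theorem krull_kr (x : ι → Kˣ) :
    ringKrullDim (MvPolynomial ι ℂ ⧸ kr ℂ x) = ((td ℂ (cx x) : ℕ) : WithBot ℕ∞) := by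
  have hp := kr_prime x
  obtain ⟨s, h1, h2⟩ := V7H84.Perm.exists_ringKrullDim_eq_trdeg ℂ (MvPolynomial ι ℂ ⧸ kr ℂ x)
  have h3 : (td ℂ (cx x) : Cardinal) = s := by
    rw [coe_td, tc_eq_quot]
    exact h2
  have h4 : td ℂ (cx x) = s := by exact_mod_cast h3
  rw [h1, h4]

/-- The locus of a point. -/
def loc (x : ι → Kˣ) : Set (ι → ℂ) := ZZ (kr ℂ x)

theorem idl_loc (x : ι → Kˣ) : idl (loc x) = kr ℂ x := idl_ZZ (kr_prime x) (X_notMem_kr x)

theorem isVar_loc (x : ι → Kˣ) : IsVar (loc x) :=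
  ⟨isClosedIn_ZZ _, by rw [idl_loc]; exact kr_prime x⟩

theorem dim_loc (x : ι → Kˣ) : dim (loc x) = ((td ℂ (cx x) : ℕ) : WithBot ℕ∞) := by
  rw [dim, idl_loc, krull_kr]

theorem exists_loc {V : Set (ι → ℂ)} (hV : IsVar V) :
    ∃ (K : Type) (_ : Field K) (_ : Algebra ℂ K) (x : ι → Kˣ), V = loc x := by
  have h0 : ∀ x ∈ V, ∀ i, x i ≠ 0 := by
    intro x hx
    obtain ⟨S, hS⟩ := hV.1
    rw [hS] at hx
    exact hx.1
  obtain ⟨K, i1, i2, x, hx⟩ := exists_pt hV.2 (X_notMem h0 hV.2)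
  refine ⟨K, i1, i2, x, ?_⟩
  rw [loc, hx, ZZ_idl hV.1]

theorem loc_subset {x : ι → Kˣ} {y : ι → Lˣ} : loc x ⊆ loc y ↔ Sp ℂ (cx y) (cx x) := by
  rw [sp_iff]
  constructor
  · intro h
    rw [← idl_loc, ← idl_loc]
    exact idl_anti h
  · intro h
    apply subset_of_idl (isVar_loc y).1 (isVar_loc x).1
    rw [idl_loc, idl_loc]
    exact h

/-- The polynomial with the zeros `x ^ a = c`. -/
noncomputable def binc {ι : Type} [Fintype ι] (c : ℂ) (a : ι → ℤ) : MvPolynomial ι ℂ :=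
  ∏ i, X i ^ (a i).toNat - C c * ∏ i, X i ^ (-a i).toNat

theorem aeval_binc (x : ι → Kˣ) (c : ℂ) (a : ι → ℤ) :
    aeval (cx x) (binc c a) = 0 ↔ ((mon x a : Kˣ) : K) = algebraMap ℂ K c := by
  rw [binc, map_sub, sub_eq_zero, map_mul, algHom_C]
  simp only [map_prod, map_pow, aeval_X, cx_apply]
  have h := mon_toNat x a
  have h1 : ((∏ i, x i ^ (a i).toNat : Kˣ) : K) = ∏ i, (x i : K) ^ (a i).toNat := by simp
  have h2 : ((∏ i, x i ^ (-a i).toNat : Kˣ) : K) = ∏ i, (x i : K) ^ (-a i).toNat := by simp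
  rw [← h1, ← h2, ← h, Units.val_mul]
  constructor
  · intro h3
    exact mul_right_cancel₀ (Units.ne_zero _) h3
  · intro h3
    rw [h3]

/-- A point with nonzero complex coordinates. -/
noncomputable def toU (y : ι → ℂ) (hy : ∀ i, y i ≠ 0) : ι → ℂˣ := fun i => Units.mk0 (y i) (hy i)

omit [Fintype ι] in
theorem cx_toU (y : ι → ℂ) (hy : ∀ i, y i ≠ 0) : cx (toU y hy) = y := rfl

theorem mon_toU (y : ι → ℂ) (hy : ∀ i, y i ≠ 0) (a : ι → ℤ) :
    ((mon (toU y hy) a : ℂˣ) : ℂ) = ∏ i, y i ^ a i := by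
  rw [mon, Units.coe_prod]
  refine Finset.prod_congr rfl fun i _ => ?_
  rw [Units.val_zpow_eq_zpow_val]
  rfl

theorem eval_binc (y : ι → ℂ) (hy : ∀ i, y i ≠ 0) (c : ℂ) (a : ι → ℤ) :
    eval y (binc c a) = 0 ↔ ∏ i, y i ^ a i = c := by
  rw [← mon_toU y hy, ← aeval_eq_eval]
  exact aeval_binc (toU y hy) c a

theorem mem_loc {x : ι → Kˣ} {y : ι → ℂ} (hy : ∀ i, y i ≠ 0) :
    y ∈ loc x ↔ Sp ℂ (cx x) (cx (toU y hy)) := by
  constructor
  · intro h f hf
    have := h.2 f hf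
    rw [← aeval_eq_eval] at this
    exact this
  · intro h
    refine ⟨hy, fun f hf => ?_⟩
    rw [← aeval_eq_eval]
    exact h f hf

end geo

end Pool.Agent.V7H32.CP
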