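import Pool.Agent.V7H32.CP.Td

/-!
# Linear forms in new variables are multiplicatively independent modulo the old field
-/

set_option autoImplicit false

namespace Pool.Agent.V7H32.CP

open MvPolynomial

section lin

variable {V : Type} {K : Type} [Field K]

/-- The linear form `∑_{v ∈ S} X_v + c`. -/
noncomputable def form (S : Finset V) (c : K) : MvPolynomial V K := ∑ v ∈ S, X v + C c

theorem coeff_form_single [DecidableEq V] (S : Finset V) (c : K) (v : V) :
    coeff (Finsupp.single v 1) (form S c) = if v ∈ S then 1 else 0 := by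
  classical
  rw [form, coeff_add, coeff_sum, coeff_C, if_neg, add_zero]
  · have h : ∀ w, coeff (Finsupp.single v 1) (X w : MvPolynomial V K) = if w = v then 1 else 0 := by
      intro w
      rw [coeff_X]
      simp only [Finsupp.single_left_inj (one_ne_zero : (1 : ℕ) ≠ 0)]
    simp only [h]
    rw [Finset.sum_ite_eq']
  · intro h
    have := DFunLike.congr_fun h v
    simp at this

theorem coeff_form_zero (S : Finset V) (c : K) : coeff 0 (form S c) = c := by
  classical
  rw [form, coeff_add, coeff_sum]
  have h : ∀ w, coeff 0 (X w : MvPolynomial V K) = 0 := by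
    intro w
    rw [coeff_X, if_neg]
    intro h
    have := DFunLike.congr_fun h w
    simp at this
  simp [h]

theorem form_irreducible {S : Finset V} (hS : S.Nonempty) (c : K) : Irreducible (form S c) := by
  classical
  obtain ⟨v, hv⟩ := hS
  have h1 : coeff (Finsupp.single v 1) (form S c) = 1 := by rw [coeff_form_single, if_pos hv]
  apply irreducible_of_totalDegree_eq_one
  · refine le_antisymm ?_ ?_
    · rw [form]
      refine (totalDegree_add _ _).trans (max_le ?_ ?_)
      · refine totalDegree_finsetSum_le fun w _ => ?_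
        rw [totalDegree_X]
      · rw [totalDegree_C]; exact Nat.zero_le _
    · have h2 := le_totalDegree (p := form S c) (s := Finsupp.single v 1) (by
        rw [mem_support_iff, h1]; exact one_ne_zero)
      simpa using h2
  · intro r hr
    have := hr (Finsupp.single v 1)
    rw [h1] at this
    exact isUnit_of_dvd_one this

theorem form_assoc {S T : Finset V} (hS : S.Nonempty) {c d : K}
    (h : Associated (form S c) (form T d)) : S = T ∧ c = d := by
  classical
  obtain ⟨u, hu⟩ := h
  obtain ⟨r, hr, hr'⟩ := MvPolynomial.isUnit_iff_eq_C_of_isReduced.1 u.isUnit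
  rw [hr'] at hu
  have h1 : ∀ v, (if v ∈ S then (1 : K) else 0) * r = if v ∈ T then 1 else 0 := by
    intro v
    rw [← coeff_form_single S c v, ← coeff_form_single T d v, ← hu, mul_comm (form S c),
      coeff_C_mul, mul_comm]
  have hr0 : r ≠ 0 := hr.ne_zero
  have hr1 : r = 1 := by
    obtain ⟨v, hv⟩ := hS
    have h2 := h1 v
    rw [if_pos hv, one_mul] at h2
    by_cases hvT : v ∈ T
    · rw [if_pos hvT] at h2; exact h2
    · rw [if_neg hvT] at h2; exact absurd h2 hr0
  subst hr1
  refine ⟨?_, ?_⟩
  · ext v
    have h2 := h1 v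
    by_cases hvS : v ∈ S <;> by_cases hvT : v ∈ T <;> simp [hvS, hvT] at h2 ⊢
  · rw [← coeff_form_zero S c, ← coeff_form_zero T d, ← hu]
    simp

theorem form_aux {J : Type} [Fintype J] (S : J → Finset V) (c : J → K)
    (hS : ∀ j, (S j).Nonempty) (hinj : Function.Injective fun j => (S j, c j))
    (m n : J → ℕ) (hmn : ∀ j, m j = 0 ∨ n j = 0) (r : K) (hr : r ≠ 0)
    (h : ∏ j, form (S j) (c j) ^ m j = C r * ∏ j, form (S j) (c j) ^ n j) (j : J) : m j = 0 := by
  classical
  by_contra hj
  have hp : Prime (form (S j) (c j)) := (form_irreducible (hS j) (c j)).prime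
  have h1 : form (S j) (c j) ∣ ∏ i, form (S i) (c i) ^ m i :=
    (dvd_pow_self _ hj).trans (Finset.dvd_prod_of_mem _ (Finset.mem_univ j))
  rw [h] at h1
  rcases hp.dvd_or_dvd h1 with h2 | h2
  · exact hp.not_unit (isUnit_of_dvd_unit h2 ((isUnit_iff_ne_zero.2 hr).map C))
  · obtain ⟨i, -, hi⟩ := (Prime.dvd_finset_prod_iff hp _).1 h2
    have hni : n i ≠ 0 := by
      intro h0
      rw [h0, pow_zero] at hi
      exact hp.not_unit (isUnit_of_dvd_one hi)
    have hij : form (S j) (c j) ∣ form (S i) (c i) := hp.dvd_of_dvd_pow hi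
    have h3 := (form_irreducible (hS j) (c j)).associated_of_dvd
      (form_irreducible (hS i) (c i)) hij
    obtain ⟨h4, h5⟩ := form_assoc (hS j) h3
    have h6 : j = i := hinj (Prod.ext h4 h5)
    subst h6
    rcases hmn j with h7 | h7
    · exact hj h7
    · exact hni h7

variable {L : Type} [Field L] [Algebra K L]

theorem aeval_form (t : V → L) (S : Finset V) (c : K) :
    aeval t (form S c) = ∑ v ∈ S, t v + algebraMap K L c := by
  simp [form]

theorem form_ne_zero {t : V → L} (ht : AlgebraicIndependent K t) {S : Finset V} (hS : S.Nonempty)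
    (c : K) : ∑ v ∈ S, t v + algebraMap K L c ≠ 0 := by
  rw [← aeval_form]
  intro h
  have h1 : form S c = 0 := ht (by rw [h, map_zero])
  exact (form_irreducible hS c).ne_zero h1

/-- Distinct linear forms in algebraically independent elements are multiplicatively independent
modulo the base field. -/
theorem mon_indep {J : Type} [Fintype J] {t : V → L} (ht : AlgebraicIndependent K t)
    (S : J → Finset V) (c : J → K) (hS : ∀ j, (S j).Nonempty)
    (hinj : Function.Injective fun j => (S j, c j)) (u : J → Lˣ)
    (hu : ∀ j, (u j : L) = ∑ v ∈ S j, t v + algebraMap K L (c j)) (e : J → ℤ) (r : Kˣ)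
    (h : mon u e = Units.map (algebraMap K L : K →* L) r) : e = 0 := by
  have hu' : ∀ j, (u j : L) = aeval t (form (S j) (c j)) := fun j => by rw [hu, aeval_form]
  have h1 := mon_toNat u e
  rw [h] at h1
  have h2 : ∏ j, form (S j) (c j) ^ (e j).toNat =
      C (r : K) * ∏ j, form (S j) (c j) ^ (-e j).toNat := by
    apply ht
    have h3 := congrArg (fun z : Lˣ => (z : L)) h1
    simp only [Units.val_mul, Units.coe_map, Units.coe_prod, Units.val_pow_eq_pow_val, hu'] at h3
    rw [map_mul, map_prod, map_prod]
    simp only [map_pow, algHom_C]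
    exact h3.symm
  have h3 : ∏ j, form (S j) (c j) ^ (-e j).toNat =
      C ((r : K)⁻¹) * ∏ j, form (S j) (c j) ^ (e j).toNat := by
    rw [h2, ← mul_assoc, ← C_mul, inv_mul_cancel₀ r.ne_zero, C_1, one_mul]
  funext j
  have h4 := form_aux S c hS hinj _ _ (fun j => by omega) _ r.ne_zero h2 j
  have h5 := form_aux S c hS hinj _ _ (fun j => by omega) _ (inv_ne_zero r.ne_zero) h3 j
  simp only [Pi.zero_apply]
  omega

end lin

section ext

variable {ι J V : Type} [Fintype ι] [Fintype J] {K L : Type} [Field K] [Field L] [Algebra K L]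

/-- The point `x` in the bigger field. -/
def up (L : Type) [Field L] [Algebra K L] (x : ι → Kˣ) : ι → Lˣ :=
  fun i => Units.map (algebraMap K L : K →* L) (x i)

omit [Fintype ι] in
theorem up_coe (x : ι → Kˣ) (i : ι) : ((up L x i : Lˣ) : L) = algebraMap K L (x i) := rfl

theorem mon_up (x : ι → Kˣ) (a : ι → ℤ) :
    mon (up L x) a = Units.map (algebraMap K L : K →* L) (mon x a) :=
  mon_map (algebraMap K L) x a

theorem mon_up_eq_one {x : ι → Kˣ} {a : ι → ℤ} : mon (up L x) a = 1 ↔ mon x a = 1 := by
  rw [mon_up]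
  constructor
  · intro h
    have h1 := congrArg (fun z : Lˣ => (z : L)) h
    simp only [Units.coe_map, Units.val_one] at h1
    exact Units.ext ((algebraMap K L).injective (h1.trans (map_one _).symm))
  · intro h
    rw [h, map_one]

theorem Rel_up (x : ι → Kˣ) : Rel (up L x) = Rel x := by
  ext a
  rw [mem_Rel, mem_Rel]
  refine exists_congr fun N => and_congr_right fun _ => ?_
  rw [← mon_nsmul, ← mon_nsmul, mon_up_eq_one]

/-- Extension of a point by new coordinates: the rank of the group of relations. -/
theorem rk_le_elim (x : ι → Kˣ) (u : J → Lˣ) : rk x ≤ rk (Sum.elim (up L x) u) := by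
  let f : (ι → ℤ) →ₗ[ℤ] (ι ⊕ J → ℤ) :=
    { toFun := fun a => Sum.elim a 0
      map_add' := fun a b => by
        funext i
        cases i <;> simp
      map_smul' := fun n a => by
        funext i
        cases i <;> simp }
  have hf : ∀ a ∈ Rel x, f a ∈ Rel (Sum.elim (up L x) u) := by
    intro a ha
    rw [← Rel_up (L := L)] at ha
    obtain ⟨N, hN, h⟩ := ha
    refine ⟨N, hN, ?_⟩
    rw [mon_sum_elim]
    have h0 : (fun j => f a (Sum.inr j)) = (0 : J → ℤ) := rfl
    have h1 : (fun i => f a (Sum.inl i)) = a := rfl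
    rw [h0, h1, mon_zero, mul_one, h]
  refine LinearMap.finrank_le_finrank_of_injective (f := f.restrict hf) ?_
  intro a b hab
  apply Subtype.ext
  funext i
  have h1 := congrArg (fun z : Rel (Sum.elim (up L x) u) => (z : ι ⊕ J → ℤ) (Sum.inl i)) hab
  exact h1

/-- Extension of a point by new coordinates: the relations. -/
theorem rel_elim {t : V → L} (ht : AlgebraicIndependent K t)
    {S : J → Finset V} {c : J → K} (hS : ∀ j, (S j).Nonempty)
    (hinj : Function.Injective fun j => (S j, c j)) {u : J → Lˣ}
    (hu : ∀ j, (u j : L) = ∑ v ∈ S j, t v + algebraMap K L (c j)) {x : ι → Kˣ} {a : ι ⊕ J → ℤ}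
    (h : mon (Sum.elim (up L x) u) a = 1) :
    (fun j => a (Sum.inr j)) = 0 ∧ mon x (fun i => a (Sum.inl i)) = 1 := by
  rw [mon_sum_elim] at h
  have h1 : (fun j => a (Sum.inr j)) = 0 := by
    refine mon_indep ht S c hS hinj u hu _ (mon x fun i => a (Sum.inl i))⁻¹ ?_
    rw [map_inv, ← mon_up]
    exact eq_inv_of_mul_eq_one_right h
  refine ⟨h1, ?_⟩
  rw [h1, mon_zero, mul_one] at h
  exact mon_up_eq_one.1 h

end ext

end Pool.Agent.V7H32.CP
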