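import Pool.Agent.V7H32.CP.Atyp

/-!
# The powers of the line
-/

set_option autoImplicit false

namespace Pool.Agent.V7H32.CP

open MvPolynomial IntermediateField

theorem sp_hom {J S M N : Type} [Field S] [Field M] [Field N] [CharZero S] [CharZero M]
    [CharZero N] (g : S →+* M) (g' : S →+* N) (s : J → S) :
    Sp ℚ (fun i => g (s i)) (fun i => g' (s i)) := by
  intro f hf
  have h1 : aeval (fun i => g (s i)) f = g (aeval s f) := by
    have h2 : (aeval (fun i => g (s i)) : MvPolynomial J ℚ →ₐ[ℚ] M) =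
        g.toRatAlgHom.comp (aeval s) := by
      ext i
      simp
    rw [h2]
    rfl
  have h1' : aeval (fun i => g' (s i)) f = g' (aeval s f) := by
    have h2 : (aeval (fun i => g' (s i)) : MvPolynomial J ℚ →ₐ[ℚ] N) =
        g'.toRatAlgHom.comp (aeval s) := by
      ext i
      simp
    rw [h2]
    rfl
  rw [h1] at hf
  rw [h1', (map_eq_zero g).1 hf, map_zero]

/-- Fields generated by algebraically independent elements. -/
theorem repr_hom {k B K L : Type} [Field k] [Field K] [Field L] [Algebra k K] [Algebra k L]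
    {x : B → K} (hx : AlgebraicIndependent k x) {t : B → L} (ht : AlgebraicIndependent k t) :
    ∃ j : adjoin k (Set.range x) →+* L, ∀ b, j ⟨x b, subset_adjoin _ _ ⟨b, rfl⟩⟩ = t b := by
  refine ⟨((adjoin k (Set.range t)).val.comp
    (hx.aevalEquivField.symm.trans ht.aevalEquivField).toAlgHom).toRingHom, fun b => ?_⟩
  have h1 : hx.aevalEquivField (algebraMap (MvPolynomial B k) (FractionRing (MvPolynomial B k))
      (X b)) =
      ⟨x b, subset_adjoin _ _ ⟨b, rfl⟩⟩ := by
    apply Subtype.ext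
    rw [hx.aevalEquivField_algebraMap_apply_coe, aeval_X]
  rw [← h1]
  show ((ht.aevalEquivField (hx.aevalEquivField.symm (hx.aevalEquivField _)) :
    adjoin k (Set.range t)) : L) = t b
  rw [AlgEquiv.symm_apply_apply, ht.aevalEquivField_algebraMap_apply_coe, aeval_X]

/-- A point over the rational numbers as a point over the complex numbers of the same dimension. -/
theorem exists_lift {J : Type} [Fintype J] {K : Type} [Field K] [CharZero K] (x : J → Kˣ) :
    ∃ (L : Type) (_ : Field L) (_ : Algebra ℂ L) (_ : CharZero L) (x' : J → Lˣ),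
      Sp ℚ (cx x) (cx x') ∧ Sp ℚ (cx x') (cx x) ∧ td ℚ (cx x) ≤ td ℂ (cx x') := by
  classical
  obtain ⟨B, hB1, hB3, hB2⟩ := exists_basis ℚ (cx x)
  have hBfin : Finite B := by infer_instance
  have hBft : Fintype B := Fintype.ofFinite B
  let L0 := FractionRing (MvPolynomial B ℂ)
  let L := AlgebraicClosure L0
  have hL0 : CharZero L := charZero_of_injective_algebraMap (algebraMap ℂ L).injective
  let t : B → L := fun b => algebraMap L0 L (algebraMap (MvPolynomial B ℂ) L0 (X b))
  have ht : AlgebraicIndependent ℂ t := by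
    have h1 := (MvPolynomial.algebraicIndependent_X B ℂ).map'
      (f := IsScalarTower.toAlgHom ℂ (MvPolynomial B ℂ) L0)
      (IsFractionRing.injective (MvPolynomial B ℂ) L0)
    exact h1.map' (f := IsScalarTower.toAlgHom ℂ L0 L) (algebraMap L0 L).injective
  have tow : IsScalarTower ℚ ℂ L := IsScalarTower.of_algebraMap_eq' (Subsingleton.elim _ _)
  have ht' : AlgebraicIndependent ℚ t := ht.restrictScalars (algebraMap ℚ ℂ).injective
  let F := adjoin ℚ (Set.range fun i : B => cx x i)
  have hxF : ∀ b : B, cx x b ∈ F := fun b => subset_adjoin _ _ ⟨b, rfl⟩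
  obtain ⟨j, hj⟩ : ∃ j : F →+* L, ∀ b : B, j ⟨cx x b, hxF b⟩ = t b := repr_hom hB1 ht'
  let _ : Algebra F L := j.toAlgebra
  let S := adjoin F (Set.range (cx x))
  have hS : Algebra.IsAlgebraic F S := by
    apply IntermediateField.isAlgebraic_adjoin
    rintro _ ⟨i, rfl⟩
    exact (hB3 i).isIntegral
  let Λ : S →ₐ[F] L := IsAlgClosed.lift
  have hS0 : CharZero S := charZero_of_injective_algebraMap (algebraMap F S).injective
  let xS : J → S := fun i => ⟨cx x i, subset_adjoin _ _ ⟨i, rfl⟩⟩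
  have hxS0 : ∀ i, xS i ≠ 0 := by
    intro i h0
    have h1 := congrArg (fun z : S => (z : K)) h0
    exact (x i).ne_zero h1
  have hx0 : ∀ i, Λ (xS i) ≠ 0 := fun i h0 => hxS0 i ((map_eq_zero Λ).1 h0)
  let x' : J → Lˣ := fun i => Units.mk0 (Λ (xS i)) (hx0 i)
  have h1 : cx x = fun i => (algebraMap S K) (xS i) := rfl
  have h2 : cx x' = fun i => (Λ : S →+* L) (xS i) := rfl
  refine ⟨L, inferInstance, inferInstance, hL0, x', ?_, ?_, ?_⟩
  · rw [h1, h2]
    exact sp_hom _ _ _
  · rw [h1, h2]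
    exact sp_hom _ _ _
  · have h3 : td ℚ (cx x) = Fintype.card B := by
      have h4 : (td ℚ (cx x) : Cardinal) = Fintype.card B := by
        rw [coe_td, ← hB2, Cardinal.mk_fintype]
      exact_mod_cast h4
    rw [h3]
    refine (card_le_td ht).trans (td_mono fun b => ?_)
    have h5 : t b = cx x' b := by
      rw [h2, ← hj b]
      show j ⟨cx x b, hxF b⟩ = Λ (xS b)
      have h6 : xS b = algebraMap F S ⟨cx x b, hxF b⟩ := rfl
      rw [h6, AlgHom.commutes]
      rfl
    rw [h5]
    exact subset_adjoin _ _ ⟨b, rfl⟩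

/-- The generic point of the power of the line. -/
theorem line_pt (r : ℕ) : ∃ (K : Type) (_ : Field K) (_ : Algebra ℂ K)
    (u : Fin r × Fin 2 → Kˣ), line r = loc u ∧ td ℂ (cx u) = r := by
  classical
  let L := FractionRing (MvPolynomial (Fin r) ℂ)
  let t0 : Fin r → L := fun j => algebraMap (MvPolynomial (Fin r) ℂ) L (X j)
  have ht : AlgebraicIndependent ℂ t0 :=
    (MvPolynomial.algebraicIndependent_X (Fin r) ℂ).map'
      (f := IsScalarTower.toAlgHom ℂ (MvPolynomial (Fin r) ℂ) L)
      (IsFractionRing.injective (MvPolynomial (Fin r) ℂ) L)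
  have h1 : ∀ i, 1 - t0 i ≠ 0 := by
    intro i h0
    have h2 := form_ne_zero ht (S := {i}) (Finset.singleton_nonempty i) (-1)
    rw [Finset.sum_singleton, map_neg, map_one] at h2
    apply h2
    linear_combination -h0
  let u : Fin r × Fin 2 → Lˣ := fun q => if q.2 = 0 then Units.mk0 (t0 q.1) (ht.ne_zero q.1) else
    Units.mk0 (1 - t0 q.1) (h1 q.1)
  have hu0 : ∀ i, (u (i, 0) : L) = t0 i := fun i => by simp [u]
  have hu1 : ∀ i, (u (i, 1) : L) = 1 - t0 i := fun i => by simp [u]
  refine ⟨L, inferInstance, inferInstance, u, ?_, ?_⟩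
  · ext y
    constructor
    · rintro ⟨hy, hy1⟩
      refine ⟨hy, fun f hf => ?_⟩
      rw [mem_kr] at hf
      let g : MvPolynomial (Fin r) ℂ := aeval (fun q : Fin r × Fin 2 => if q.2 = 0 then X q.1 else
        1 - X q.1) f
      have h2 : aeval (cx u) f = aeval t0 g := by
        have h3 : (aeval (cx u) : MvPolynomial (Fin r × Fin 2) ℂ →ₐ[ℂ] L) =
            (aeval t0).comp (aeval fun q : Fin r × Fin 2 => if q.2 = 0 then X q.1 else
              1 - X q.1) := by
          ext ⟨i, j⟩
          fin_cases j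
          · simp [hu0]
          · simp [hu1]
        rw [h3]
        rfl
      have h3 : g = 0 := ht (by rw [← h2, hf, map_zero])
      have h4 : eval y f = eval (fun i => y (i, 0)) g := by
        have h5 : (aeval y : MvPolynomial (Fin r × Fin 2) ℂ →ₐ[ℂ] ℂ) =
            (aeval fun i => y (i, 0)).comp (aeval fun q : Fin r × Fin 2 => if q.2 = 0 then X q.1 else
              1 - X q.1) := by
          ext ⟨i, j⟩
          fin_cases j
          · simp
          · simp [← hy1 i]
        have h6 := congrArg (fun φ : MvPolynomial (Fin r × Fin 2) ℂ →ₐ[ℂ] ℂ => φ f) h5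
        simp only [AlgHom.comp_apply] at h6
        rw [aeval_eq_eval, aeval_eq_eval] at h6
        exact h6
      rw [h4, h3, map_zero]
    · rintro ⟨hy, hy1⟩
      refine ⟨hy, fun i => ?_⟩
      have h2 := hy1 (X (i, 0) + X (i, 1) - 1) (by
        rw [mem_kr, map_sub, map_add, aeval_X, aeval_X, map_one, cx_apply, cx_apply, hu0, hu1]
        ring)
      rw [map_sub, map_add, eval_X, eval_X, map_one] at h2
      exact sub_eq_zero.1 h2
  · apply le_antisymm
    · have h2 : td ℂ (cx u) ≤ td ℂ t0 := by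
        have m0 : ∀ i, t0 i ∈ adjoin ℂ (Set.range t0) := fun i => subset_adjoin _ _ ⟨i, rfl⟩
        refine td_mono ?_
        rintro ⟨i, j⟩
        fin_cases j
        · show (u (i, 0) : L) ∈ _
          rw [hu0]
          exact m0 i
        · show (u (i, 1) : L) ∈ _
          rw [hu1]
          exact sub_mem (one_mem _) (m0 i)
      refine h2.trans ?_
      have h3 := td_le_card (k := ℂ) t0
      rwa [Fintype.card_fin] at h3
    · have h2 : Fintype.card (Fin r) ≤ td ℂ t0 := card_le_td ht
      rw [Fintype.card_fin] at h2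
      refine h2.trans (td_mono fun i => ?_)
      rw [← hu0]
      exact subset_adjoin _ _ ⟨(i, 0), rfl⟩

/-- Transport of a point by a bijection of the index sets. -/
theorem rk_comp {J J' K : Type} [Fintype J] [Fintype J'] [Field K] (x : J → Kˣ) (σ : J' ≃ J) :
    rk x ≤ rk (fun j => x (σ j)) := by
  have hmon : ∀ a : J → ℤ, mon (fun j => x (σ j)) (fun j => a (σ j)) = mon x a := by
    intro a
    exact Fintype.prod_equiv σ _ _ fun j => rfl
  let f : (J → ℤ) →ₗ[ℤ] (J' → ℤ) :=
    { toFun := fun a j => a (σ j)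
      map_add' := fun _ _ => rfl
      map_smul' := fun _ _ => rfl }
  have hf : ∀ a ∈ Rel x, f a ∈ Rel (fun j => x (σ j)) := by
    rintro a ⟨N, hN, h⟩
    refine ⟨N, hN, ?_⟩
    show mon (fun j => x (σ j)) (fun j => a (σ j)) ^ N = 1
    rw [hmon, h]
  refine LinearMap.finrank_le_finrank_of_injective (f := f.restrict hf) ?_
  intro a b hab
  apply Subtype.ext
  funext i
  have h1 := congrArg (fun z : Rel (fun j => x (σ j)) => (z : J' → ℤ) (σ.symm i)) hab
  have h2 : (a : J → ℤ) (σ (σ.symm i)) = (b : J → ℤ) (σ (σ.symm i)) := h1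
  rwa [Equiv.apply_symm_apply] at h2

theorem td_comp {J J' k K : Type} [Fintype J] [Fintype J'] [Field k] [Field K] [Algebra k K]
    (x : J → K) (σ : J' ≃ J) : td k x ≤ td k (fun j => x (σ j)) :=
  td_mono fun i => subset_adjoin _ _ ⟨σ.symm i, by simp⟩

theorem MF_transport {ρ ρ' : Type} [Fintype ρ] [Fintype ρ'] (e : ρ' ≃ ρ) (h : MF ρ) : MF ρ' := by
  obtain ⟨S, hS, hS1, hS2⟩ := h
  let σ : ρ' × Fin 2 ≃ ρ × Fin 2 := Equiv.prodCongr e (Equiv.refl _)
  have hcard : Fintype.card ρ' = Fintype.card ρ := Fintype.card_congr e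
  have hker : ∀ (K : Type) [Field K] [CharZero K] (y : ρ × Fin 2 → Kˣ),
      RingHom.ker (aeval (cx fun j => y (σ j)) : MvPolynomial (ρ' × Fin 2) ℚ →ₐ[ℚ] K) =
      Ideal.comap (rename σ : MvPolynomial (ρ' × Fin 2) ℚ →ₐ[ℚ] _)
        (RingHom.ker (aeval (cx y) : MvPolynomial (ρ × Fin 2) ℚ →ₐ[ℚ] K)) := by
    intro K _ _ y
    ext f
    rw [Ideal.mem_comap, RingHom.mem_ker, RingHom.mem_ker]
    show _ ↔ aeval (cx y) (rename σ f) = 0
    rw [aeval_rename]
    rfl
  refine ⟨(fun p => Ideal.comap (rename σ : MvPolynomial (ρ' × Fin 2) ℚ →ₐ[ℚ] _) p) '' S,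
    hS.image _, ?_, ?_⟩
  · rintro _ ⟨p, hp, rfl⟩
    obtain ⟨K, i1, i2, y, hy1, hy2, hy3⟩ := hS1 p hp
    refine ⟨K, i1, i2, fun j => y (σ j), fun r => hy1 (e r), ?_, ?_⟩
    · have h1 := rk_comp y σ
      have h2 := td_comp (k := ℚ) (cx y) σ
      rw [hcard]
      exact hy2.trans_le (Nat.add_le_add h2 h1)
    · rw [hker, hy3]
  · intro K _ _ x hx hd
    have h1 := rk_comp x σ.symm
    have h2 := td_comp (k := ℚ) (cx x) σ.symm
    obtain ⟨p, hp, hpx⟩ := hS2 K (fun j => x (σ.symm j)) (fun r => hx (e.symm r)) (by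
      rw [← hcard]
      exact hd.trans_le (Nat.add_le_add h2 h1))
    refine ⟨_, ⟨p, hp, rfl⟩, ?_⟩
    have h3 := hker K fun j => x (σ.symm j)
    have h4 : (fun j => (fun j => x (σ.symm j)) (σ j)) = x := by
      funext j
      simp
    rw [h4] at h3
    rw [h3]
    exact Ideal.comap_mono hpx

end Pool.Agent.V7H32.CP
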