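import Mathlib

/-!
# Points of tori: monomials, relations, specializations
-/

set_option autoImplicit false

namespace Pool.Agent.V7H32.CP

open MvPolynomial

section mon

variable {ι κ : Type} [Fintype ι] [Fintype κ] {K L : Type} [Field K] [Field L]

/-- The monomial with the exponent vector `a` at the point `x`. -/
def mon (x : ι → Kˣ) (a : ι → ℤ) : Kˣ := ∏ i, x i ^ a i

/-- The coordinates of `x` as elements of the field. -/
def cx (x : ι → Kˣ) : ι → K := fun i => (x i : K)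

omit [Fintype ι] in
@[simp] theorem cx_apply (x : ι → Kˣ) (i : ι) : cx x i = (x i : K) := rfl

@[simp] theorem mon_zero (x : ι → Kˣ) : mon x 0 = 1 := by simp [mon]

theorem mon_add (x : ι → Kˣ) (a b : ι → ℤ) : mon x (a + b) = mon x a * mon x b := by
  simp [mon, zpow_add, Finset.prod_mul_distrib]

theorem mon_neg (x : ι → Kˣ) (a : ι → ℤ) : mon x (-a) = (mon x a)⁻¹ := by
  simp [mon, Finset.prod_inv_distrib]

theorem mon_sub (x : ι → Kˣ) (a b : ι → ℤ) : mon x (a - b) = mon x a / mon x b := by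
  rw [sub_eq_add_neg, mon_add, mon_neg, div_eq_mul_inv]

theorem mon_smul (x : ι → Kˣ) (n : ℤ) (a : ι → ℤ) : mon x (n • a) = mon x a ^ n := by
  simp only [mon, Pi.smul_apply, smul_eq_mul, ← Finset.prod_zpow]
  refine Finset.prod_congr rfl fun i _ => ?_
  rw [mul_comm, zpow_mul]

theorem mon_nsmul (x : ι → Kˣ) (n : ℕ) (a : ι → ℤ) : mon x (n • a) = mon x a ^ n := by
  rw [← natCast_zsmul, mon_smul, zpow_natCast]

theorem mon_sum {σ : Type} (s : Finset σ) (x : ι → Kˣ) (f : σ → ι → ℤ) :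
    mon x (∑ j ∈ s, f j) = ∏ j ∈ s, mon x (f j) := by
  classical
  induction s using Finset.induction_on with
  | empty => simp
  | insert a s ha ih => rw [Finset.sum_insert ha, Finset.prod_insert ha, mon_add, ih]

theorem mon_single [DecidableEq ι] (x : ι → Kˣ) (i : ι) : mon x (Pi.single i 1) = x i := by
  rw [mon, Finset.prod_eq_single i]
  · simp
  · intro j _ hj
    simp [Pi.single_eq_of_ne hj]
  · simp

theorem mon_map (f : K →+* L) (x : ι → Kˣ) (a : ι → ℤ) :
    mon (fun i => Units.map (f : K →* L) (x i)) a = Units.map (f : K →* L) (mon x a) := by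
  simp [mon, map_prod, map_zpow]

/-- A vector on `ι ⊕ κ`. -/
theorem mon_sum_elim (x : ι → Kˣ) (y : κ → Kˣ) (a : ι ⊕ κ → ℤ) :
    mon (Sum.elim x y) a = mon x (fun i => a (Sum.inl i)) * mon y (fun i => a (Sum.inr i)) := by
  simp [mon, Fintype.prod_sum_type]

/-- The lattice of the exponent vectors of the monomials whose values are roots of unity. -/
def Rel (x : ι → Kˣ) : Submodule ℤ (ι → ℤ) where
  carrier := {a | ∃ N : ℕ, 0 < N ∧ mon x a ^ N = 1}
  add_mem' := by
    rintro a b ⟨N, hN, h⟩ ⟨M, hM, h'⟩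
    refine ⟨N * M, Nat.mul_pos hN hM, ?_⟩
    rw [mon_add, mul_pow, pow_mul, h, one_pow, one_mul, mul_comm N M, pow_mul, h', one_pow]
  zero_mem' := ⟨1, one_pos, by simp⟩
  smul_mem' := by
    rintro n a ⟨N, hN, h⟩
    refine ⟨N, hN, ?_⟩
    rw [mon_smul, ← zpow_natCast, ← zpow_mul, mul_comm, zpow_mul, zpow_natCast, h, one_zpow]

theorem mem_Rel {x : ι → Kˣ} {a : ι → ℤ} : a ∈ Rel x ↔ ∃ N : ℕ, 0 < N ∧ mon x a ^ N = 1 := Iff.rfl

/-- The number of independent relations. -/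
noncomputable def rk (x : ι → Kˣ) : ℕ := Module.finrank ℤ (Rel x)

theorem Rel_sat {x : ι → Kˣ} {a : ι → ℤ} {n : ℤ} (hn : n ≠ 0) (h : n • a ∈ Rel x) : a ∈ Rel x := by
  obtain ⟨N, hN, h1⟩ := h
  refine ⟨n.natAbs * N, Nat.mul_pos (Int.natAbs_pos.2 hn) hN, ?_⟩
  rw [mon_smul] at h1
  rw [pow_mul]
  rcases Int.natAbs_eq n with h2 | h2
  · rw [h2, zpow_natCast] at h1
    exact h1
  · rw [h2, zpow_neg, zpow_natCast, inv_pow, inv_eq_one] at h1
    exact h1

/-- The difference of two monomials that vanishes where the monomial of exponent `a` is one. -/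
noncomputable def bin (k : Type) [CommRing k] (a : ι → ℤ) : MvPolynomial ι k :=
  ∏ i, X i ^ (a i).toNat - ∏ i, X i ^ (-a i).toNat

theorem mon_toNat (x : ι → Kˣ) (a : ι → ℤ) :
    mon x a * ∏ i, x i ^ (-a i).toNat = ∏ i, x i ^ (a i).toNat := by
  rw [mon, ← Finset.prod_mul_distrib]
  refine Finset.prod_congr rfl fun i _ => ?_
  rw [← zpow_natCast, ← zpow_natCast, ← zpow_add]
  congr 1
  have := Int.toNat_sub_toNat_neg (a i)
  omega

variable {k : Type} [CommRing k] [Algebra k K] [Algebra k L]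

theorem aeval_bin (x : ι → Kˣ) (a : ι → ℤ) : aeval (cx x) (bin k a) = 0 ↔ mon x a = 1 := by
  rw [bin, map_sub, sub_eq_zero]
  simp only [map_prod, map_pow, aeval_X, cx_apply]
  have h := mon_toNat x a
  have h1 : ((∏ i, x i ^ (a i).toNat : Kˣ) : K) = ∏ i, (x i : K) ^ (a i).toNat := by simp
  have h2 : ((∏ i, x i ^ (-a i).toNat : Kˣ) : K) = ∏ i, (x i : K) ^ (-a i).toNat := by simp
  rw [← h1, ← h2, Units.val_inj, ← h]
  exact mul_eq_right

/-- `x` is a specialization of `y` over `k`. -/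
def Sp (k : Type) [CommRing k] {K L : Type} [Field K] [Field L] [Algebra k K] [Algebra k L]
    (y : ι → K) (x : ι → L) : Prop :=
  ∀ f : MvPolynomial ι k, aeval y f = 0 → aeval x f = 0

theorem Sp.mon {y : ι → Kˣ} {x : ι → Lˣ} (h : Sp k (cx y) (cx x)) {a : ι → ℤ}
    (ha : mon y a = 1) : CP.mon x a = 1 :=
  (aeval_bin (k := k) x a).1 (h _ ((aeval_bin (k := k) y a).2 ha))

theorem Sp.rel {y : ι → Kˣ} {x : ι → Lˣ} (h : Sp k (cx y) (cx x)) : Rel y ≤ Rel x := by
  rintro a ⟨N, hN, h1⟩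
  refine ⟨N, hN, ?_⟩
  rw [← mon_nsmul] at h1 ⊢
  exact h.mon h1

theorem Sp.rk {y : ι → Kˣ} {x : ι → Lˣ} (h : Sp k (cx y) (cx x)) : CP.rk y ≤ CP.rk x :=
  Submodule.finrank_mono h.rel

/-- A root of unity which specializes to one is one. -/
theorem Sp.one [CharZero L] {y : ι → Kˣ} {x : ι → Lˣ} (h : Sp k (cx y) (cx x)) {a : ι → ℤ}
    (hy : a ∈ Rel y) (hx : CP.mon x a = 1) : CP.mon y a = 1 := by
  obtain ⟨N, hN, h1⟩ := hy
  by_contra h2
  let p : MvPolynomial ι k := ∏ i, X i ^ (a i).toNat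
  let q : MvPolynomial ι k := ∏ i, X i ^ (-a i).toNat
  let f : MvPolynomial ι k := ∑ j ∈ Finset.range N, p ^ j * q ^ (N - 1 - j)
  have hp : ∀ {M : Type} [Field M] [Algebra k M] (z : ι → Mˣ),
      aeval (cx z) p = (((CP.mon z a * ∏ i, z i ^ (-a i).toNat : Mˣ)) : M) := by
    intro M _ _ z
    rw [mon_toNat]
    simp [p]
  have hq : ∀ {M : Type} [Field M] [Algebra k M] (z : ι → Mˣ),
      aeval (cx z) q = (((∏ i, z i ^ (-a i).toNat : Mˣ)) : M) := by
    intro M _ _ z
    simp [q]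
  have hf1 : aeval (cx y) f = 0 := by
    have h3 : aeval (cx y) f * (aeval (cx y) p - aeval (cx y) q) = 0 := by
      rw [← map_sub, ← map_mul, geom_sum₂_mul, map_sub, map_pow, map_pow, hp, hq, sub_eq_zero,
        ← Units.val_pow_eq_pow_val, ← Units.val_pow_eq_pow_val, mul_pow, h1, one_mul]
    rcases mul_eq_zero.1 h3 with h4 | h4
    · exact h4
    · rw [hp, hq, sub_eq_zero, Units.val_inj] at h4
      exact absurd (mul_eq_right.1 h4) h2
  have hf2 := h f hf1
  simp only [f, map_sum, map_mul, map_pow] at hf2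
  rw [hp, hq, hx, one_mul] at hf2
  have h5 : ∀ j ∈ Finset.range N, (((∏ i, x i ^ (-a i).toNat : Lˣ)) : L) ^ j *
      (((∏ i, x i ^ (-a i).toNat : Lˣ)) : L) ^ (N - 1 - j) =
      (((∏ i, x i ^ (-a i).toNat : Lˣ)) : L) ^ (N - 1) := by
    intro j hj
    rw [← pow_add]
    congr 1
    have := Finset.mem_range.1 hj
    omega
  rw [Finset.sum_congr rfl h5, Finset.sum_const, Finset.card_range, nsmul_eq_mul] at hf2
  rcases mul_eq_zero.1 hf2 with h6 | h6
  · exact absurd (Nat.cast_eq_zero.1 h6) hN.ne'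
  · exact pow_ne_zero _ (Units.ne_zero _) h6

end mon

end Pool.Agent.V7H32.CP
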