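import Pool.Agent.V7H32.CP.Bwd

/-!
# Smaller powers of the line
-/

set_option autoImplicit false

namespace Pool.Agent.V7H32.CP

open MvPolynomial IntermediateField

section mono

variable {ρ τ : Type} [Fintype ρ] [Fintype τ]

/-- The point of the smaller power. -/
def pr {K : Type} [Field K] (y : (ρ ⊕ τ) × Fin 2 → Kˣ) : ρ × Fin 2 → Kˣ :=
  fun q => y (Sum.inl q.1, q.2)

/-- The vector of exponents, extended by zero. -/
def exq (a : ρ × Fin 2 → ℤ) : (ρ ⊕ τ) × Fin 2 → ℤ :=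
  fun q => Sum.elim (fun r => a (r, q.2)) (fun _ => 0) q.1

theorem mon_split {K : Type} [Field K] (y : (ρ ⊕ τ) × Fin 2 → Kˣ) (a : (ρ ⊕ τ) × Fin 2 → ℤ) :
    mon y a = mon (pr y) (fun q => a (Sum.inl q.1, q.2)) *
      mon (fun q : τ × Fin 2 => y (Sum.inr q.1, q.2)) (fun q => a (Sum.inr q.1, q.2)) := by
  simp only [mon, pr]
  rw [Fintype.prod_prod_type, Fintype.prod_sum_type, Fintype.prod_prod_type,
    Fintype.prod_prod_type]

theorem td_big {K L : Type} [Field K] [CharZero K] [Field L] [CharZero L] [Algebra K L]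
    {t : τ → L} (ht : AlgebraicIndependent K t) (x : ρ × Fin 2 → Kˣ)
    (X' : (ρ ⊕ τ) × Fin 2 → Lˣ) (h1 : pr X' = up L x)
    (h2 : ∀ i, t i = -((X' (Sum.inr i, 0) : Lˣ) : L)) :
    td ℚ (cx x) + Fintype.card τ ≤ td ℚ (cx X') := by
  have tow : IsScalarTower ℚ K L := IsScalarTower.of_algebraMap_eq' (Subsingleton.elim _ _)
  refine td_add_le (fun q => ?_) ht fun i => ?_
  · have h3 : algebraMap K L (cx x q) = cx X' (Sum.inl q.1, q.2) :=
      congrArg (fun z : Lˣ => (z : L)) (congrFun h1 q).symm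
    rw [h3]
    exact subset_adjoin _ _ ⟨(Sum.inl q.1, q.2), rfl⟩
  · rw [h2]
    exact neg_mem (subset_adjoin _ _ ⟨(Sum.inr i, 0), rfl⟩)

/-- The extended point. -/
theorem exists_big {K : Type} [Field K] [CharZero K] (x : ρ × Fin 2 → Kˣ) (hx : OnLine x) :
    ∃ (L : Type) (_ : Field L) (_ : CharZero L) (X : (ρ ⊕ τ) × Fin 2 → Lˣ), OnLine X ∧
      td ℚ (cx x) + Fintype.card τ ≤ td ℚ (cx X) ∧ rk x ≤ rk X ∧
      (∀ a ∈ Rel X, ∀ q : τ × Fin 2, a (Sum.inr q.1, q.2) = 0) ∧
      Sp ℚ (cx (pr X)) (cx x) := by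
  classical
  let L := FractionRing (MvPolynomial τ K)
  let t : τ → L := fun v => algebraMap (MvPolynomial τ K) L (X v)
  have ht : AlgebraicIndependent K t :=
    (MvPolynomial.algebraicIndependent_X τ K).map'
      (f := IsScalarTower.toAlgHom K (MvPolynomial τ K) L)
      (IsFractionRing.injective (MvPolynomial τ K) L)
  have hL0 : CharZero L := charZero_of_injective_algebraMap (algebraMap K L).injective
  let S : τ × Fin 2 → Finset τ := fun q => {q.1}
  let c : τ × Fin 2 → K := fun q => if q.2 = 0 then 0 else 1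
  have hS : ∀ q, (S q).Nonempty := fun q => Finset.singleton_nonempty _
  have hinj : Function.Injective fun q => (S q, c q) := by
    rintro ⟨i, j⟩ ⟨i', j'⟩ h
    simp only [S, c, Prod.mk.injEq, Finset.singleton_inj] at h
    obtain ⟨h1, h2⟩ := h
    subst h1
    fin_cases j <;> fin_cases j' <;> simp_all
  let u : τ × Fin 2 → Lˣ := fun q => Units.mk0 _ (form_ne_zero ht (hS q) (c q))
  have hu : ∀ q, (u q : L) = ∑ v ∈ S q, t v + algebraMap K L (c q) := fun q => rfl
  have hu0 : ∀ i, (u (i, 0) : L) = t i := fun i => by rw [hu]; simp [S, c]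
  have hu1 : ∀ i, (u (i, 1) : L) = t i + 1 := fun i => by rw [hu]; simp [S, c]
  let w : τ × Fin 2 → Lˣ := fun q => if q.2 = 0 then -u q else u q
  have hw2 : ∀ q, w q ^ 2 = u q ^ 2 := by
    intro q
    simp only [w]
    split_ifs
    · rw [neg_sq]
    · rfl
  let X' : (ρ ⊕ τ) × Fin 2 → Lˣ := fun q => Sum.elim (fun r => up L x (r, q.2))
    (fun i => w (i, q.2)) q.1
  have hprX : pr X' = up L x := rfl
  have hXr : (fun q : τ × Fin 2 => X' (Sum.inr q.1, q.2)) = w := rfl
  refine ⟨L, inferInstance, hL0, X', ?_, ?_, ?_, ?_, ?_⟩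
  · rintro (r | i)
    · show ((up L x (r, 0) : Lˣ) : L) + (up L x (r, 1) : Lˣ) = 1
      rw [up_coe, up_coe, ← map_add, hx r, map_one]
    · show ((w (i, 0) : Lˣ) : L) + (w (i, 1) : Lˣ) = 1
      have h1 : ((w (i, 0) : Lˣ) : L) = -t i := by
        simp only [w, if_true, Units.val_neg, hu0]
      have h2 : ((w (i, 1) : Lˣ) : L) = t i + 1 := by
        simp only [w, one_ne_zero, if_false, hu1]
      rw [h1, h2]
      ring
  · refine td_big ht x X' hprX fun i => ?_
    show t i = -((w (i, 0) : Lˣ) : L)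
    simp only [w, if_true, Units.val_neg, hu0, neg_neg]
  · let f : (ρ × Fin 2 → ℤ) →ₗ[ℤ] ((ρ ⊕ τ) × Fin 2 → ℤ) :=
      { toFun := exq
        map_add' := fun a b => by
          funext q
          obtain ⟨r | i, j⟩ := q <;> simp [exq]
        map_smul' := fun n a => by
          funext q
          obtain ⟨r | i, j⟩ := q <;> simp [exq] }
    have hf : ∀ a ∈ Rel x, f a ∈ Rel X' := by
      intro a ha
      rw [← Rel_up (L := L)] at ha
      obtain ⟨N, hN, h⟩ := ha
      refine ⟨N, hN, ?_⟩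
      rw [mon_split, hprX]
      have h0 : (fun q : τ × Fin 2 => f a (Sum.inr q.1, q.2)) = 0 := rfl
      have h1 : (fun q : ρ × Fin 2 => f a (Sum.inl q.1, q.2)) = a := rfl
      rw [h0, h1, mon_zero, mul_one, h]
    refine LinearMap.finrank_le_finrank_of_injective (f := f.restrict hf) ?_
    intro a b hab
    apply Subtype.ext
    funext q
    exact congrArg (fun z : Rel X' => (z : (ρ ⊕ τ) × Fin 2 → ℤ) (Sum.inl q.1, q.2)) hab
  · rintro a ⟨N, hN, h⟩ q
    rw [mon_split, hprX, hXr, mul_pow] at h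
    have h1 : mon w (fun q => a (Sum.inr q.1, q.2)) ^ 2 =
        mon u (fun q => a (Sum.inr q.1, q.2)) ^ 2 := by
      rw [mon, mon, ← Finset.prod_pow, ← Finset.prod_pow]
      refine Finset.prod_congr rfl fun q _ => ?_
      rw [← zpow_natCast, ← zpow_natCast, ← zpow_mul, ← zpow_mul, mul_comm, zpow_mul, zpow_mul]
      simp only [zpow_natCast]
      rw [hw2]
    have h2 : mon u ((N * 2) • fun q : τ × Fin 2 => a (Sum.inr q.1, q.2)) =
        Units.map (algebraMap K L : K →* L)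
          ((mon x (fun q => a (Sum.inl q.1, q.2)) ^ N) ^ 2)⁻¹ := by
      rw [map_inv, map_pow, map_pow, ← mon_up, mon_nsmul, mul_comm, pow_mul, ← h1, ← pow_mul,
        mul_comm 2 N, pow_mul, ← inv_pow]
      congr 1
      exact eq_inv_of_mul_eq_one_right h
    have h3 := mon_indep ht S c hS hinj u hu _ _ h2
    have h4 := congrFun h3 q
    simp only [Pi.smul_apply, Pi.zero_apply] at h4
    have h5 : ((N * 2 : ℕ) : ℤ) * a (Sum.inr q.1, q.2) = 0 := by
      rw [← nsmul_eq_mul]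
      exact h4
    rcases mul_eq_zero.1 h5 with h6 | h6
    · exfalso
      have : N * 2 = 0 := by exact_mod_cast h6
      omega
    · exact h6
  · rw [hprX]
    have h1 : cx (up L x) = fun q => (algebraMap K L) (cx x q) := rfl
    have h2 : cx x = fun q => (RingHom.id K) (cx x q) := rfl
    rw [h1]
    conv => arg 3; rw [h2]
    exact sp_hom _ _ _

theorem MF_mono (h : MF (ρ ⊕ τ)) : MF ρ := by
  obtain ⟨S, hS, hS1, hS2⟩ := h
  have hker : ∀ (K : Type) [Field K] [CharZero K] (y : (ρ ⊕ τ) × Fin 2 → Kˣ),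
      RingHom.ker (aeval (cx (pr y)) : MvPolynomial (ρ × Fin 2) ℚ →ₐ[ℚ] K) =
      Ideal.comap (rename (fun q : ρ × Fin 2 => ((Sum.inl q.1 : ρ ⊕ τ), q.2)) :
        MvPolynomial (ρ × Fin 2) ℚ →ₐ[ℚ] _)
        (RingHom.ker (aeval (cx y) : MvPolynomial ((ρ ⊕ τ) × Fin 2) ℚ →ₐ[ℚ] K)) := by
    intro K _ _ y
    ext f
    rw [Ideal.mem_comap, RingHom.mem_ker, RingHom.mem_ker]
    show _ ↔ aeval (cx y) (rename _ f) = 0
    rw [aeval_rename]
    rfl
  let S' : Set (Ideal (MvPolynomial ((ρ ⊕ τ) × Fin 2) ℚ)) := {p | p ∈ S ∧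
    ∃ (L : Type) (_ : Field L) (_ : CharZero L) (X : (ρ ⊕ τ) × Fin 2 → Lˣ),
      (∀ a ∈ Rel X, ∀ q : τ × Fin 2, a (Sum.inr q.1, q.2) = 0) ∧
      p ≤ RingHom.ker (aeval (cx X) : MvPolynomial ((ρ ⊕ τ) × Fin 2) ℚ →ₐ[ℚ] L)}
  refine ⟨(fun p => Ideal.comap (rename (fun q : ρ × Fin 2 => ((Sum.inl q.1 : ρ ⊕ τ), q.2)) :
        MvPolynomial (ρ × Fin 2) ℚ →ₐ[ℚ] _) p) '' S',
    (hS.subset fun p hp => hp.1).image _, ?_, ?_⟩
  · rintro _ ⟨p, ⟨hp, L, i1, i2, X, hX1, hX2⟩, rfl⟩
    obtain ⟨K, j1, j2, y, hy1, hy2, hy3⟩ := hS1 p hp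
    have hsp : Sp ℚ (cx y) (cx X) := fun f hf => hX2 (by rw [← hy3]; exact hf)
    refine ⟨K, j1, j2, pr y, fun r => hy1 (Sum.inl r), ?_, ?_⟩
    · have h1 : rk y ≤ rk (pr y) := by
        have h0 : ∀ a ∈ Rel y, ∀ q : τ × Fin 2, a (Sum.inr q.1, q.2) = 0 :=
          fun a ha => hX1 a (hsp.rel ha)
        let f : ((ρ ⊕ τ) × Fin 2 → ℤ) →ₗ[ℤ] (ρ × Fin 2 → ℤ) :=
          { toFun := fun a q => a (Sum.inl q.1, q.2)
            map_add' := fun _ _ => rfl
            map_smul' := fun _ _ => rfl }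
        have hf : ∀ a ∈ Rel y, f a ∈ Rel (pr y) := by
          intro a ha
          obtain ⟨N, hN, h⟩ := id ha
          refine ⟨N, hN, ?_⟩
          rw [mon_split] at h
          have h2 : (fun q : τ × Fin 2 => a (Sum.inr q.1, q.2)) = 0 := by
            funext q
            exact h0 a ha q
          rw [h2, mon_zero, mul_one] at h
          exact h
        refine LinearMap.finrank_le_finrank_of_injective (f := f.restrict hf) ?_
        intro a b hab
        apply Subtype.ext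
        funext q
        obtain ⟨r | i, j⟩ := q
        · exact congrArg (fun z : Rel (pr y) => (z : ρ × Fin 2 → ℤ) (r, j)) hab
        · rw [h0 a a.2 (i, j), h0 b b.2 (i, j)]
      have h2 : td ℚ (cx y) ≤ td ℚ (cx (pr y)) + Fintype.card τ := by
        refine le_trans ?_ (td_elim_le (cx (pr y)) fun i : τ => (y (Sum.inr i, 0) : K))
        set F := adjoin ℚ (Set.range (Sum.elim (cx (pr y)) fun i : τ => (y (Sum.inr i, 0) : K)))
        have m0 : ∀ i : τ, (y (Sum.inr i, 0) : K) ∈ F := fun i => subset_adjoin _ _ ⟨Sum.inr i, rfl⟩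
        refine td_mono ?_
        rintro ⟨r | i, j⟩
        · exact subset_adjoin _ _ ⟨Sum.inl (r, j), rfl⟩
        · fin_cases j
          · exact m0 i
          · show (y (Sum.inr i, 1) : K) ∈ F
            have h3 : (y (Sum.inr i, 1) : K) = 1 - y (Sum.inr i, 0) := by
              rw [← hy1 (Sum.inr i)]
              ring
            rw [h3]
            exact sub_mem (one_mem _) (m0 i)
      rw [Fintype.card_sum] at hy2
      omega
    · rw [hker, hy3]
  · intro K _ _ x hx hd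
    obtain ⟨L, i1, i2, X, hX1, hX2, hX3, hX4, hX5⟩ := exists_big (τ := τ) x hx
    obtain ⟨p, hp, hpX⟩ := hS2 L X hX1 (by rw [Fintype.card_sum]; omega)
    refine ⟨_, ⟨p, ⟨hp, L, i1, i2, X, hX4, hpX⟩, rfl⟩, ?_⟩
    refine (Ideal.comap_mono hpX).trans ?_
    rw [← hker]
    exact fun f hf => hX5 f hf

/-- Infinitely many powers are enough. -/
theorem MF_all (h : ∀ N : ℕ, ∃ r ≥ N, MF (Fin r)) (ρ : Type) [Fintype ρ] : MF ρ := by
  obtain ⟨r, hr, h1⟩ := h (Fintype.card ρ)
  have e : ρ ⊕ Fin (r - Fintype.card ρ) ≃ Fin r := by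
    refine Fintype.equivOfCardEq ?_
    rw [Fintype.card_sum, Fintype.card_fin, Fintype.card_fin]
    omega
  exact MF_mono (MF_transport e h1)

end mono

end Pool.Agent.V7H32.CP
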