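import Pool.Agent.V7H32.CP.Chain

/-!
# All points over the rational numbers
-/

set_option autoImplicit false

namespace Pool.Agent.V7H32.CP

open MvPolynomial IntermediateField

/-- Clearing denominators. -/
theorem clear_den {σ : Type} (f : MvPolynomial σ ℚ) : ∃ (N : ℤ) (g : MvPolynomial σ ℤ), N ≠ 0 ∧
    map (Int.castRingHom ℚ) g = C (N : ℚ) * f := by
  induction f using MvPolynomial.induction_on with
  | C a =>
    refine ⟨a.den, C a.num, by exact_mod_cast a.den_ne_zero, ?_⟩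
    rw [map_C, ← C_mul]
    congr 1
    simp only [eq_intCast, Int.cast_natCast]
    rw [mul_comm]
    exact (Rat.mul_den_eq_num a).symm
  | add p q hp hq =>
    obtain ⟨N, g, hN, hg⟩ := hp
    obtain ⟨M, h, hM, hh⟩ := hq
    refine ⟨N * M, C M * g + C N * h, mul_ne_zero hN hM, ?_⟩
    rw [map_add, map_mul, map_mul, hg, hh, map_C, map_C]
    simp only [eq_intCast, Int.cast_mul, C_mul]
    ring
  | mul_X p i hp =>
    obtain ⟨N, g, hN, hg⟩ := hp
    refine ⟨N, g * X i, hN, ?_⟩
    rw [map_mul, hg, map_X]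
    ring

theorem aeval_map_int {σ : Type} {K : Type} [Field K] [Algebra ℚ K] (x : σ → K)
    (g : MvPolynomial σ ℤ) : aeval x (map (Int.castRingHom ℚ) g) = aeval x g := by
  rw [aeval_def, eval₂_map, aeval_def]
  congr 1
  exact RingHom.ext_int _ _

theorem sp_int {σ : Type} {K L : Type} [Field K] [Field L] [CharZero L] [CharZero K]
    {y : σ → K} {x : σ → L} (h : Sp ℤ y x) : Sp ℚ y x := by
  intro f hf
  obtain ⟨N, g, hN, hg⟩ := clear_den f
  have h1 : aeval y g = 0 := by
    rw [← aeval_map_int, hg, map_mul, hf, mul_zero]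
  have h2 := h g h1
  rw [← aeval_map_int, hg, map_mul, algHom_C] at h2
  rcases mul_eq_zero.1 h2 with h3 | h3
  · exfalso
    rw [map_eq_zero] at h3
    exact hN (by exact_mod_cast h3)
  · exact h3

/-- **Specializations of an arbitrary point.** -/
theorem zp_pt (hMF : ∀ (ρ : Type) [Fintype ρ], MF ρ) {ι : Type} [Fintype ι] {Kv : Type}
    [Field Kv] [CharZero Kv] (v : ι → Kvˣ) :
    ZP (fun K _ (x : ι → Kˣ) => Sp ℤ (cx v) (cx x)) (td ℚ (cx v)) := by
  classical
  -- Noether normalization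
  let A := Algebra.adjoin ℚ (Set.range (cx v))
  have hAft : Algebra.FiniteType ℚ A := Algebra.FiniteType.adjoin_of_finite (Set.finite_range _)
  obtain ⟨s, g, hg1, hg2⟩ := exists_integral_inj_algHom_of_fg ℚ A
  have hs : s = td ℚ (cx v) := by
    let alg : Algebra (MvPolynomial (Fin s) ℚ) A := g.toRingHom.toAlgebra
    have hmap : ∀ x, algebraMap (MvPolynomial (Fin s) ℚ) A x = g x := fun x => rfl
    have tow : IsScalarTower ℚ (MvPolynomial (Fin s) ℚ) A :=
      IsScalarTower.of_algebraMap_eq fun x => by rw [hmap, AlgHom.commutes]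
    have fai : FaithfulSMul (MvPolynomial (Fin s) ℚ) A :=
      (faithfulSMul_iff_algebraMap_injective _ _).2 hg1
    have int : Algebra.IsIntegral (MvPolynomial (Fin s) ℚ) A := ⟨hg2⟩
    have ala : Algebra.IsAlgebraic (MvPolynomial (Fin s) ℚ) A := inferInstance
    have h1 : Algebra.trdeg ℚ A = s := by
      rw [← _root_.trdeg_add_eq ℚ (MvPolynomial (Fin s) ℚ) (A := A),
        _root_.trdeg_eq_zero (R := MvPolynomial (Fin s) ℚ) (A := A), add_zero,
        MvPolynomial.trdeg_of_isDomain]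
      simp
    have h2 : (td ℚ (cx v) : Cardinal) = s := by
      rw [coe_td, tc_eq_adjoin]
      exact h1
    exact_mod_cast h2.symm
  let v' : ι → A := fun i => ⟨cx v i, Algebra.subset_adjoin ⟨i, rfl⟩⟩
  have hF : ∀ i : Fin s, ∃ F : MvPolynomial ι ℚ, aeval (cx v) F = (g (X i) : Kv) := by
    intro i
    have h1 : (g (X i) : Kv) ∈ Algebra.adjoin ℚ (Set.range (cx v)) := (g (X i)).2
    rw [Algebra.adjoin_range_eq_range_aeval] at h1
    exact h1
  choose F hF using hF
  have hp : ∀ j : ι, ∃ p : Polynomial (MvPolynomial (Fin s) ℚ), p.Monic ∧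
      Polynomial.eval₂ (g : MvPolynomial (Fin s) ℚ →+* A) (v' j) p = 0 := fun j => hg2 (v' j)
  choose p hp1 hp2 using hp
  -- the relation as a polynomial
  have hR : ∀ j, aeval (cx v) (Polynomial.eval₂ (aeval F : MvPolynomial (Fin s) ℚ →ₐ[ℚ]
      MvPolynomial ι ℚ).toRingHom (X j) (p j)) = 0 := by
    intro j
    have h1 := congrArg (A.val : A →+* Kv) (hp2 j)
    rw [Polynomial.hom_eval₂, map_zero] at h1
    have h2 := Polynomial.hom_eval₂ (p j) (aeval F : MvPolynomial (Fin s) ℚ →ₐ[ℚ]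
      MvPolynomial ι ℚ).toRingHom (aeval (cx v) : MvPolynomial ι ℚ →ₐ[ℚ] Kv).toRingHom (X j)
    refine Eq.trans h2 (Eq.trans ?_ h1)
    congr 1
    · have h3 : ((aeval (cx v) : MvPolynomial ι ℚ →ₐ[ℚ] Kv).comp (aeval F)) =
          A.val.comp g := by
        ext i
        simp [hF]
      exact congrArg AlgHom.toRingHom h3
    · show aeval (cx v) (X j) = _
      rw [aeval_X]
      rfl
  -- the extended system
  let J := Fin s × Fin 3
  let Yc : Fin s → MvPolynomial (ι ⊕ J) ℚ := fun i =>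
    X (Sum.inr (i, 2)) - X (Sum.inr (i, 0)) - X (Sum.inr (i, 1))
  let H : ι → MvPolynomial (ι ⊕ J) ℚ := fun j =>
    Polynomial.eval₂ (aeval Yc : MvPolynomial (Fin s) ℚ →ₐ[ℚ] MvPolynomial (ι ⊕ J) ℚ).toRingHom
      (X (Sum.inl j)) (p j)
  choose N G hN hG using fun j => clear_den (H j)
  have hGH : ∀ (K : Type) [Field K] [CharZero K] (X' : ι ⊕ J → K) (j : ι),
      aeval X' (G j) = 0 ↔ Polynomial.eval₂ (aeval (fun i : Fin s => X' (Sum.inr (i, 2)) -
        X' (Sum.inr (i, 0)) - X' (Sum.inr (i, 1))) : MvPolynomial (Fin s) ℚ →ₐ[ℚ] K).toRingHom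
        (X' (Sum.inl j)) (p j) = 0 := by
    intro K _ _ X' j
    rw [← aeval_map_int, hG, map_mul, algHom_C, mul_eq_zero]
    have h1 : algebraMap ℚ K (N j : ℚ) ≠ 0 := by
      rw [map_ne_zero]
      exact_mod_cast hN j
    rw [or_iff_right h1]
    have h2 := Polynomial.hom_eval₂ (p j) (aeval Yc : MvPolynomial (Fin s) ℚ →ₐ[ℚ]
      MvPolynomial (ι ⊕ J) ℚ).toRingHom (aeval X' : MvPolynomial (ι ⊕ J) ℚ →ₐ[ℚ] K).toRingHom
      (X (Sum.inl j))
    have h3 : (aeval X' : MvPolynomial (ι ⊕ J) ℚ →ₐ[ℚ] K) (H j) = _ := h2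
    rw [h3]
    have h4 : ((aeval X' : MvPolynomial (ι ⊕ J) ℚ →ₐ[ℚ] K).comp (aeval Yc)) =
        (aeval (fun i : Fin s => X' (Sum.inr (i, 2)) -
        X' (Sum.inr (i, 0)) - X' (Sum.inr (i, 1))) : MvPolynomial (Fin s) ℚ →ₐ[ℚ] K) := by
      ext i
      simp [Yc]
    have h5 : (aeval X' : MvPolynomial (ι ⊕ J) ℚ →ₐ[ℚ] K).toRingHom.comp
        (aeval Yc : MvPolynomial (Fin s) ℚ →ₐ[ℚ] MvPolynomial (ι ⊕ J) ℚ).toRingHom =
        (aeval (fun i : Fin s => X' (Sum.inr (i, 2)) -
        X' (Sum.inr (i, 0)) - X' (Sum.inr (i, 1))) : MvPolynomial (Fin s) ℚ →ₐ[ℚ] K).toRingHom :=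
      congrArg AlgHom.toRingHom h4
    have h6 : (aeval X' : MvPolynomial (ι ⊕ J) ℚ →ₐ[ℚ] K).toRingHom (X (Sum.inl j)) =
        X' (Sum.inl j) := by
      show aeval X' (X (Sum.inl j)) = _
      rw [aeval_X]
    rw [h5, h6]
  let Gl : List (MvPolynomial (ι ⊕ J) ℤ) := (Finset.univ : Finset ι).toList.map G
  have hGl : ∀ q, q ∈ Gl ↔ ∃ j, G j = q := by
    intro q
    simp [Gl]
  have hlen : Gl.length = Fintype.card ι := by
    simp [Gl]
  let e0 : Empty → Fin 3 → (ι ⊕ J) → ℤ := fun r => r.elim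
  have hbd : Bd e0 Gl := by
    intro K _ _ X' hX
    have h1 : td ℚ (cx X') ≤ td ℚ (fun q : J => (X' (Sum.inr q) : K)) := by
      refine td_le_of_alg ?_
      set E := adjoin ℚ (Set.range fun q : J => (X' (Sum.inr q) : K)) with hE
      have m0 : ∀ q : J, (X' (Sum.inr q) : K) ∈ E := fun q => subset_adjoin _ _ ⟨q, rfl⟩
      rintro (j | q)
      · let ψ : MvPolynomial (Fin s) ℚ →ₐ[ℚ] E := aeval fun i =>
          (⟨(X' (Sum.inr (i, 2)) : K) - X' (Sum.inr (i, 0)) - X' (Sum.inr (i, 1)),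
            sub_mem (sub_mem (m0 _) (m0 _)) (m0 _)⟩ : E)
        have h2 := (hGH K (cx X') j).1 (hX.2 _ ((hGl _).2 ⟨j, rfl⟩))
        apply IsIntegral.isAlgebraic
        refine ⟨(p j).map ψ.toRingHom, (hp1 j).map _, ?_⟩
        rw [Polynomial.eval₂_map]
        have h3 : (algebraMap E K).comp ψ.toRingHom = (aeval (fun i : Fin s =>
            cx X' (Sum.inr (i, 2)) - cx X' (Sum.inr (i, 0)) - cx X' (Sum.inr (i, 1))) :
            MvPolynomial (Fin s) ℚ →ₐ[ℚ] K).toRingHom := by
          have h4 : (IsScalarTower.toAlgHom ℚ E K).comp ψ = (aeval (fun i : Fin s =>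
            cx X' (Sum.inr (i, 2)) - cx X' (Sum.inr (i, 0)) - cx X' (Sum.inr (i, 1))) :
            MvPolynomial (Fin s) ℚ →ₐ[ℚ] K) := by
            ext i
            simp [ψ]
          exact congrArg AlgHom.toRingHom h4
        rw [h3]
        exact h2
      · exact isAlgebraic_algebraMap (⟨_, m0 q⟩ : E)
    have h2 := td_le_card (k := ℚ) (fun q : J => (X' (Sum.inr q) : K))
    rw [hlen]
    simp only [Fintype.card_sum, Fintype.card_empty]
    omega
  have hsys := zp_sys hMF _ (ι ⊕ J) Empty e0 Gl rfl hbd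
  have hcard : Fintype.card (ι ⊕ J) - Fintype.card Empty - Gl.length = 3 * s := by
    rw [hlen]
    simp only [Fintype.card_sum, Fintype.card_empty, J, Fintype.card_prod, Fintype.card_fin]
    omega
  rw [hcard] at hsys
  refine ZP_ext (J := J) (V := Fin s × Fin 2) _ (fun K _ (x : ι ⊕ J → Kˣ) => Sol e0 Gl x)
    (fun q => ![{(q.1, 0)}, {(q.1, 1)}, {(q.1, 0), (q.1, 1)}] q.2) ?_ _ ?_ ?_
  · rintro ⟨i, j⟩
    fin_cases j <;> simp
  · intro K _ _ x hx
    refine ⟨fun q => ![0, 0, aeval (cx x) (F q.1)] q.2, ?_, ?_, ?_⟩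
    · rintro ⟨i, j⟩ ⟨i', j'⟩ h
      simp only [Prod.mk.injEq] at h
      obtain ⟨h1, h2⟩ := h
      have e0 := Finset.ext_iff.1 h1 (i, 0)
      have e1 := Finset.ext_iff.1 h1 (i, 1)
      clear h1 h2
      by_cases hii : i = i'
      · subst hii
        fin_cases j <;> fin_cases j' <;> first | rfl | (exfalso; simp at e0; done) |
          (exfalso; simp at e1; done)
      · exfalso
        fin_cases j <;> fin_cases j' <;> first | (simp [hii] at e0; done) |
          (simp [hii] at e1; done)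
    · rintro ⟨i, j⟩
      fin_cases j
      · exact ⟨(i, 0), rfl, rfl⟩
      · exact ⟨(i, 1), rfl, rfl⟩
    · intro L _ _ t u hu
      refine ⟨fun r => r.elim, ?_⟩
      intro q hq
      obtain ⟨j, rfl⟩ := (hGl q).1 hq
      have hL0 : CharZero L := charZero_of_injective_algebraMap (algebraMap K L).injective
      rw [hGH]
      have h1 : (fun i : Fin s => cx (Sum.elim (up L x) u) (Sum.inr (i, 2)) -
          cx (Sum.elim (up L x) u) (Sum.inr (i, 0)) - cx (Sum.elim (up L x) u) (Sum.inr (i, 1))) =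
          fun i => algebraMap K L (aeval (cx x) (F i)) := by
        funext i
        simp only [cx_apply, Sum.elim_inr, hu]
        simp
        ring
      rw [h1]
      have h2 := sp_int hx _ (hR j)
      have h3 := Polynomial.hom_eval₂ (p j) (aeval F : MvPolynomial (Fin s) ℚ →ₐ[ℚ]
        MvPolynomial ι ℚ).toRingHom (aeval (cx x) : MvPolynomial ι ℚ →ₐ[ℚ] K).toRingHom (X j)
      have h4 := h3.symm.trans h2
      have h5 := congrArg (algebraMap K L) h4
      rw [Polynomial.hom_eval₂, map_zero] at h5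
      refine Eq.trans ?_ h5
      congr 1
      · have h6 : ((IsScalarTower.toAlgHom ℚ K L).comp
            ((aeval (cx x) : MvPolynomial ι ℚ →ₐ[ℚ] K).comp (aeval F))) =
            aeval fun i => algebraMap K L (aeval (cx x) (F i)) := by
          ext i
          simp
        exact congrArg AlgHom.toRingHom h6.symm
      · show (algebraMap K L) (x j : K) = algebraMap K L (aeval (cx x) (X j))
        rw [aeval_X]
        rfl
  · have h7 : Fintype.card (Fin s × Fin 2) = 2 * s := by simp [mul_comm]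
    rw [h7, ← hs]
    have h8 : s + 2 * s = 3 * s := by ring
    rw [h8]
    exact hsys

end Pool.Agent.V7H32.CP
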