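import Pool.Agent.V7H32.CP.Geo

/-!
# Special varieties
-/

set_option autoImplicit false

namespace Pool.Agent.V7H32.CP

open MvPolynomial IntermediateField

section sp

variable {ι J : Type} [Fintype ι] [Fintype J] {k K L : Type} [Field k] [Field K] [Field L]
  [Algebra k K] [Algebra k L]

/-- Monomials in a specialization. -/
theorem Sp.monos {y : ι → Kˣ} {x : ι → Lˣ} (h : Sp k (cx y) (cx x)) (w : J → ι → ℤ) :
    Sp k (cx fun j => CP.mon y (w j)) (cx fun j => CP.mon x (w j)) := by
  classical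
  intro f hf
  let d := f.totalDegree
  let P : J → MvPolynomial ι k := fun j => ∏ i, X i ^ (w j i).toNat
  let Q : J → MvPolynomial ι k := fun j => ∏ i, X i ^ (-w j i).toNat
  let g : MvPolynomial ι k := ∑ α ∈ f.support, C (coeff α f) * ∏ j, (P j ^ α j * Q j ^ (d - α j))
  have hd : ∀ α ∈ f.support, ∀ j, α j ≤ d := by
    intro α hα j
    have h1 := le_totalDegree hα
    refine le_trans ?_ h1
    rw [Finsupp.sum]
    by_cases hj : j ∈ α.support
    · exact Finset.single_le_sum (f := fun j => α j) (fun _ _ => Nat.zero_le _) hj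
    · rw [Finsupp.notMem_support_iff.1 hj]
      exact Nat.zero_le _
  have key : ∀ {M : Type} [Field M] [Algebra k M] (z : ι → Mˣ), aeval (cx z) g =
      (∏ j, ((∏ i, z i ^ (-w j i).toNat : Mˣ) : M) ^ d) *
        aeval (cx fun j => CP.mon z (w j)) f := by
    intro M _ _ z
    have hP : ∀ j, aeval (cx z) (P j) = ((CP.mon z (w j) * ∏ i, z i ^ (-w j i).toNat : Mˣ) : M) := by
      intro j
      rw [mon_toNat]
      simp [P]
    have hQ : ∀ j, aeval (cx z) (Q j) = ((∏ i, z i ^ (-w j i).toNat : Mˣ) : M) := by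
      intro j
      simp [Q]
    conv_rhs => rw [f.as_sum, map_sum, Finset.mul_sum]
    simp only [g, map_sum]
    refine Finset.sum_congr rfl fun α hα => ?_
    rw [map_mul, algHom_C, map_prod, aeval_monomial, Finsupp.prod_fintype _ _ (by simp)]
    rw [mul_left_comm, ← Finset.prod_mul_distrib]
    congr 1
    refine Finset.prod_congr rfl fun j _ => ?_
    rw [map_mul, map_pow, map_pow, hP, hQ, Units.val_mul, mul_pow, cx_apply, mul_assoc,
      ← pow_add, Nat.add_sub_cancel' (hd α hα j), mul_comm]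
  have h1 : aeval (cx y) g = 0 := by rw [key, hf, mul_zero]
  have h2 := h g h1
  rw [key] at h2
  rcases mul_eq_zero.1 h2 with h3 | h3
  · obtain ⟨j, -, hj⟩ := Finset.prod_eq_zero_iff.1 h3
    exact absurd hj (pow_ne_zero _ (Units.ne_zero _))
  · exact h3

/-- Scaling a specialization. -/
theorem Sp.scale {y : ι → K} {x : ι → L} (h : Sp k y x) (c : ι → k) :
    Sp k (fun i => algebraMap k K (c i) * y i) (fun i => algebraMap k L (c i) * x i) := by
  intro f hf
  have key : ∀ {M : Type} [Field M] [Algebra k M] (z : ι → M),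
      aeval (fun i => algebraMap k M (c i) * z i) f =
        aeval z (aeval (fun i => C (c i) * X i : ι → MvPolynomial ι k) f) := by
    intro M _ _ z
    have h1 : (aeval (fun i => algebraMap k M (c i) * z i) : MvPolynomial ι k →ₐ[k] M) =
        (aeval z).comp (aeval (fun i => C (c i) * X i : ι → MvPolynomial ι k)) := by
      ext i
      simp
    rw [h1]
    rfl
  rw [key] at hf ⊢
  exact h _ hf

end sp

/-- A saturated submodule is a direct summand. -/
theorem split {ι : Type} [Fintype ι] (M : Submodule ℤ (ι → ℤ))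
    (hM : ∀ a : ι → ℤ, ∀ m : ℤ, m ≠ 0 → m • a ∈ M → a ∈ M) :
    ∃ (m : ℕ) (θ : (ι → ℤ) →ₗ[ℤ] (Fin m → ℤ)) (σ : (Fin m → ℤ) →ₗ[ℤ] (ι → ℤ)),
      (∀ c, θ (σ c) = c) ∧ (∀ a, θ a = 0 ↔ a ∈ M) ∧
      m + Module.finrank ℤ M = Fintype.card ι := by
  have htf : Module.IsTorsionFree ℤ ((ι → ℤ) ⧸ M) := by
    refine ⟨fun n hn => ?_⟩
    have hn0 : n ≠ 0 := hn.ne_zero
    intro a b hab
    simp only at hab
    obtain ⟨a, rfl⟩ := Submodule.Quotient.mk_surjective _ a
    obtain ⟨b, rfl⟩ := Submodule.Quotient.mk_surjective _ b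
    rw [← Submodule.Quotient.mk_smul, ← Submodule.Quotient.mk_smul, Submodule.Quotient.eq] at hab
    rw [Submodule.Quotient.eq]
    rw [← smul_sub] at hab
    exact hM _ n hn0 hab
  have hfree : Module.Free ℤ ((ι → ℤ) ⧸ M) := inferInstance
  let b := Module.finBasis ℤ ((ι → ℤ) ⧸ M)
  choose c hc using fun i => Submodule.Quotient.mk_surjective M (b i)
  refine ⟨Module.finrank ℤ ((ι → ℤ) ⧸ M), b.equivFun.toLinearMap.comp M.mkQ,
    Fintype.linearCombination ℤ c, ?_, ?_, ?_⟩
  · intro d
    rw [LinearMap.comp_apply, Fintype.linearCombination_apply, map_sum]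
    simp only [map_smul, Submodule.mkQ_apply, hc]
    have h1 : ∑ i, d i • b i = b.equivFun.symm d := (b.equivFun_symm_apply d).symm
    rw [h1]
    exact LinearEquiv.apply_symm_apply b.equivFun d
  · intro a
    rw [LinearMap.comp_apply, LinearEquiv.coe_coe, LinearEquiv.map_eq_zero_iff,
      Submodule.mkQ_apply, Submodule.Quotient.mk_eq_zero]
  · have h1 := Submodule.finrank_quotient_add_finrank M
    rw [Module.finrank_fintype_fun_eq_card] at h1
    exact h1

section sigma

variable {ι : Type} [Fintype ι] {K : Type} [Field K]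

theorem lin_eq_sum [DecidableEq ι] {N : Type} [AddCommGroup N] (θ : (ι → ℤ) →ₗ[ℤ] N) (a : ι → ℤ) :
    θ a = ∑ i, a i • θ (Pi.single i 1) := by
  have h : a = ∑ i, a i • (Pi.single i 1 : ι → ℤ) := by
    funext i
    rw [Finset.sum_apply, Finset.sum_eq_single i]
    · simp
    · intro j _ hj
      rw [Pi.smul_apply, Pi.single_eq_of_ne (Ne.symm hj), smul_zero]
    · simp
  conv_lhs => rw [h]
  rw [map_sum]
  simp only [map_smul]

/-- A monomial transformation. -/
theorem mon_lin [DecidableEq ι] {m : ℕ} (θ : (ι → ℤ) →ₗ[ℤ] (Fin m → ℤ)) (t : Fin m → Kˣ)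
    (a : ι → ℤ) : mon (fun i => mon t (θ (Pi.single i 1))) a = mon t (θ a) := by
  rw [lin_eq_sum θ a, mon_sum]
  simp only [mon_smul]
  rfl

theorem mon_mul_left (x y : ι → Kˣ) (a : ι → ℤ) :
    mon (fun i => x i * y i) a = mon x a * mon y a := by
  simp [mon, mul_zpow, Finset.prod_mul_distrib]

theorem mon_inv_left (x : ι → Kˣ) (a : ι → ℤ) :
    mon (fun i => (x i)⁻¹) a = (mon x a)⁻¹ := by
  simp [mon]

end sigma

section td

variable {J : Type} [Fintype J] {k L : Type} [Field k] [Field L] [Algebra k L]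

theorem card_le_td {t : J → L} (ht : AlgebraicIndependent k t) : Fintype.card J ≤ td k t := by
  have h := td_add_le (k := k) (K := k) (x := (fun i : Empty => i.elim)) (X := t)
    (fun i => i.elim) ht (fun j => subset_adjoin _ _ ⟨j, rfl⟩)
  omega

end td

section special

variable {ι : Type} [Fintype ι]

/-- A special variety is the locus of a point. -/
theorem special_pt (M : Submodule ℤ (ι → ℤ))
    (hM : ∀ a : ι → ℤ, ∀ m : ℤ, m ≠ 0 → m • a ∈ M → a ∈ M) (η : ι → ℂˣ) :
    ∃ (K : Type) (_ : Field K) (_ : Algebra ℂ K) (x : ι → Kˣ), coset M (cx η) = loc x ∧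
      td ℂ (cx x) + Module.finrank ℤ M = Fintype.card ι := by
  classical
  obtain ⟨m, θ, σ, hθσ, hθ, hm⟩ := split M hM
  let L := FractionRing (MvPolynomial (Fin m) ℂ)
  let t0 : Fin m → L := fun j => algebraMap (MvPolynomial (Fin m) ℂ) L (X j)
  have ht : AlgebraicIndependent ℂ t0 :=
    (MvPolynomial.algebraicIndependent_X (Fin m) ℂ).map'
      (f := IsScalarTower.toAlgHom ℂ (MvPolynomial (Fin m) ℂ) L)
      (IsFractionRing.injective (MvPolynomial (Fin m) ℂ) L)
  let t : Fin m → Lˣ := fun j => Units.mk0 (t0 j) (ht.ne_zero j)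
  have htc : cx t = t0 := rfl
  let x' : ι → Lˣ := fun i => mon t (θ (Pi.single i 1))
  let x : ι → Lˣ := fun i => up L η i * x' i
  have hx' : ∀ a, mon x' a = mon t (θ a) := mon_lin θ t
  have hx : ∀ a, mon x a = Units.map (algebraMap ℂ L : ℂ →* L) (mon η a) * mon t (θ a) := by
    intro a
    rw [mon_mul_left, mon_up, hx']
  refine ⟨L, inferInstance, inferInstance, x, ?_, ?_⟩
  · ext y
    constructor
    · rintro ⟨hy, hyM⟩
      rw [mem_loc hy]
      let y1 : ι → ℂˣ := fun i => (η i)⁻¹ * toU y hy i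
      have hy1 : ∀ a ∈ M, mon y1 a = 1 := by
        intro a ha
        rw [mon_mul_left, mon_inv_left, inv_mul_eq_one]
        apply Units.ext
        rw [mon_toU, hyM a ha, mon, Units.coe_prod]
        refine Finset.prod_congr rfl fun i _ => ?_
        rw [Units.val_zpow_eq_zpow_val]
        rfl
      let τ : Fin m → ℂˣ := fun j => mon y1 (σ (Pi.single j 1))
      have hτ : ∀ c, mon τ c = mon y1 (σ c) := by
        intro c
        rw [lin_eq_sum σ c, mon_sum]
        simp only [mon_smul]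
        rfl
      have h1 : Sp ℂ (cx t) (cx τ) := by
        intro f hf
        rw [htc] at hf
        have h2 : f = 0 := ht (by rw [hf, map_zero])
        rw [h2, map_zero]
      have h2 := (h1.monos fun i : ι => θ (Pi.single i 1)).scale fun i => (η i : ℂ)
      have h3 : (fun i => algebraMap ℂ ℂ (η i : ℂ) *
          cx (fun i : ι => mon τ (θ (Pi.single i 1))) i) = cx (toU y hy) := by
        funext i
        have h4 : Pi.single i 1 - σ (θ (Pi.single i 1)) ∈ M := by
          rw [← hθ, map_sub, hθσ, sub_self]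
        have h5 := hy1 _ h4
        rw [mon_sub, div_eq_one, mon_single] at h5
        rw [cx_apply, hτ, ← h5]
        show (η i : ℂ) * (((η i)⁻¹ * toU y hy i : ℂˣ) : ℂ) = _
        rw [Units.val_mul, ← mul_assoc, ← Units.val_mul, mul_inv_cancel, Units.val_one, one_mul]
        rfl
      rw [h3] at h2
      exact h2
    · intro hy
      have hy0 : ∀ i, y i ≠ 0 := hy.1
      refine ⟨hy0, fun a ha => ?_⟩
      have h1 : binc (((mon η a : ℂˣ) : ℂ)) a ∈ kr ℂ x := by
        rw [mem_kr, aeval_binc, hx, (hθ a).2 ha, mon_zero, mul_one]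
        rfl
      have h2 := hy.2 _ h1
      rw [eval_binc y hy0] at h2
      rw [h2, mon, Units.coe_prod]
      refine Finset.prod_congr rfl fun i _ => ?_
      rw [Units.val_zpow_eq_zpow_val]
      rfl
  · have h1 : td ℂ (cx x) ≤ m := by
      have h2 : td ℂ (cx x) ≤ td ℂ (cx t) := by
        refine td_mono fun i => ?_
        show ((up L η i * x' i : Lˣ) : L) ∈ _
        rw [Units.val_mul]
        exact mul_mem ((adjoin ℂ (Set.range (cx t))).algebraMap_mem (η i : ℂ)) (mon_mem t _)
      have h3 := td_le_card (k := ℂ) (cx t)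
      rw [Fintype.card_fin] at h3
      exact h2.trans h3
    have h2 : m ≤ td ℂ (cx x) := by
      have h3 : td ℂ (cx t) ≤ td ℂ (cx x) := by
        refine td_mono fun j => ?_
        have h4 : t j = (Units.map (algebraMap ℂ L : ℂ →* L) (mon η (σ (Pi.single j 1))))⁻¹ *
            mon x (σ (Pi.single j 1)) := by
          rw [hx, hθσ, mon_single, inv_mul_cancel_left]
        rw [cx_apply, h4, Units.val_mul]
        refine mul_mem ?_ (mon_mem x _)
        rw [← map_inv]
        exact (adjoin ℂ (Set.range (cx x))).algebraMap_mem _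
      have h5 : Fintype.card (Fin m) ≤ td ℂ (cx t) := card_le_td ht
      rw [Fintype.card_fin] at h5
      omega
    omega

/-- Roots of unity lie in the algebraically closed field. -/
theorem root_mem {K : Type} [Field K] [Algebra ℂ K] {z : Kˣ} {N : ℕ} (hN : 0 < N)
    (hz : z ^ N = 1) : ∃ ω : ℂˣ, ω ^ N = 1 ∧ Units.map (algebraMap ℂ K : ℂ →* K) ω = z := by
  have hz' : (z : K) ^ N = 1 := by
    rw [← Units.val_pow_eq_pow_val, hz, Units.val_one]
  have hint : IsIntegral ℂ (z : K) := by
    refine ⟨Polynomial.X ^ N - 1, Polynomial.monic_X_pow_sub_C 1 hN.ne', ?_⟩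
    simp [hz']
  obtain ⟨w, hw⟩ := minpoly.mem_range_of_degree_eq_one ℂ (z : K)
    (IsAlgClosed.degree_eq_one_of_irreducible ℂ (minpoly.irreducible hint))
  have hw0 : w ≠ 0 := by
    rintro rfl
    rw [map_zero] at hw
    exact z.ne_zero hw.symm
  refine ⟨Units.mk0 w hw0, ?_, ?_⟩
  · apply Units.ext
    rw [Units.val_pow_eq_pow_val, Units.val_mk0, Units.val_one]
    apply (algebraMap ℂ K).injective
    rw [map_pow, map_one, hw, hz']
  · apply Units.ext
    exact hw

/-- The values of the monomials in a saturated lattice which are roots of unity are the values at a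
torsion point. -/
theorem tors {K : Type} [Field K] [Algebra ℂ K] (x : ι → Kˣ) (M : Submodule ℤ (ι → ℤ))
    (hM : ∀ a : ι → ℤ, ∀ m : ℤ, m ≠ 0 → m • a ∈ M → a ∈ M) {g : ℕ} (hg : 0 < g)
    (h : ∀ a ∈ M, mon x a ^ g = 1) :
    ∃ η : ι → ℂˣ, (∀ i, η i ^ g = 1) ∧
      ∀ a ∈ M, mon x a = Units.map (algebraMap ℂ K : ℂ →* K) (mon η a) := by
  classical
  obtain ⟨m, θ, σ, hθσ, hθ, hm⟩ := split M hM
  have h1 : ∀ i : ι, Pi.single i 1 - σ (θ (Pi.single i 1)) ∈ M := by
    intro i
    rw [← hθ, map_sub, hθσ, sub_self]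
  choose η hη1 hη2 using fun i => root_mem hg (h _ (h1 i))
  refine ⟨η, hη1, fun a ha => ?_⟩
  have h2 : a = ∑ i, a i • (Pi.single i 1 - σ (θ (Pi.single i 1))) := by
    simp only [smul_sub, Finset.sum_sub_distrib]
    have h3 := lin_eq_sum (LinearMap.id : (ι → ℤ) →ₗ[ℤ] (ι → ℤ)) a
    have h4 := lin_eq_sum (σ.comp θ) a
    simp only [LinearMap.id_apply] at h3
    simp only [LinearMap.comp_apply] at h4
    rw [← h3, ← h4, (hθ a).2 ha, map_zero, sub_zero]
  conv_lhs => rw [h2]
  rw [mon_sum, mon, map_prod]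
  refine Finset.prod_congr rfl fun i _ => ?_
  rw [mon_smul, ← hη2 i, map_zpow]

/-- a uniform exponent -/
theorem unif {K : Type} [Field K] (x : ι → Kˣ) : ∃ g : ℕ, 0 < g ∧ ∀ a ∈ Rel x, mon x a ^ g = 1 := by
  classical
  let b := Module.finBasis ℤ (Rel x)
  choose N hN hN1 using fun i => (b i).2
  refine ⟨∏ i, N i, Finset.prod_pos fun i _ => hN i, fun a ha => ?_⟩
  have h1 : a = ∑ i, (b.repr ⟨a, ha⟩ i) • ((b i : Rel x) : ι → ℤ) := by
    have h2 := congrArg (fun z : Rel x => (z : ι → ℤ)) (b.sum_repr ⟨a, ha⟩).symm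
    refine h2.trans ?_
    rw [← Submodule.subtype_apply, map_sum]
    simp only [map_smul, Submodule.subtype_apply]
  rw [h1, mon_sum, ← Finset.prod_pow]
  refine Finset.prod_eq_one fun i _ => ?_
  rw [mon_smul, ← zpow_natCast, ← zpow_mul, mul_comm, zpow_mul, zpow_natCast]
  obtain ⟨c, hc⟩ : N i ∣ ∏ i, N i := Finset.dvd_prod_of_mem _ (Finset.mem_univ i)
  rw [hc, pow_mul, hN1, one_pow, one_zpow]

end special

end Pool.Agent.V7H32.CP
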