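import Pool.Agent.V7H32.CP.Base

/-!
# Systems of equations, and extensions by new coordinates
-/

set_option autoImplicit false

namespace Pool.Agent.V7H32.CP

open MvPolynomial IntermediateField

/-- All points `x` with the property `P` and with more relations than expected satisfy one of
finitely many relations. -/
def ZP {ι : Type} [Fintype ι] (P : ∀ (K : Type) [Field K], (ι → Kˣ) → Prop) (δ : ℕ) : Prop :=
  ∃ A : Set (ι → ℤ), A.Finite ∧ 0 ∉ A ∧ ∀ (K : Type) [Field K] [CharZero K] (x : ι → Kˣ),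
    P K x → δ < td ℚ (cx x) + rk x → ∃ a ∈ A, mon x a = 1

/-- Extensions of the points by new coordinates, which are linear forms in new variables. -/
theorem ZP_ext {ι J V : Type} [Fintype ι] [Fintype J] [Fintype V]
    (P : ∀ (K : Type) [Field K], (ι → Kˣ) → Prop)
    (P' : ∀ (K : Type) [Field K], (ι ⊕ J → Kˣ) → Prop) (S : J → Finset V)
    (hS : ∀ j, (S j).Nonempty) (δ : ℕ)
    (h : ∀ (K : Type) [Field K] [CharZero K] (x : ι → Kˣ), P K x → ∃ c : J → K,
      (Function.Injective fun j => (S j, c j)) ∧ (∀ v, ∃ j, S j = {v} ∧ c j = 0) ∧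
      ∀ (L : Type) [Field L] [Algebra K L] (t : V → L) (u : J → Lˣ),
        (∀ j, (u j : L) = ∑ v ∈ S j, t v + algebraMap K L (c j)) →
        P' L (Sum.elim (up L x) u))
    (hP' : ZP P' (δ + Fintype.card V)) : ZP P δ := by
  classical
  obtain ⟨A, hA, hA0, hA1⟩ := hP'
  refine ⟨((fun a : ι ⊕ J → ℤ => fun i => a (Sum.inl i)) '' A) \ {0},
    (hA.image _).sdiff, fun h0 => h0.2 rfl, ?_⟩
  intro K _ _ x hx hδ
  obtain ⟨c, hc1, hc2, hc3⟩ := h K x hx
  let L := FractionRing (MvPolynomial V K)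
  let t : V → L := fun v => algebraMap (MvPolynomial V K) L (X v)
  have ht : AlgebraicIndependent K t := by
    have h1 : AlgebraicIndependent K (X : V → MvPolynomial V K) := MvPolynomial.algebraicIndependent_X V K
    exact h1.map' (f := IsScalarTower.toAlgHom K (MvPolynomial V K) L)
      (IsFractionRing.injective (MvPolynomial V K) L)
  have hL0 : CharZero L := charZero_of_injective_algebraMap (algebraMap K L).injective
  let u : J → Lˣ := fun j => Units.mk0 _ (form_ne_zero ht (hS j) (c j))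
  have hu : ∀ j, (u j : L) = ∑ v ∈ S j, t v + algebraMap K L (c j) := fun j => rfl
  have h1 := hc3 L t u hu
  have h2 : rk x ≤ rk (Sum.elim (up L x) u) := rk_le_elim x u
  have h3 : td ℚ (cx x) + Fintype.card V ≤ td ℚ (cx (Sum.elim (up L x) u)) := by
    refine td_add_le (fun i => subset_adjoin _ _ ⟨Sum.inl i, rfl⟩) ht fun v => ?_
    obtain ⟨j, hj1, hj2⟩ := hc2 v
    have h4 : t v = cx (Sum.elim (up L x) u) (Sum.inr j) := by
      rw [cx_apply, Sum.elim_inr, hu, hj1, hj2, Finset.sum_singleton, map_zero, add_zero]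
    rw [h4]
    exact subset_adjoin _ _ ⟨Sum.inr j, rfl⟩
  obtain ⟨a, ha, ha1⟩ := hA1 L (Sum.elim (up L x) u) h1 (by omega)
  obtain ⟨h5, h6⟩ := rel_elim ht hS hc1 hu ha1
  refine ⟨fun i => a (Sum.inl i), ⟨⟨a, ha, rfl⟩, ?_⟩, h6⟩
  intro h0
  rw [Set.mem_singleton_iff] at h0
  have h7 : a = 0 := by
    funext i
    rcases i with i | j
    · exact congrFun h0 i
    · exact congrFun h5 j
  exact hA0 (h7 ▸ ha)

/-- The solutions of a system: equations with three terms and polynomial equations. -/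
def Sol {ι ρ : Type} [Fintype ι] (e : ρ → Fin 3 → ι → ℤ) (G : List (MvPolynomial ι ℤ))
    {K : Type} [Field K] (x : ι → Kˣ) : Prop :=
  Sol3 e x ∧ ∀ g ∈ G, aeval (cx x) g = 0

/-- All components of the variety defined by the system have the expected dimension. -/
def Bd {ι ρ : Type} [Fintype ι] [Fintype ρ] (e : ρ → Fin 3 → ι → ℤ)
    (G : List (MvPolynomial ι ℤ)) : Prop :=
  ∀ (K : Type) [Field K] [CharZero K] (x : ι → Kˣ), Sol e G x →
    td ℚ (cx x) + Fintype.card ρ + G.length ≤ Fintype.card ι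

section unit

variable {ι J : Type} [Fintype ι] [Fintype J] {K : Type} [Field K]

/-- A vector extended by zero. -/
def ex (J : Type) {ι : Type} (a : ι → ℤ) : ι ⊕ J → ℤ := Sum.elim a 0

theorem mon_ex (X : ι ⊕ J → Kˣ) (a : ι → ℤ) :
    mon X (ex J a) = mon (fun i => X (Sum.inl i)) a := by
  have h : X = Sum.elim (fun i => X (Sum.inl i)) (fun j => X (Sum.inr j)) := by
    funext i
    cases i <;> rfl
  conv_lhs => rw [h]
  rw [mon_sum_elim]
  have h0 : (fun j => ex J a (Sum.inr j)) = (0 : J → ℤ) := rfl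
  have h1 : (fun i => ex J a (Sum.inl i)) = a := rfl
  rw [h0, h1, mon_zero, mul_one]

end unit

section three

open Classical

variable {ι ρ : Type} [Fintype ι] [Fintype ρ]

/-- the exponent vector of a coordinate -/
noncomputable def sg {κ : Type} (i : κ) : κ → ℤ := Pi.single i 1

theorem sg_ne {κ : Type} {i j : κ} (h : i ≠ j) : sg j i = 0 := by
  unfold sg
  exact Pi.single_eq_of_ne h 1

theorem mon_sg {κ K : Type} [Fintype κ] [Field K] (x : κ → Kˣ) (i : κ) : mon x (sg i) = x i :=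
  mon_single x i

/-- The extended system: for each coordinate `x_i` there are five new coordinates
`z_i, y_i, 1 + z_i, z_i + y_i, x_i + y_i`. -/
noncomputable def e5 (e : ρ → Fin 3 → ι → ℤ) :
    ρ ⊕ (ι × Fin 3) → Fin 3 → (ι ⊕ (ι × Fin 5)) → ℤ :=
  Sum.elim (fun r s => ex _ (e r s)) fun q =>
    ![![0, sg (Sum.inr (q.1, 0)), sg (Sum.inr (q.1, 2))],
      ![sg (Sum.inr (q.1, 0)), sg (Sum.inr (q.1, 1)), sg (Sum.inr (q.1, 3))],
      ![sg (Sum.inl q.1), sg (Sum.inr (q.1, 1)), sg (Sum.inr (q.1, 4))]] q.2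

theorem e5_surj (e : ρ → Fin 3 → ι → ℤ) : Function.Surjective (phi (e5 e)) := by
  rw [← LinearMap.range_eq_top]
  set R := LinearMap.range (phi (e5 e)) with hR
  have hq : ∀ j, quo (e5 e) j ∈ R := fun j => ⟨Pi.single j 1, phi_single _ j⟩
  have h1 : ∀ i, sg (Sum.inr (i, 2)) ∈ R := by
    intro i
    have h2 := hq (Sum.inr (i, 0), 0)
    simp only [quo, e5, Sum.elim_inr, if_true, Matrix.cons_val_zero, Matrix.cons_val_one,
      Matrix.cons_val_two, Matrix.head_cons, Matrix.tail_cons] at h2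
    have h3 := R.neg_mem h2
    simpa using h3
  have h2 : ∀ i, sg (Sum.inr (i, 0)) ∈ R := by
    intro i
    have h2 := hq (Sum.inr (i, 0), 1)
    simp [quo, e5] at h2
    have h3 := R.add_mem h2 (h1 i)
    simpa using h3
  have h3 : ∀ i, sg (Sum.inr (i, 3)) ∈ R := by
    intro i
    have h3 := hq (Sum.inr (i, 1), 0)
    simp [quo, e5] at h3
    have h4 := R.sub_mem (h2 i) h3
    simpa using h4
  have h4 : ∀ i, sg (Sum.inr (i, 1)) ∈ R := by
    intro i
    have h4 := hq (Sum.inr (i, 1), 1)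
    simp [quo, e5] at h4
    have h5 := R.add_mem h4 (h3 i)
    simpa using h5
  have h5 : ∀ i, sg (Sum.inr (i, 4)) ∈ R := by
    intro i
    have h5 := hq (Sum.inr (i, 2), 1)
    simp [quo, e5] at h5
    have h6 := R.sub_mem (h4 i) h5
    simpa using h6
  have h6 : ∀ i, sg (Sum.inl i) ∈ R := by
    intro i
    have h6 := hq (Sum.inr (i, 2), 0)
    simp [quo, e5] at h6
    have h7 := R.add_mem h6 (h5 i)
    simpa using h7
  rw [eq_top_iff]
  intro a _
  have ha : a = ∑ i, a i • sg i := by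
    funext i
    rw [Finset.sum_apply, Finset.sum_eq_single i]
    · simp [sg]
    · intro j _ hj
      have h7 : (sg j : ι ⊕ ι × Fin 5 → ℤ) i = 0 := sg_ne (Ne.symm hj)
      rw [Pi.smul_apply, h7, smul_zero]
    · simp
  rw [ha]
  refine Submodule.sum_mem _ fun i _ => Submodule.smul_mem _ _ ?_
  rcases i with i | ⟨i, j⟩
  · exact h6 i
  · fin_cases j
    · exact h2 i
    · exact h4 i
    · exact h1 i
    · exact h3 i
    · exact h5 i

theorem sol_e5_inl {e : ρ → Fin 3 → ι → ℤ} {K : Type} [Field K]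
    {X : ι ⊕ (ι × Fin 5) → Kˣ} (h : Sol3 (e5 e) X) : Sol3 e fun i => X (Sum.inl i) := by
  intro r
  have h1 := h (Sum.inl r)
  simp only [e5, Sum.elim_inl, mon_ex] at h1
  exact h1

theorem sol_e5_eqs {e : ρ → Fin 3 → ι → ℤ} {K : Type} [Field K]
    {X : ι ⊕ (ι × Fin 5) → Kˣ} (h : Sol3 (e5 e) X) (i : ι) :
    1 + (X (Sum.inr (i, 0)) : K) = X (Sum.inr (i, 2)) ∧
    (X (Sum.inr (i, 0)) : K) + X (Sum.inr (i, 1)) = X (Sum.inr (i, 3)) ∧
    (X (Sum.inl i) : K) + X (Sum.inr (i, 1)) = X (Sum.inr (i, 4)) := by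
  have h0 := h (Sum.inr (i, 0))
  have h1 := h (Sum.inr (i, 1))
  have h2 := h (Sum.inr (i, 2))
  simp only [e5, Sum.elim_inr, Matrix.cons_val_zero, Matrix.cons_val_one, Matrix.cons_val_two,
    Matrix.head_cons, Matrix.tail_cons, mon_sg, mon_zero, Units.val_one] at h0 h1 h2
  exact ⟨h0, h1, h2⟩

/-- **Systems of equations with three terms.** -/
theorem base5 (hMF : ∀ (ρ : Type) [Fintype ρ], MF ρ) (e : ρ → Fin 3 → ι → ℤ)
    (hbd : ∀ (K : Type) [Field K] [CharZero K] (x : ι → Kˣ), Sol3 e x →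
      td ℚ (cx x) + Fintype.card ρ ≤ Fintype.card ι) :
    ZP (fun K _ (x : ι → Kˣ) => Sol3 e x) (Fintype.card ι - Fintype.card ρ) := by
  have hcρ : Fintype.card (ρ ⊕ (ι × Fin 3)) = Fintype.card ρ + 3 * Fintype.card ι := by
    simp [mul_comm]
  have hcι : Fintype.card (ι ⊕ (ι × Fin 5)) = 6 * Fintype.card ι := by
    simp only [Fintype.card_sum, Fintype.card_prod, Fintype.card_fin]
    ring
  refine ZP_ext (J := ι × Fin 5) (V := ι × Fin 2) _
    (fun K _ (x : ι ⊕ (ι × Fin 5) → Kˣ) => Sol3 (e5 e) x)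
    (fun q => ![{(q.1, 0)}, {(q.1, 1)}, {(q.1, 0)}, {(q.1, 0), (q.1, 1)}, {(q.1, 1)}] q.2)
    ?_ _ ?_ ?_
  · rintro ⟨i, j⟩
    fin_cases j <;> simp
  · intro K _ _ x hx
    refine ⟨fun q => ![0, 0, 1, 0, (x q.1 : K)] q.2, ?_, ?_, ?_⟩
    · rintro ⟨i, j⟩ ⟨i', j'⟩ h
      simp only [Prod.mk.injEq] at h
      obtain ⟨h1, h2⟩ := h
      have e0 := Finset.ext_iff.1 h1 (i, 0)
      have e1 := Finset.ext_iff.1 h1 (i, 1)
      have e2 := Finset.ext_iff.1 h1 (i', 0)
      have e3 := Finset.ext_iff.1 h1 (i', 1)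
      clear h1
      fin_cases j <;> fin_cases j' <;> first
        | (simp_all; done)
        | (exfalso; simp at h2; exact absurd h2.symm (Units.ne_zero _))
        | (exfalso; simp at h2)
    · rintro ⟨i, j⟩
      fin_cases j
      · exact ⟨(i, 0), rfl, rfl⟩
      · exact ⟨(i, 1), rfl, rfl⟩
    · intro L _ _ t u hu
      have hu0 : ∀ i, (u (i, 0) : L) = t (i, 0) := fun i => by simp [hu]
      have hu1 : ∀ i, (u (i, 1) : L) = t (i, 1) := fun i => by simp [hu]
      have hu2 : ∀ i, (u (i, 2) : L) = t (i, 0) + 1 := fun i => by simp [hu]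
      have hu3 : ∀ i, (u (i, 3) : L) = t (i, 0) + t (i, 1) := fun i => by simp [hu]
      have hu4 : ∀ i, (u (i, 4) : L) = t (i, 1) + algebraMap K L (x i) := fun i => by simp [hu]
      rintro (r | ⟨i, j⟩)
      · simp only [e5, Sum.elim_inl, mon_ex]
        have h1 : (fun i => up L x i) = up L x := rfl
        rw [h1, mon_up, mon_up, mon_up]
        simp only [Units.coe_map]
        have := congrArg (algebraMap K L) (hx r)
        rw [map_add] at this
        exact this
      · fin_cases j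
        · simp only [e5, Sum.elim_inr]
          simp [mon_sg, hu0, hu2, add_comm]
        · simp only [e5, Sum.elim_inr]
          simp [mon_sg, hu0, hu1, hu3]
        · simp only [e5, Sum.elim_inr]
          simp [mon_sg, hu1, hu4, up_coe, add_comm]
  · obtain ⟨A, hA, hA0, hA1⟩ := base (hMF _) (e5 e) (e5_surj e) (by
      intro K _ _ X hX
      have h1 := hbd K _ (sol_e5_inl hX)
      have h2 : td ℚ (cx X) ≤ td ℚ (Sum.elim (cx fun i => X (Sum.inl i))
          fun q : ι × Fin 2 => (X (Sum.inr (q.1, if q.2 = 0 then 0 else 1)) : K)) := by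
        set F := adjoin ℚ (Set.range (Sum.elim (cx fun i => X (Sum.inl i))
          fun q : ι × Fin 2 => (X (Sum.inr (q.1, if q.2 = 0 then 0 else 1)) : K))) with hF
        have m0 : ∀ i, (X (Sum.inl i) : K) ∈ F := fun i => subset_adjoin _ _ ⟨Sum.inl i, rfl⟩
        have m1 : ∀ i, (X (Sum.inr (i, 0)) : K) ∈ F :=
          fun i => subset_adjoin _ _ ⟨Sum.inr (i, 0), rfl⟩
        have m2 : ∀ i, (X (Sum.inr (i, 1)) : K) ∈ F :=
          fun i => subset_adjoin _ _ ⟨Sum.inr (i, 1), rfl⟩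
        refine td_mono ?_
        rintro (i | ⟨i, j⟩)
        · exact m0 i
        · obtain ⟨q0, q1, q2⟩ := sol_e5_eqs hX i
          fin_cases j
          · exact m1 i
          · exact m2 i
          · show (X (Sum.inr (i, 2)) : K) ∈ F
            rw [← q0]
            exact add_mem (one_mem _) (m1 i)
          · show (X (Sum.inr (i, 3)) : K) ∈ F
            rw [← q1]
            exact add_mem (m1 i) (m2 i)
          · show (X (Sum.inr (i, 4)) : K) ∈ F
            rw [← q2]
            exact add_mem (m0 i) (m2 i)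
      have h3 : td ℚ (Sum.elim (cx fun i => X (Sum.inl i))
          fun q : ι × Fin 2 => (X (Sum.inr (q.1, if q.2 = 0 then 0 else 1)) : K)) ≤
          td ℚ (cx fun i => X (Sum.inl i)) + Fintype.card (ι × Fin 2) := td_elim_le _ _
      simp only [Fintype.card_prod, Fintype.card_fin] at h3
      omega)
    refine ⟨A, hA, hA0, fun K _ _ x hx hδ => hA1 K x hx ?_⟩
    have h4 : Fintype.card (ι × Fin 2) = 2 * Fintype.card ι := by simp [mul_comm]
    omega

end three

end Pool.Agent.V7H32.CP
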