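import Pool.Agent.V7H32.CP.Mon
import Pool.Agent.V7H84.Perm.Dim

/-!
# The transcendence degree of a point
-/

set_option autoImplicit false

namespace Pool.Agent.V7H32.CP

open MvPolynomial IntermediateField
open scoped IntermediateField.algebraAdjoinAdjoin

section td

variable {ι κ V : Type} (k : Type) {K L : Type} [Field k] [Field K] [Field L] [Algebra k K]
  [Algebra k L]

/-- The transcendence degree of the field generated by the coordinates of `x`. -/
noncomputable def tc (x : ι → K) : Cardinal := Algebra.trdeg k (adjoin k (Set.range x))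

theorem tc_eq_adjoin (x : ι → K) : tc k x = Algebra.trdeg k (Algebra.adjoin k (Set.range x)) := by
  have h2 := trdeg_add_eq k (Algebra.adjoin k (Set.range x)) (A := adjoin k (Set.range x))
  rw [trdeg_eq_zero (R := Algebra.adjoin k (Set.range x)), add_zero] at h2
  exact h2.symm

theorem tc_eq_quot (x : ι → K) :
    tc k x = Algebra.trdeg k (MvPolynomial ι k ⧸ RingHom.ker (aeval x : MvPolynomial ι k →ₐ[k] K)) := by
  rw [tc_eq_adjoin, Algebra.adjoin_range_eq_range_aeval]
  exact (Ideal.quotientKerEquivRange (aeval x : MvPolynomial ι k →ₐ[k] K)).symm.trdeg_eq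

variable {k}

theorem tc_eq_of_ker {x : ι → K} {y : ι → L}
    (h : RingHom.ker (aeval x : MvPolynomial ι k →ₐ[k] K) =
      RingHom.ker (aeval y : MvPolynomial ι k →ₐ[k] L)) : tc k x = tc k y := by
  rw [tc_eq_quot, tc_eq_quot, h]

theorem tc_eq_of_sp {x : ι → K} {y : ι → L} (h : Sp k x y) (h' : Sp k y x) :
    tc k x = tc k y := by
  refine tc_eq_of_ker ?_
  ext f
  rw [RingHom.mem_ker, RingHom.mem_ker]
  exact ⟨h f, h' f⟩

theorem tc_le_card [Fintype ι] (x : ι → K) : tc k x ≤ Fintype.card ι := by
  rw [tc_eq_quot]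
  refine (trdeg_le_of_surjective (Ideal.Quotient.mkₐ k _) (Ideal.Quotient.mkₐ_surjective _ _)).trans ?_
  rw [MvPolynomial.trdeg_of_isDomain]
  simp

theorem tc_mono {x : ι → K} {y : κ → K} (h : ∀ i, x i ∈ adjoin k (Set.range y)) :
    tc k x ≤ tc k y := by
  have h1 : adjoin k (Set.range x) ≤ adjoin k (Set.range y) := by
    rw [adjoin_le_iff]
    rintro _ ⟨i, rfl⟩
    exact h i
  exact trdeg_le_of_injective (IntermediateField.inclusion h1)
    (IntermediateField.inclusion_injective h1)

theorem trdeg_tower (F E : Type) [Field F] [Field E] [Algebra k F] [Algebra F E] [Algebra k E]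
    [IsScalarTower k F E] : Algebra.trdeg k F + Algebra.trdeg F E = Algebra.trdeg k E :=
  trdeg_add_eq k F (A := E)

theorem tc_le_of_tower {F : IntermediateField k L} {E : IntermediateField F L} {x : ι → L}
    (h : ∀ i, x i ∈ E) : tc k x ≤ Algebra.trdeg k F + Algebra.trdeg F E := by
  have h1 : adjoin k (Set.range x) ≤ E.restrictScalars k := by
    rw [adjoin_le_iff]
    rintro _ ⟨i, rfl⟩
    exact h i
  let f : adjoin k (Set.range x) →ₐ[k] E :=
    { toFun := fun z => ⟨z.1, h1 z.2⟩
      map_one' := rfl
      map_mul' := fun _ _ => rfl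
      map_zero' := rfl
      map_add' := fun _ _ => rfl
      commutes' := fun _ => rfl }
  have hf : Function.Injective f := fun a b hab => Subtype.ext (congrArg (fun z : E => (z : L)) hab)
  have h2 := trdeg_le_of_injective f hf
  exact h2.trans (trdeg_tower F E).ge

theorem tc_le_of_alg {x : ι → K} {y : κ → K} (h : ∀ i, IsAlgebraic (adjoin k (Set.range y)) (x i)) :
    tc k x ≤ tc k y := by
  have hE : Algebra.IsAlgebraic (adjoin k (Set.range y))
      (adjoin (adjoin k (Set.range y)) (Set.range x)) := by
    apply IntermediateField.isAlgebraic_adjoin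
    rintro _ ⟨i, rfl⟩
    exact (h i).isIntegral
  refine (tc_le_of_tower (F := adjoin k (Set.range y))
    (E := adjoin (adjoin k (Set.range y)) (Set.range x))
    (fun i => subset_adjoin _ _ ⟨i, rfl⟩)).trans ?_
  have h0 : Algebra.trdeg (adjoin k (Set.range y))
      (adjoin (adjoin k (Set.range y)) (Set.range x)) = 0 := trdeg_eq_zero
  rw [h0, add_zero]
  rfl

theorem tc_elim_le (x : ι → K) [Fintype V] (v : V → K) :
    tc k (Sum.elim x v) ≤ tc k x + Fintype.card V := by
  refine (tc_le_of_tower (F := adjoin k (Set.range x))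
    (E := adjoin (adjoin k (Set.range x)) (Set.range v)) ?_).trans
    (add_le_add le_rfl (tc_le_card (k := adjoin k (Set.range x)) v))
  rintro (i | j)
  · exact (adjoin (adjoin k (Set.range x)) (Set.range v)).algebraMap_mem
      ⟨x i, subset_adjoin _ _ ⟨i, rfl⟩⟩
  · exact subset_adjoin _ _ ⟨j, rfl⟩

/-- New algebraically independent coordinates. -/
theorem tc_add_le [Algebra K L] [IsScalarTower k K L] {x : ι → K} {X : κ → L}
    (hx : ∀ i, algebraMap K L (x i) ∈ adjoin k (Set.range X)) {v : V → L}
    (hv : AlgebraicIndependent K v) (hv' : ∀ j, v j ∈ adjoin k (Set.range X)) :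
    tc k x + Cardinal.mk V ≤ tc k X := by
  have h0 : AlgebraicIndependent (adjoin k (Set.range x)) v :=
    hv.restrictScalars (algebraMap (adjoin k (Set.range x)) K).injective
  have hxE : ∀ z : K, z ∈ adjoin k (Set.range x) → algebraMap K L z ∈ adjoin k (Set.range X) := by
    have h1 : adjoin k (Set.range x) ≤
        (adjoin k (Set.range X)).comap (IsScalarTower.toAlgHom k K L) := by
      rw [adjoin_le_iff]
      rintro _ ⟨i, rfl⟩
      exact hx i
    exact fun z hz => h1 hz
  have hE : ∀ z : L, z ∈ adjoin (adjoin k (Set.range x)) (Set.range v) →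
      z ∈ adjoin k (Set.range X) := by
    intro z hz
    induction hz using IntermediateField.adjoin_induction with
    | mem z hz => obtain ⟨j, rfl⟩ := hz; exact hv' j
    | algebraMap z => exact hxE z z.2
    | add a b _ _ ha hb => exact add_mem ha hb
    | inv a _ ha => exact inv_mem ha
    | mul a b _ _ ha hb => exact mul_mem ha hb
  let f : adjoin (adjoin k (Set.range x)) (Set.range v) →ₐ[k] adjoin k (Set.range X) :=
    { toFun := fun z => ⟨z.1, hE z.1 z.2⟩
      map_one' := rfl
      map_mul' := fun _ _ => rfl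
      map_zero' := rfl
      map_add' := fun _ _ => rfl
      commutes' := fun c => by
        apply Subtype.ext
        show algebraMap k L c = algebraMap k L c
        rfl }
  have hf : Function.Injective f := fun a b hab =>
    Subtype.ext (congrArg (fun z : adjoin k (Set.range X) => (z : L)) hab)
  have h2 := trdeg_le_of_injective f hf
  rw [← trdeg_tower (adjoin k (Set.range x))] at h2
  refine le_trans (add_le_add le_rfl ?_) h2
  let w : V → adjoin (adjoin k (Set.range x)) (Set.range v) :=
    fun j => ⟨v j, subset_adjoin _ _ ⟨j, rfl⟩⟩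
  have hw : AlgebraicIndependent (adjoin k (Set.range x)) w := by
    have h3 : AlgebraicIndependent (adjoin k (Set.range x))
        (fun j => algebraMap (adjoin (adjoin k (Set.range x)) (Set.range v)) L (w j)) := h0
    exact AlgebraicIndependent.of_comp
      (IsScalarTower.toAlgHom (adjoin k (Set.range x))
        (adjoin (adjoin k (Set.range x)) (Set.range v)) L) h3
  exact hw.cardinalMk_le_trdeg

/-- A transcendence basis among the coordinates. -/
theorem exists_basis (k : Type) {K : Type} [Field k] [Field K] [Algebra k K] (x : ι → K) :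
    ∃ B : Set ι, AlgebraicIndependent k (fun i : B => x i) ∧
      (∀ i, IsAlgebraic (adjoin k (Set.range fun i : B => x i)) (x i)) ∧
      Cardinal.mk B = tc k x := by
  classical
  let A := Algebra.adjoin k (Set.range x)
  let x' : ι → A := fun i => ⟨x i, Algebra.subset_adjoin ⟨i, rfl⟩⟩
  have htop : Algebra.adjoin k (Set.range x') = ⊤ := by
    have h1 : (Algebra.adjoin k (Set.range x')).map A.val = A := by
      rw [AlgHom.map_adjoin]
      congr 1
      ext z
      simp [x']
    apply Subalgebra.map_injective (f := A.val) Subtype.val_injective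
    rw [h1, Algebra.map_top]
    exact A.range_val.symm
  have hal : Algebra.IsAlgebraic (Algebra.adjoin k (Set.range x')) A := by
    constructor
    intro a
    have ha : a ∈ Algebra.adjoin k (Set.range x') := by rw [htop]; trivial
    exact isAlgebraic_algebraMap (⟨a, ha⟩ : Algebra.adjoin k (Set.range x'))
  obtain ⟨t, hts, ht⟩ := exists_isTranscendenceBasis_subset (R := k) (Set.range x')
  choose g hg using hts
  have hginj : Function.Injective (fun a : t => g a.2) := by
    intro a b hab
    have h1 := hg a.2
    have h2 := hg b.2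
    simp only at hab
    rw [hab] at h1
    exact Subtype.ext (h1.symm.trans h2)
  let B : Set ι := Set.range fun a : t => g a.2
  let e : t ≃ B := Equiv.ofInjective _ hginj
  have he : ∀ a : t, x' (e a) = a := fun a => hg a.2
  have he' : ∀ b : B, x' b = e.symm b := fun b => by
    have := he (e.symm b)
    rwa [Equiv.apply_symm_apply] at this
  have hx' : (fun i : B => x' i) = (fun a : t => (a : A)) ∘ e.symm := by
    funext b
    exact he' b
  have h1 : AlgebraicIndependent k (fun i : B => x' i) := by
    rw [hx']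
    exact ht.1.comp _ e.symm.injective
  have hrange : Set.range (Subtype.val : t → A) = Set.range (fun i : B => x' i) := by
    rw [hx', Set.range_comp, e.symm.surjective.range_eq, Set.image_univ]
  refine ⟨B, ?_, ?_, ?_⟩
  · exact h1.map' (f := A.val) Subtype.val_injective
  · intro i
    have h2 := ht.isAlgebraic
    rw [hrange] at h2
    have h3 := h2.isAlgebraic (x' i)
    have h4 : (Algebra.adjoin k (Set.range fun i : B => x' i)).map A.val ≤
        (adjoin k (Set.range fun i : B => x i)).toSubalgebra := by
      rw [AlgHom.map_adjoin]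
      apply Algebra.adjoin_le
      rintro _ ⟨_, ⟨b, rfl⟩, rfl⟩
      exact subset_adjoin _ _ ⟨b, rfl⟩
    obtain ⟨p, hp, hp0⟩ := h3
    let φ : Algebra.adjoin k (Set.range fun i : B => x' i) →+*
        adjoin k (Set.range fun i : B => x i) :=
      { toFun := fun z => ⟨z.1.1, h4 ⟨z.1, z.2, rfl⟩⟩
        map_one' := rfl
        map_mul' := fun _ _ => rfl
        map_zero' := rfl
        map_add' := fun _ _ => rfl }
    have hφ : Function.Injective φ := fun a b hab => Subtype.ext (Subtype.ext
      (congrArg (fun z : adjoin k (Set.range fun i : B => x i) => (z : K)) hab))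
    refine ⟨p.map φ, (Polynomial.map_ne_zero_iff hφ).2 hp, ?_⟩
    rw [Polynomial.aeval_def, Polynomial.eval₂_map]
    have h5 : (algebraMap (adjoin k (Set.range fun i : B => x i)) K).comp φ =
        (A.val : A →+* K).comp (algebraMap (Algebra.adjoin k (Set.range fun i : B => x' i)) A) :=
      rfl
    rw [h5]
    have h6 := congrArg (A.val : A →+* K) hp0
    rw [Polynomial.aeval_def, Polynomial.hom_eval₂, map_zero] at h6
    exact h6
  · rw [tc_eq_adjoin, ← ht.cardinalMk_eq_trdeg]
    exact Cardinal.mk_congr e.symm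

/-- Restriction of the base field from `k'` to `k`, lower bound. -/
theorem le_tc_elim {k' : Type} [Field k'] [Algebra k k'] [Algebra k' K] [IsScalarTower k k' K]
    (x : ι → K) (s : κ → k') :
    tc k s + tc k' x ≤ tc k (Sum.elim (fun j => algebraMap k' K (s j)) x) := by
  obtain ⟨B, hB1, -, hB2⟩ := exists_basis k' x
  rw [← hB2]
  refine tc_add_le (V := B) (fun i => subset_adjoin _ _ ⟨Sum.inl i, rfl⟩) hB1
    (fun j => subset_adjoin _ _ ⟨Sum.inr j.1, rfl⟩)

/-- Restriction of the base field from `k'` to `k`, upper bound for suitable constants. -/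
theorem exists_const {k' : Type} [Field k'] [Algebra k k'] [Algebra k' K] [IsScalarTower k k' K]
    [Fintype ι] (x : ι → K) :
    ∃ s : Finset k', tc k (Sum.elim (fun j : s => algebraMap k' K j) x) ≤
      tc k (fun j : s => (j : k')) + tc k' x := by
  classical
  obtain ⟨B, hB1, hB3, hB2⟩ := exists_basis k' x
  have hBfin : Finite B := by infer_instance
  have hBft : Fintype B := Fintype.ofFinite B
  -- elements of the field generated by the basis over `k'`
  have key : ∀ z : K, z ∈ adjoin k' (Set.range fun i : B => x i) → ∃ T : Finset k',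
      z ∈ adjoin k (Set.range (Sum.elim (fun j : T => algebraMap k' K j) fun i : B => x i)) := by
    have hmono : ∀ T T' : Finset k', T ⊆ T' → ∀ z : K,
        z ∈ adjoin k (Set.range (Sum.elim (fun j : T => algebraMap k' K j) fun i : B => x i)) →
        z ∈ adjoin k (Set.range (Sum.elim (fun j : T' => algebraMap k' K j) fun i : B => x i)) := by
      intro T T' hT z hz
      refine adjoin.mono _ _ _ ?_ hz
      rintro _ ⟨j | i, rfl⟩
      · exact ⟨Sum.inl ⟨j.1, hT j.2⟩, rfl⟩
      · exact ⟨Sum.inr i, rfl⟩
    intro z hz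
    induction hz using IntermediateField.adjoin_induction with
    | mem z hz =>
      obtain ⟨i, rfl⟩ := hz
      exact ⟨∅, subset_adjoin _ _ ⟨Sum.inr i, rfl⟩⟩
    | algebraMap c => exact ⟨{c}, subset_adjoin _ _ ⟨Sum.inl ⟨c, Finset.mem_singleton_self c⟩, rfl⟩⟩
    | add a b _ _ ha hb =>
      obtain ⟨T, hT⟩ := ha
      obtain ⟨T', hT'⟩ := hb
      exact ⟨T ∪ T', add_mem (hmono _ _ Finset.subset_union_left _ hT)
        (hmono _ _ Finset.subset_union_right _ hT')⟩
    | inv a _ ha =>
      obtain ⟨T, hT⟩ := ha
      exact ⟨T, inv_mem hT⟩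
    | mul a b _ _ ha hb =>
      obtain ⟨T, hT⟩ := ha
      obtain ⟨T', hT'⟩ := hb
      exact ⟨T ∪ T', mul_mem (hmono _ _ Finset.subset_union_left _ hT)
        (hmono _ _ Finset.subset_union_right _ hT')⟩
  choose p hp0 hp using hB3
  have key2 : ∀ (i : ι) (n : ℕ), ∃ T : Finset k', ((p i).coeff n : K) ∈
      adjoin k (Set.range (Sum.elim (fun j : T => algebraMap k' K j) fun i : B => x i)) :=
    fun i n => key _ ((p i).coeff n).2
  choose T hT using key2
  let s : Finset k' := Finset.univ.biUnion fun i => (Finset.range ((p i).natDegree + 1)).biUnion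
    fun n => T i n
  refine ⟨s, ?_⟩
  have hco : ∀ i n, ((p i).coeff n : K) ∈
      adjoin k (Set.range (Sum.elim (fun j : s => algebraMap k' K j) fun i : B => x i)) := by
    intro i n
    rcases Nat.lt_or_ge (p i).natDegree n with h | h
    · rw [Polynomial.coeff_eq_zero_of_natDegree_lt h]
      exact zero_mem _
    · refine adjoin.mono _ _ _ ?_ (hT i n)
      rintro _ ⟨j | b, rfl⟩
      · exact ⟨Sum.inl ⟨j.1, Finset.mem_biUnion.2 ⟨i, Finset.mem_univ _,
          Finset.mem_biUnion.2 ⟨n, Finset.mem_range.2 (by omega), j.2⟩⟩⟩, rfl⟩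
      · exact ⟨Sum.inr b, rfl⟩
  have halg : ∀ i, IsAlgebraic (adjoin k (Set.range (Sum.elim (fun j : s => algebraMap k' K j)
      fun i : B => x i))) (x i) := by
    intro i
    have hsub : ∀ n, (((p i).map (algebraMap _ K)).coeff n) ∈
        adjoin k (Set.range (Sum.elim (fun j : s => algebraMap k' K j) fun i : B => x i)) := by
      intro n
      rw [Polynomial.coeff_map]
      exact hco i n
    let q : Polynomial (adjoin k (Set.range (Sum.elim (fun j : s => algebraMap k' K j)
        fun i : B => x i))) := ∑ n ∈ Finset.range ((p i).natDegree + 1),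
          Polynomial.monomial n ⟨_, hsub n⟩
    have hq : q.map (algebraMap _ K) = (p i).map (algebraMap _ K) := by
      rw [(p i).as_sum_range' ((p i).natDegree + 1) (Nat.lt_succ_self _)]
      simp only [q, Polynomial.map_sum, Polynomial.map_monomial]
      refine Finset.sum_congr rfl fun n hn => ?_
      congr 1
      show (((p i).map (algebraMap _ K)).coeff n) = _
      rw [Polynomial.coeff_map]
    refine ⟨q, ?_, ?_⟩
    · intro h0
      rw [h0, Polynomial.map_zero] at hq
      exact hp0 i ((Polynomial.map_eq_zero _).1 hq.symm)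
    · rw [Polynomial.aeval_def, ← Polynomial.eval_map, hq, Polynomial.eval_map,
        ← Polynomial.aeval_def, hp i]
  calc tc k (Sum.elim (fun j : s => algebraMap k' K j) x)
      ≤ tc k (Sum.elim (fun j : s => algebraMap k' K j) fun i : B => x i) := by
        refine tc_le_of_alg ?_
        rintro (j | i)
        · exact isAlgebraic_algebraMap (⟨_, subset_adjoin _ _ ⟨Sum.inl j, rfl⟩⟩ :
            adjoin k (Set.range (Sum.elim (fun j : s => algebraMap k' K j) fun i : B => x i)))
        · exact halg i
    _ ≤ tc k (fun j : s => algebraMap k' K j) + Fintype.card B := tc_elim_le _ _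
    _ = tc k (fun j : s => (j : k')) + tc k' x := by
        rw [← hB2, Cardinal.mk_fintype]
        congr 1
        have h : ∀ f : MvPolynomial s k, aeval (fun j : s => algebraMap k' K j) f =
            algebraMap k' K (aeval (fun j : s => (j : k')) f) := by
          intro f
          have h1 : (aeval (fun j : s => algebraMap k' K j) : MvPolynomial s k →ₐ[k] K) =
              (IsScalarTower.toAlgHom k k' K).comp (aeval (fun j : s => (j : k'))) := by
            ext j
            simp
          rw [h1]
          rfl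
        refine tc_eq_of_sp ?_ ?_
        · intro f hf
          rw [h] at hf
          exact (map_eq_zero _).1 hf
        · intro f hf
          rw [h, hf, map_zero]

/-- Krull's theorem: cutting the locus of `y` with polynomials that vanish at the specialization `x`
of `y`. -/
theorem cut_pt [Fintype ι] {y : ι → K} {x : ι → L} (h : Sp k y x) (b : Finset (MvPolynomial ι k))
    (hb : ∀ f ∈ b, aeval x f = 0) :
    ∃ (F : Type) (_ : Field F) (_ : Algebra k F) (y' : ι → F), Sp k y y' ∧ Sp k y' x ∧
      (∀ f ∈ b, aeval y' f = 0) ∧ tc k y ≤ tc k y' + b.card := by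
  have h1 : RingHom.ker (aeval y : MvPolynomial ι k →ₐ[k] K) ≤
      RingHom.ker (aeval x : MvPolynomial ι k →ₐ[k] L) := fun f hf => h f hf
  have hp1 : (RingHom.ker (aeval y : MvPolynomial ι k →ₐ[k] K)).IsPrime := RingHom.ker_isPrime _
  have hp2 : (RingHom.ker (aeval x : MvPolynomial ι k →ₐ[k] L)).IsPrime := RingHom.ker_isPrime _
  obtain ⟨p, hp, hp0, hpP, hbp, htr⟩ := V7H84.Perm.cut (K := k) _ b _ h1 hb
  let A := MvPolynomial ι k ⧸ p
  let F := FractionRing A
  let y' : ι → F := fun i => algebraMap A F (Ideal.Quotient.mk p (X i))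
  have hy' : ∀ f : MvPolynomial ι k, aeval y' f = algebraMap A F (Ideal.Quotient.mk p f) := by
    intro f
    have h2 : (aeval y' : MvPolynomial ι k →ₐ[k] F) =
        (IsScalarTower.toAlgHom k A F).comp (Ideal.Quotient.mkₐ k p) := by
      ext i
      simp [y', A, F]
    rw [h2]
    rfl
  have hy0 : ∀ f : MvPolynomial ι k, aeval y' f = 0 ↔ f ∈ p := by
    intro f
    rw [hy', map_eq_zero_iff _ (IsFractionRing.injective A F), Ideal.Quotient.eq_zero_iff_mem]
  have hker : RingHom.ker (aeval y' : MvPolynomial ι k →ₐ[k] F) = p := by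
    ext f
    rw [RingHom.mem_ker]
    exact hy0 f
  refine ⟨F, inferInstance, inferInstance, y', fun f hf => (hy0 f).2 (hp0 hf),
    fun f hf => hpP ((hy0 f).1 hf), fun f hf => (hy0 f).2 (hbp f hf), ?_⟩
  rw [tc_eq_quot k y, tc_eq_quot k y', hker]
  exact htr

end td

end Pool.Agent.V7H32.CP

namespace Pool.Agent.V7H32.CP

open MvPolynomial IntermediateField

section nat

variable {ι κ V : Type} [Fintype ι] [Fintype κ] {k : Type} {K L : Type} [Field k] [Field K]
  [Field L] [Algebra k K] [Algebra k L]

/-- The transcendence degree as a natural number. -/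
noncomputable def td (k : Type) {K ι : Type} [Field k] [Field K] [Algebra k K] (x : ι → K) : ℕ :=
  Cardinal.toNat (tc k x)

theorem coe_td (x : ι → K) : (td k x : Cardinal) = tc k x :=
  Cardinal.cast_toNat_of_lt_aleph0 ((tc_le_card x).trans_lt Cardinal.natCast_lt_aleph0)

theorem td_le_card (x : ι → K) : td k x ≤ Fintype.card ι := by
  have := tc_le_card (k := k) x
  rw [← coe_td] at this
  exact_mod_cast this

theorem td_eq_of_sp {x : ι → K} {y : ι → L} (h : Sp k x y) (h' : Sp k y x) : td k x = td k y := by
  rw [td, td, tc_eq_of_sp h h']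

theorem td_mono {x : ι → K} {y : κ → K} (h : ∀ i, x i ∈ adjoin k (Set.range y)) :
    td k x ≤ td k y := by
  have := tc_mono h
  rw [← coe_td, ← coe_td] at this
  exact_mod_cast this

theorem td_le_of_alg {x : ι → K} {y : κ → K} (h : ∀ i, IsAlgebraic (adjoin k (Set.range y)) (x i)) :
    td k x ≤ td k y := by
  have := tc_le_of_alg h
  rw [← coe_td, ← coe_td] at this
  exact_mod_cast this

theorem td_add_le [Algebra K L] [IsScalarTower k K L] [Fintype V] {x : ι → K} {X : κ → L}
    (hx : ∀ i, algebraMap K L (x i) ∈ adjoin k (Set.range X)) {v : V → L}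
    (hv : AlgebraicIndependent K v) (hv' : ∀ j, v j ∈ adjoin k (Set.range X)) :
    td k x + Fintype.card V ≤ td k X := by
  have := tc_add_le hx hv hv'
  rw [← coe_td, ← coe_td, Cardinal.mk_fintype] at this
  exact_mod_cast this

theorem td_elim_le [Fintype V] (x : ι → K) (v : V → K) :
    td k (Sum.elim x v) ≤ td k x + Fintype.card V := by
  have := tc_elim_le (k := k) x v
  rw [← coe_td, ← coe_td] at this
  exact_mod_cast this

theorem le_td_elim {k' : Type} [Field k'] [Algebra k k'] [Algebra k' K] [IsScalarTower k k' K]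
    (x : ι → K) (s : κ → k') :
    td k s + td k' x ≤ td k (Sum.elim (fun j => algebraMap k' K (s j)) x) := by
  have := le_tc_elim (k := k) x s
  rw [← coe_td, ← coe_td, ← coe_td] at this
  exact_mod_cast this

theorem exists_const_nat {k' : Type} [Field k'] [Algebra k k'] [Algebra k' K]
    [IsScalarTower k k' K] (x : ι → K) :
    ∃ s : Finset k', td k (Sum.elim (fun j : s => algebraMap k' K j) x) ≤
      td k (fun j : s => (j : k')) + td k' x := by
  obtain ⟨s, hs⟩ := exists_const (k := k) (k' := k') x
  refine ⟨s, ?_⟩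
  rw [← coe_td, ← coe_td, ← coe_td] at hs
  exact_mod_cast hs

theorem cut_td {y : ι → K} {x : ι → L} (h : Sp k y x) (b : Finset (MvPolynomial ι k))
    (hb : ∀ f ∈ b, aeval x f = 0) :
    ∃ (F : Type) (_ : Field F) (_ : Algebra k F) (y' : ι → F), Sp k y y' ∧ Sp k y' x ∧
      (∀ f ∈ b, aeval y' f = 0) ∧ td k y ≤ td k y' + b.card := by
  obtain ⟨F, i1, i2, y', h1, h2, h3, h4⟩ := cut_pt h b hb
  refine ⟨F, i1, i2, y', h1, h2, h3, ?_⟩
  rw [← coe_td, ← coe_td] at h4
  exact_mod_cast h4

theorem mon_mem (x : ι → Kˣ) (a : ι → ℤ) : ((mon x a : Kˣ) : K) ∈ adjoin k (Set.range (cx x)) := by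
  rw [mon, Units.coe_prod]
  refine prod_mem fun i _ => ?_
  rw [Units.val_zpow_eq_zpow_val]
  exact zpow_mem (subset_adjoin k (Set.range (cx x)) ⟨i, rfl⟩) _

end nat

end Pool.Agent.V7H32.CP
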